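import Pool.Agent.MP_5ec4a4_an.Defs

set_option autoImplicit false
set_option linter.unusedSectionVars false

open scoped InnerProductSpace Topology
open Filter

namespace Pool.Agent.MP_5ec4a4_an

variable {H : Type*} [NormedAddCommGroup H] [InnerProductSpace ℂ H] [CompleteSpace H]

/-- A sequence of contractions has a weak limit along an ultrafilter. -/
theorem exists_weak_limit (U : ℕ → H →L[ℂ] H) (hU : ∀ n x, ‖U n x‖ ≤ ‖x‖) :
    ∃ (𝒰 : Ultrafilter ℕ) (W : H →L[ℂ] H), (𝒰 : Filter ℕ) ≤ atTop ∧ (∀ x, ‖W x‖ ≤ ‖x‖) ∧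
      ∀ x y, Tendsto (fun n => ⟪y, U n x⟫_ℂ) 𝒰 (𝓝 ⟪y, W x⟫_ℂ) := by
  set 𝒰 : Ultrafilter ℕ := Ultrafilter.of atTop with h𝒰
  have hle : (𝒰 : Filter ℕ) ≤ atTop := Ultrafilter.of_le atTop
  have hex : ∀ x y : H, ∃ c : ℂ, ‖c‖ ≤ ‖x‖ * ‖y‖ ∧ Tendsto (fun n => ⟪U n x, y⟫_ℂ) 𝒰 (𝓝 c) := by
    intro x y
    have hcpt : IsCompact (Metric.closedBall (0 : ℂ) (‖x‖ * ‖y‖)) := isCompact_closedBall _ _
    have hmem : ((𝒰.map (fun n => ⟪U n x, y⟫_ℂ) : Ultrafilter ℂ) : Filter ℂ) ≤
        𝓟 (Metric.closedBall (0 : ℂ) (‖x‖ * ‖y‖)) := by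
      rw [le_principal_iff]
      change (fun n => ⟪U n x, y⟫_ℂ) ⁻¹' _ ∈ (𝒰 : Filter ℕ)
      refine Filter.univ_mem' fun n => ?_
      simp only [Set.mem_preimage, mem_closedBall_zero_iff]
      exact (norm_inner_le_norm _ _).trans
        (mul_le_mul_of_nonneg_right (hU n x) (norm_nonneg _))
    obtain ⟨c, hc, hc'⟩ := hcpt.ultrafilter_le_nhds _ hmem
    exact ⟨c, by simpa using hc, hc'⟩
  choose B hB1 hB2 using hex
  have huniq : ∀ x y c, Tendsto (fun n => ⟪U n x, y⟫_ℂ) 𝒰 (𝓝 c) → c = B x y :=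
    fun x y c hc => tendsto_nhds_unique hc (hB2 x y)
  -- the vector `W x`
  let φ : H → (H →L[ℂ] ℂ) := fun x => LinearMap.mkContinuous
    { toFun := fun y => B x y
      map_add' := fun y z => by
        symm
        apply huniq
        have := (hB2 x y).add (hB2 x z)
        simpa [inner_add_right] using this
      map_smul' := fun c y => by
        symm
        apply huniq
        have := (hB2 x y).const_mul c
        simpa [inner_smul_right] using this } ‖x‖ (fun y => hB1 x y)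
  have hφ : ∀ x y, φ x y = B x y := fun x y => rfl
  let w : H → H := fun x => (InnerProductSpace.toDual ℂ H).symm (φ x)
  have hw : ∀ x y, ⟪w x, y⟫_ℂ = B x y := fun x y => by
    rw [InnerProductSpace.toDual_symm_apply]; rfl
  have hwn : ∀ x, ‖w x‖ ≤ ‖x‖ := by
    intro x
    change ‖(InnerProductSpace.toDual ℂ H).symm (φ x)‖ ≤ ‖x‖
    rw [LinearIsometryEquiv.norm_map]
    exact LinearMap.mkContinuous_norm_le _ (norm_nonneg _) _
  let W : H →L[ℂ] H := LinearMap.mkContinuous
    { toFun := w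
      map_add' := fun x y => by
        apply ext_inner_right ℂ
        intro z
        rw [inner_add_left, hw, hw, hw]
        symm
        apply huniq
        have := (hB2 x z).add (hB2 y z)
        simpa [inner_add_left] using this
      map_smul' := fun c x => by
        apply ext_inner_right ℂ
        intro z
        rw [inner_smul_left, hw, hw]
        symm
        apply huniq
        have := (hB2 x z).const_mul ((starRingEnd ℂ) c)
        refine this.congr fun n => ?_
        rw [map_smul, inner_smul_left] } 1 (fun x => by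
          rw [one_mul]; exact hwn x)
  refine ⟨𝒰, W, hle, hwn, ?_⟩
  intro x y
  have h1 : Tendsto (fun n => (starRingEnd ℂ) ⟪U n x, y⟫_ℂ) 𝒰 (𝓝 ((starRingEnd ℂ) (B x y))) :=
    (Complex.continuous_conj.tendsto _).comp (hB2 x y)
  have h2 : (starRingEnd ℂ) (B x y) = ⟪y, W x⟫_ℂ := by
    rw [← hw x y, inner_conj_symm]; rfl
  rw [h2] at h1
  simpa [inner_conj_symm] using h1

end Pool.Agent.MP_5ec4a4_an
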