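import Pool.Agent.MP_5ec4a4_an.Extract
import Pool.Agent.MP_5ec4a4_an.Weak

set_option autoImplicit false
set_option linter.unusedSectionVars false

open scoped InnerProductSpace ENNReal InnerProduct Topology
open ContinuousLinearMap (adjoint)
open FreeGroup Filter

namespace Pool.Agent.MP_5ec4a4_an

section

variable {H : Type*} [NormedAddCommGroup H] [InnerProductSpace ℂ H] [CompleteSpace H]

theorem norm_one_le : ‖(1 : H →L[ℂ] H)‖ ≤ 1 := ContinuousLinearMap.norm_id_le

theorem exists_inv (T : H →L[ℂ] H) (hT : ‖T‖ ≤ 1 / 3) :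
    ∃ N : H →L[ℂ] H, N * (1 - T) = 1 ∧ (1 - T) * N = 1 ∧ ‖N‖ ≤ 3 / 2 := by
  have h1 : ‖T‖ < 1 := by linarith
  refine ⟨∑' i : ℕ, T ^ i, geom_series_mul_neg T h1, mul_neg_geom_series T h1, ?_⟩
  refine (tsum_geometric_le_of_norm_lt_one T h1).trans ?_
  have h2 : (1 - ‖T‖)⁻¹ ≤ 3 / 2 := by
    rw [inv_le_comm₀ (by linarith) (by norm_num)]
    linarith
  have := norm_one_le (H := H)
  linarith

/-- The Cayley transform of a small self-adjoint operator. -/
theorem exists_cayley (h : H →L[ℂ] H) (hsa : IsSelfAdjoint h) (hn : ‖h‖ ≤ 1 / 3) :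
    ∃ N : H →L[ℂ] H, N * (1 - Complex.I • h) = 1 ∧ (1 - Complex.I • h) * N = 1 ∧ ‖N‖ ≤ 3 / 2 ∧
      (1 + Complex.I • h) * N ∈ unitary (H →L[ℂ] H) := by
  have hI : ‖Complex.I • h‖ ≤ 1 / 3 := by
    rw [norm_smul, Complex.norm_I, one_mul]; exact hn
  obtain ⟨N, h1, h2, h3⟩ := exists_inv (Complex.I • h) hI
  refine ⟨N, h1, h2, h3, ?_⟩
  have hstar : star (1 - Complex.I • h) = 1 + Complex.I • h := by
    rw [star_sub, star_one, star_smul, hsa.star_eq]
    simp
  have hstar' : star (1 + Complex.I • h) = 1 - Complex.I • h := by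
    rw [← hstar, star_star]
  have h4 : (1 + Complex.I • h) * star N = 1 := by
    rw [← hstar, ← star_mul, h1, star_one]
  have h5 : star N * (1 + Complex.I • h) = 1 := by
    rw [← hstar, ← star_mul, h2, star_one]
  have hcomm : (1 + Complex.I • h) * (1 - Complex.I • h) =
      (1 - Complex.I • h) * (1 + Complex.I • h) := by
    generalize Complex.I • h = T
    noncomm_ring
  have hNc : N * (1 + Complex.I • h) = (1 + Complex.I • h) * N := by
    calc N * (1 + Complex.I • h) = N * (1 + Complex.I • h) * ((1 - Complex.I • h) * N) := by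
          rw [h2, mul_one]
      _ = N * ((1 + Complex.I • h) * (1 - Complex.I • h)) * N := by noncomm_ring
      _ = N * ((1 - Complex.I • h) * (1 + Complex.I • h)) * N := by rw [hcomm]
      _ = (N * (1 - Complex.I • h)) * ((1 + Complex.I • h) * N) := by noncomm_ring
      _ = _ := by rw [h1, one_mul]
  rw [Unitary.mem_iff, star_mul, hstar']
  constructor
  · calc star N * (1 - Complex.I • h) * ((1 + Complex.I • h) * N)
        = star N * ((1 - Complex.I • h) * (1 + Complex.I • h)) * N := by noncomm_ring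
      _ = star N * ((1 + Complex.I • h) * (1 - Complex.I • h)) * N := by rw [hcomm]
      _ = (star N * (1 + Complex.I • h)) * ((1 - Complex.I • h) * N) := by noncomm_ring
      _ = 1 := by rw [h5, h2, one_mul]
  · calc (1 + Complex.I • h) * N * (star N * (1 - Complex.I • h))
        = N * (1 + Complex.I • h) * (star N * (1 - Complex.I • h)) := by rw [hNc]
      _ = N * ((1 + Complex.I • h) * star N) * (1 - Complex.I • h) := by noncomm_ring
      _ = 1 := by rw [h4, mul_one, h1]

/-- Inverse Cayley transform of a unitary close to `1`. -/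
theorem exists_inv_cayley (V : H →L[ℂ] H) (hV : V ∈ unitary (H →L[ℂ] H)) {c : ℝ}
    (hc : IsNuc (V - 1) c) (hc1 : c ≤ 1 / 3) :
    ∃ h : H →L[ℂ] H, IsSelfAdjoint h ∧ IsNuc h c ∧
      V * (1 - Complex.I • h) = 1 + Complex.I • h := by
  have hn : ‖(-(1 / 2 : ℂ)) • (V - 1)‖ ≤ 1 / 3 := by
    rw [norm_smul]
    have h1 := hc.norm_le
    have h2 : ‖(-(1 / 2 : ℂ))‖ = 1 / 2 := by simp
    rw [h2]
    have := norm_nonneg (V - 1)
    linarith
  obtain ⟨N, h1, h2, h3⟩ := exists_inv _ hn
  have hT : (1 : H →L[ℂ] H) - (-(1 / 2 : ℂ)) • (V - 1) = (1 / 2 : ℂ) • (V + 1) := by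
    rw [neg_smul, sub_neg_eq_add, smul_sub, smul_add]
    have : (1 : H →L[ℂ] H) = (1 / 2 : ℂ) • 1 + (1 / 2 : ℂ) • 1 := by
      rw [← add_smul]; norm_num
    nth_rewrite 1 [this]
    abel
  rw [hT] at h1 h2
  set M : H →L[ℂ] H := (1 / 2 : ℂ) • N with hM
  have hM1 : M * (V + 1) = 1 := by
    rw [hM, smul_mul_assoc, ← mul_smul_comm]; exact h1
  have hM2 : (V + 1) * M = 1 := by
    rw [hM, mul_smul_comm, ← smul_mul_assoc]; exact h2
  have hMn : ‖M‖ ≤ 1 := by
    rw [hM, norm_smul]
    have : ‖(1 / 2 : ℂ)‖ = 1 / 2 := by simp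
    rw [this]
    linarith [norm_nonneg N]
  have hMV : M * V = V * M := by
    have e1 : M * V = 1 - M := by
      rw [eq_sub_iff_add_eq, ← hM1, mul_add, mul_one]
    have e2 : V * M = 1 - M := by
      rw [eq_sub_iff_add_eq, ← hM2, add_mul, one_mul]
    rw [e1, e2]
  have hsV : star V * V = 1 := Unitary.star_mul_self_of_mem hV
  have hVs : V * star V = 1 := Unitary.mul_star_self_of_mem hV
  have hMs : star M = V * M := by
    have e1 : star M * (star V + 1) = 1 := by
      have := congrArg star hM2
      rw [star_mul, star_add, star_one] at this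
      exact this
    have e2 : (star V + 1) * (V * M) = 1 := by
      calc (star V + 1) * (V * M) = (star V * V) * M + V * M := by noncomm_ring
        _ = (V + 1) * M := by rw [hsV]; noncomm_ring
        _ = 1 := hM2
    calc star M = star M * ((star V + 1) * (V * M)) := by rw [e2, mul_one]
      _ = (star M * (star V + 1)) * (V * M) := by noncomm_ring
      _ = V * M := by rw [e1, one_mul]
  have hIh : Complex.I • (-Complex.I • ((V - 1) * M)) = (V - 1) * M := by
    rw [smul_smul]; simp
  refine ⟨-Complex.I • ((V - 1) * M), ?_, ?_, ?_⟩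
  · rw [IsSelfAdjoint, star_smul, star_mul, hMs, star_sub, star_one]
    have e1 : V * M * (star V - 1) = - ((V - 1) * M) := by
      rw [← hMV]
      calc M * V * (star V - 1) = M * (V * star V) - M * V := by noncomm_ring
        _ = M - V * M := by rw [hVs, mul_one, hMV]
        _ = _ := by noncomm_ring
    rw [e1]
    simp
  · have e1 := (hc.mul_mul 1 M).smul (-Complex.I)
    rw [one_mul] at e1
    refine e1.mono ?_
    have e2 : ‖-Complex.I‖ = 1 := by simp
    rw [e2, one_mul]
    have e3 := hc.nonneg
    have e4 := norm_one_le (H := H)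
    calc ‖(1 : H →L[ℂ] H)‖ * c * ‖M‖ ≤ 1 * c * 1 := by gcongr
      _ = c := by ring
  · rw [hIh]
    have e1 : (1 : H →L[ℂ] H) - (V - 1) * M = 2 * M := by
      calc (1 : H →L[ℂ] H) - (V - 1) * M = (V + 1) * M - (V - 1) * M := by rw [hM2]
        _ = 2 * M := by noncomm_ring
    have e2 : (1 : H →L[ℂ] H) + (V - 1) * M = 2 * (V * M) := by
      calc (1 : H →L[ℂ] H) + (V - 1) * M = (V + 1) * M + (V - 1) * M := by rw [hM2]
        _ = 2 * (V * M) := by noncomm_ring
    rw [e1, e2]
    noncomm_ring

/-- The projection onto the span of finitely many basis vectors. -/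
noncomputable def projF {X : Type*} (b : HilbertBasis X ℂ H) (s : Finset X) : H →L[ℂ] H :=
  ∑ x ∈ s, (innerSL ℂ (b x)).smulRight (b x)

theorem projF_apply {X : Type*} (b : HilbertBasis X ℂ H) (s : Finset X) (v : H) :
    projF b s v = ∑ x ∈ s, ⟪b x, v⟫_ℂ • b x := by
  simp [projF, sum_apply]

theorem projF_basis_notMem {X : Type*} (b : HilbertBasis X ℂ H) {s : Finset X} {x : X}
    (hx : x ∉ s) : projF b s (b x) = 0 := by
  rw [projF_apply]
  refine Finset.sum_eq_zero fun y hy => ?_
  rw [b.orthonormal.2 (fun h : y = x => hx (h ▸ hy)), zero_smul]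

theorem inner_projF {X : Type*} (b : HilbertBasis X ℂ H) (s : Finset X) (u v : H) :
    ⟪u, projF b s v⟫_ℂ = ∑ x ∈ s, ⟪u, b x⟫_ℂ * ⟪b x, v⟫_ℂ := by
  rw [projF_apply, inner_sum]
  refine Finset.sum_congr rfl fun x _ => ?_
  rw [inner_smul_right, mul_comm]

theorem projF_sa {X : Type*} (b : HilbertBasis X ℂ H) (s : Finset X) :
    IsSelfAdjoint (projF b s) := by
  rw [ContinuousLinearMap.isSelfAdjoint_iff_isSymmetric]
  intro u v
  change ⟪projF b s u, v⟫_ℂ = ⟪u, projF b s v⟫_ℂ
  rw [inner_projF, ← inner_conj_symm, inner_projF, map_sum]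
  refine Finset.sum_congr rfl fun x _ => ?_
  rw [RingHom.map_mul, inner_conj_symm, inner_conj_symm, mul_comm]

theorem projF_norm_le {X : Type*} (b : HilbertBasis X ℂ H) (s : Finset X) (v : H) :
    ‖projF b s v‖ ≤ ‖v‖ := by
  have h1 : ‖projF b s v‖ ^ 2 ≤ ‖v‖ ^ 2 := by
    have e1 : ‖projF b s v‖ ^ 2 = ∑ x ∈ s, ‖⟪b x, v⟫_ℂ‖ ^ 2 := by
      have e2 : ((‖projF b s v‖ ^ 2 : ℝ) : ℂ) = ((∑ x ∈ s, ‖⟪b x, v⟫_ℂ‖ ^ 2 : ℝ) : ℂ) := by
        have e3 : ((‖projF b s v‖ ^ 2 : ℝ) : ℂ) = ⟪projF b s v, projF b s v⟫_ℂ := by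
          rw [inner_self_eq_norm_sq_to_K]; push_cast; rfl
        rw [e3, projF_apply, b.orthonormal.inner_sum]
        push_cast
        refine Finset.sum_congr rfl fun x _ => ?_
        rw [RCLike.conj_mul]; rfl
      exact_mod_cast e2
    rw [e1]
    exact b.orthonormal.sum_inner_products_le v
  exact (pow_le_pow_iff_left₀ (norm_nonneg _) (norm_nonneg _) two_ne_zero).1 h1

theorem projF_opNorm_le {X : Type*} (b : HilbertBasis X ℂ H) (s : Finset X) :
    ‖projF b s‖ ≤ 1 :=
  ContinuousLinearMap.opNorm_le_bound _ zero_le_one fun v => by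
    rw [one_mul]; exact projF_norm_le b s v

theorem projF_tendsto {X : Type*} (b : HilbertBasis X ℂ H) (Y : ℕ → Finset X)
    (hY : Tendsto Y atTop atTop) (v : H) :
    Tendsto (fun n => projF b (Y n) v) atTop (𝓝 v) := by
  have h1 : HasSum (fun x => ⟪b x, v⟫_ℂ • b x) v := by
    have := b.hasSum_repr v
    simpa [b.repr_apply_apply] using this
  have h2 := h1.comp hY
  refine h2.congr fun n => ?_
  rw [projF_apply]; rfl

end

section

variable {S : Type} [Fintype S] [DecidableEq S]
variable {H : Type*} [NormedAddCommGroup H] [InnerProductSpace ℂ H] [CompleteSpace H]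

theorem Yset_tendsto (s : S) : Tendsto (fun n => Yset n s) atTop atTop := by
  refine tendsto_atTop_finset_of_monotone ?_ ?_
  · intro m n hmn x hx
    rw [mem_Yset] at hx ⊢
    exact ⟨hx.1.trans hmn, hx.2.trans hmn⟩
  · intro x
    refine ⟨max x.norm (of s * x).norm, ?_⟩
    rw [mem_Yset]
    exact ⟨le_max_left _ _, le_max_right _ _⟩

/-- Theorem A: a small nuclear perturbation of the left translations by the free generators
has a nonzero intertwiner from the regular representation. -/
theorem exists_intertwiner (b : HilbertBasis (FreeGroup S) ℂ H) (V : S → H →L[ℂ] H)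
    (hV : ∀ s, V s ∈ unitary (H →L[ℂ] H)) {c : ℝ} (hc : ∀ s, IsNuc (V s - 1) c)
    (hc1 : c ≤ 1 / 3) (hc2 : Fintype.card S * (3 * c) ≤ 1 / 16) :
    ∃ U : H →L[ℂ] H, U ≠ 0 ∧ ∀ s, U * Lam b (of s) = Lam b (of s) * V s * U := by
  choose h hsa hnuc hcay using fun s => exists_inv_cayley (V s) (hV s) (hc s) hc1
  -- truncations
  set hn : ℕ → S → H →L[ℂ] H := fun n s => projF b (Yset n s) * h s * projF b (Yset n s)
    with hhn
  have hn_sa : ∀ n s, IsSelfAdjoint (hn n s) := by
    intro n s
    rw [IsSelfAdjoint, hhn]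
    simp only
    rw [star_mul, star_mul, (hsa s).star_eq, (projF_sa b _).star_eq, mul_assoc]
  have hn_nuc : ∀ n s, IsNuc (hn n s) c := by
    intro n s
    refine ((hnuc s).mul_mul _ _).mono ?_
    have e1 := projF_opNorm_le b (Yset n s)
    have e2 := (hnuc s).nonneg
    calc ‖projF b (Yset n s)‖ * c * ‖projF b (Yset n s)‖ ≤ 1 * c * 1 := by gcongr
      _ = c := by ring
  have hn_norm : ∀ n s, ‖hn n s‖ ≤ 1 / 3 := fun n s => (hn_nuc n s).norm_le.trans hc1
  choose N hN1 hN2 hN3 hN4 using fun n s => exists_cayley (hn n s) (hn_sa n s) (hn_norm n s)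
  set Vn : ℕ → S → H →L[ℂ] H := fun n s => (1 + Complex.I • hn n s) * N n s with hVn
  have hVn1 : ∀ n s, Vn n s - 1 = (2 * Complex.I) • (hn n s * N n s) := by
    intro n s
    have e1 : Vn n s - 1 = (1 + Complex.I • hn n s) * N n s -
        (1 - Complex.I • hn n s) * N n s := by rw [hN2]
    rw [e1, ← sub_mul]
    have e2 : (1 + Complex.I • hn n s) - (1 - Complex.I • hn n s) =
        (2 * Complex.I) • hn n s := by
      rw [mul_smul, two_smul]; abel
    rw [e2, smul_mul_assoc]
  have hVn_nuc : ∀ n s, IsNuc (Vn n s - 1) (3 * c) := by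
    intro n s
    rw [hVn1]
    have e1 := ((hn_nuc n s).mul_mul 1 (N n s)).smul (2 * Complex.I)
    rw [one_mul] at e1
    refine e1.mono ?_
    have e2 : ‖2 * Complex.I‖ = 2 := by simp
    have e3 := (hnuc s).nonneg
    have e4 := norm_one_le (H := H)
    rw [e2]
    calc 2 * (‖(1 : H →L[ℂ] H)‖ * c * ‖N n s‖) ≤ 2 * (1 * c * (3 / 2)) := by
          gcongr
          exact hN3 n s
      _ = 3 * c := by ring
  have hfin : ∀ n, FinPert b n (Vn n) := by
    intro n
    refine ⟨fun s => hN4 n s, fun s x hx => ?_⟩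
    have e1 : hn n s (b x) = 0 := by
      change projF b (Yset n s) (h s (projF b (Yset n s) (b x))) = 0
      rw [projF_basis_notMem b hx]; simp
    have e2 : (1 - Complex.I • hn n s) (b x) = b x := by
      change b x - Complex.I • hn n s (b x) = b x
      rw [e1]; simp
    have e3 : N n s (b x) = b x := by
      conv_lhs => rw [← e2]
      exact congrArg (fun T : H →L[ℂ] H => T (b x)) (hN1 n s)
    change (N n s (b x)) + Complex.I • hn n s (N n s (b x)) = b x
    rw [e3, e1]; simp
  have hU := fun n => exists_intertwiner_fin (hfin n) (κ := fun _ => 3 * c) (hVn_nuc n) (by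
    rw [Finset.sum_const, Finset.card_univ, nsmul_eq_mul]; exact hc2)
  choose U hU1 hU2 hU3 using hU
  obtain ⟨𝒰, W, hle, -, hW⟩ := exists_weak_limit U hU1
  refine ⟨W, ?_, ?_⟩
  · intro hW0
    have e1 := (hW (b 1) (b 1)).norm
    rw [hW0] at e1
    have e2 := ge_of_tendsto' e1 hU3
    simp at e2
    norm_num at e2
  · intro s
    -- strong convergence of the adjoints
    have hconv : ∀ y, Tendsto (fun n => star (Vn n s) y) 𝒰 (𝓝 (star (V s) y)) := by
      intro y
      have hhconv : ∀ y, Tendsto (fun n => hn n s y) atTop (𝓝 (h s y)) := by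
        intro y
        have e1 : Tendsto (fun n => projF b (Yset n s) (h s y)) atTop (𝓝 (h s y)) :=
          projF_tendsto b _ (Yset_tendsto s) _
        have e2 : Tendsto (fun n => projF b (Yset n s) (h s (projF b (Yset n s) y - y))) atTop
            (𝓝 0) := by
          have e3 : Tendsto (fun n => h s (projF b (Yset n s) y - y)) atTop (𝓝 0) := by
            have e4 := (projF_tendsto b _ (Yset_tendsto s) y).sub_const y
            rw [sub_self] at e4
            have e5 := ((h s).continuous.tendsto 0).comp e4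
            rw [map_zero] at e5
            exact e5
          refine squeeze_zero_norm (fun n => projF_norm_le b _ _) ?_
          simpa using e3.norm
        have e3 := e2.add e1
        rw [zero_add] at e3
        refine e3.congr fun n => ?_
        change _ = projF b (Yset n s) (h s (projF b (Yset n s) y))
        rw [← map_add, ← map_add, sub_add_cancel]
      -- identity
      have hid : ∀ n, star (Vn n s) y - star (V s) y =
          star (N n s) (-(Complex.I • (hn n s (y + star (V s) y) - h s (y + star (V s) y)))) := by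
        intro n
        have e1 : star (Vn n s) = star (N n s) * (1 - Complex.I • hn n s) := by
          rw [hVn]
          simp only
          rw [star_mul, star_add, star_one, star_smul, (hn_sa n s).star_eq]
          simp [sub_eq_add_neg]
        have e2 : (1 + Complex.I • h s) * star (V s) = 1 - Complex.I • h s := by
          have := congrArg star (hcay s)
          rw [star_mul, star_sub, star_add, star_one, star_smul, (hsa s).star_eq] at this
          simpa [sub_eq_add_neg] using this
        have e3 : star (N n s) * (1 + Complex.I • hn n s) = 1 := by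
          have := congrArg star (hN2 n s)
          rw [star_mul, star_sub, star_one, star_smul, (hn_sa n s).star_eq] at this
          simpa [sub_eq_add_neg] using this
        have e4 : star (V s) = star (N n s) * ((1 + Complex.I • hn n s) * star (V s)) := by
          rw [← mul_assoc, e3, one_mul]
        have e5 : star (Vn n s) - star (V s) = star (N n s) *
            (-(Complex.I • ((hn n s - h s) * (1 + star (V s))))) := by
          rw [e1]
          nth_rewrite 1 [e4]
          rw [← mul_sub]
          congr 1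
          have e6 : (1 + Complex.I • hn n s) * star (V s) = (1 - Complex.I • h s) +
              Complex.I • ((hn n s - h s) * star (V s)) := by
            rw [← e2, sub_mul, smul_sub, add_mul, add_mul, smul_mul_assoc, smul_mul_assoc]
            abel
          rw [e6, mul_add, mul_one, smul_add, smul_sub]
          abel
        exact congrArg (fun T : H →L[ℂ] H => T y) e5
      have e1 : Tendsto (fun n => star (Vn n s) y - star (V s) y) atTop (𝓝 0) := by
        have e2 : Tendsto (fun n => (3 / 2) * ‖hn n s (y + star (V s) y) -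
            h s (y + star (V s) y)‖) atTop (𝓝 0) := by
          have e3 := ((hhconv (y + star (V s) y)).sub_const (h s (y + star (V s) y))).norm
          rw [sub_self, norm_zero] at e3
          simpa using e3.const_mul (3 / 2)
        refine squeeze_zero_norm (fun n => ?_) e2
        rw [hid]
        refine (ContinuousLinearMap.le_opNorm _ _).trans ?_
        rw [norm_star, norm_neg, norm_smul, Complex.norm_I, one_mul]
        exact mul_le_mul_of_nonneg_right (hN3 n s) (norm_nonneg _)
      have e2 := e1.add_const (star (V s) y)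
      simp only [sub_add_cancel, zero_add] at e2
      exact e2.mono_left hle
    ext x
    apply ext_inner_left ℂ
    intro y
    have l1 : Tendsto (fun n => ⟪y, U n (Lam b (of s) x)⟫_ℂ) 𝒰
        (𝓝 ⟪y, W (Lam b (of s) x)⟫_ℂ) := hW _ _
    have l2 : ∀ n, ⟪y, U n (Lam b (of s) x)⟫_ℂ =
        ⟪star (Vn n s) (star (Lam b (of s)) y), U n x⟫_ℂ := by
      intro n
      have e1 := congrArg (fun T : H →L[ℂ] H => T x) (hU2 n s)
      have e2 : U n (Lam b (of s) x) = Lam b (of s) (Vn n s (U n x)) := e1
      rw [e2]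
      change _ = ⟪adjoint (Vn n s) (adjoint (Lam b (of s)) y), U n x⟫_ℂ
      rw [ContinuousLinearMap.adjoint_inner_left, ContinuousLinearMap.adjoint_inner_left]
    have l3 : Tendsto (fun n => ⟪star (Vn n s) (star (Lam b (of s)) y), U n x⟫_ℂ) 𝒰
        (𝓝 ⟪star (V s) (star (Lam b (of s)) y), W x⟫_ℂ) := by
      have e1 := hW x (star (V s) (star (Lam b (of s)) y))
      have e2 : Tendsto (fun n => ⟪star (Vn n s) (star (Lam b (of s)) y) -
          star (V s) (star (Lam b (of s)) y), U n x⟫_ℂ) 𝒰 (𝓝 0) := by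
        have e3 : Tendsto (fun n => ‖star (Vn n s) (star (Lam b (of s)) y) -
          star (V s) (star (Lam b (of s)) y)‖ * ‖x‖) 𝒰 (𝓝 0) := by
          have e4 := ((hconv (star (Lam b (of s)) y)).sub_const
            (star (V s) (star (Lam b (of s)) y))).norm
          rw [sub_self, norm_zero] at e4
          simpa using e4.mul_const ‖x‖
        refine squeeze_zero_norm (fun n => ?_) e3
        exact (norm_inner_le_norm _ _).trans
          (mul_le_mul_of_nonneg_left (hU1 n x) (norm_nonneg _))
      have e3 := e2.add e1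
      rw [zero_add] at e3
      refine e3.congr fun n => ?_
      rw [inner_sub_left]; ring
    have l4 := tendsto_nhds_unique l1 (l3.congr fun n => (l2 n).symm)
    change ⟪y, W (Lam b (of s) x)⟫_ℂ = ⟪y, Lam b (of s) (V s (W x))⟫_ℂ
    rw [l4]
    change ⟪adjoint (V s) (adjoint (Lam b (of s)) y), W x⟫_ℂ = _
    rw [ContinuousLinearMap.adjoint_inner_left, ContinuousLinearMap.adjoint_inner_left]

end

end Pool.Agent.MP_5ec4a4_an
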