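import Mathlib

set_option autoImplicit false

open scoped InnerProductSpace ENNReal

namespace Pool.Agent.MP_5ec4a4_an

section Defs

variable {H : Type*} [NormedAddCommGroup H] [InnerProductSpace ℂ H] [CompleteSpace H]

/-- `W*(T)`: the von Neumann algebra generated by `T`, i.e. the double commutant
of `{T, T*}`. -/
noncomputable def WStar (T : H →L[ℂ] H) : VonNeumannAlgebra H where
  toStarSubalgebra := StarSubalgebra.centralizer ℂ
    ((StarSubalgebra.centralizer ℂ ({T} : Set (H →L[ℂ] H)) : StarSubalgebra ℂ (H →L[ℂ] H)) :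
      Set (H →L[ℂ] H))
  centralizer_centralizer' := by
    simp

/-- A type `II₁` factor: the center is trivial (factor), every isometry in `M` is unitary
(finite), and there is no minimal projection (not of type I). -/
def IsTypeIIOneFactor (M : VonNeumannAlgebra H) : Prop :=
  (∀ z ∈ M, z ∈ M.commutant → ∃ c : ℂ, z = c • (1 : H →L[ℂ] H)) ∧
  (∀ v ∈ M, star v * v = 1 → v * star v = 1) ∧
  (∀ p ∈ M, IsStarProjection p → p ≠ 0 →
    ∃ q ∈ M, IsStarProjection q ∧ p * q = q ∧ q ≠ 0 ∧ q ≠ p)

/-- An operator `S` on a nonzero Hilbert space is irreducible if the only orthogonal projections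
commuting with `S` are `0` and `1`. -/
def IsIrreducible (S : H →L[ℂ] H) : Prop :=
  Nontrivial H ∧ ∀ P : H →L[ℂ] H, IsStarProjection P → P * S = S * P → P = 0 ∨ P = 1

/-- The restriction of an operator to an invariant subspace. -/
noncomputable def restr (S : H →L[ℂ] H) (V : Submodule ℂ H) (h : ∀ x ∈ V, S x ∈ V) :
    V →L[ℂ] V :=
  (S.comp V.subtypeL).codRestrict V (fun x => h x x.2)

/-- `S` is a countable direct sum of irreducibles: there is a countable family of mutually
orthogonal closed subspaces with dense span, each reducing for `S` (invariant under `S` and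
`S*`), such that the restriction of `S` to each of them is irreducible (in particular each of
them is nonzero). -/
def IsDirectSumOfIrreducibles (S : H →L[ℂ] H) : Prop :=
  ∃ (N : Type) (_ : Countable N) (V : N → Submodule ℂ H) (_ : ∀ n, CompleteSpace (V n)),
    (∀ m n, m ≠ n → ∀ x ∈ V m, ∀ y ∈ V n, ⟪x, y⟫_ℂ = 0) ∧
    (⨆ n, V n).topologicalClosure = ⊤ ∧
    (∀ n, ∀ x ∈ V n, star S x ∈ V n) ∧
    ∃ h : ∀ n, ∀ x ∈ V n, S x ∈ V n, ∀ n, IsIrreducible (restr S (V n) (h n))

/-- The trace-class norm `‖K‖₁ = tr |K|`, computed in the Hilbert basis `b`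
(its value does not depend on `b`). -/
noncomputable def traceNorm {ι : Type*} (b : HilbertBasis ι ℂ H) (K : H →L[ℂ] H) : ℝ≥0∞ :=
  ∑' i, ENNReal.ofReal (RCLike.re ⟪b i, CFC.abs K (b i)⟫_ℂ)

end Defs

end Pool.Agent.MP_5ec4a4_an
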