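import Pool.Agent.MP_5ec4a4_an.Ops

set_option autoImplicit false
set_option linter.unusedSectionVars false

open scoped InnerProductSpace ENNReal InnerProduct
open ContinuousLinearMap (adjoint)

namespace Pool.Agent.MP_5ec4a4_an

section

variable {K₁ K₂ : Type*}
  [NormedAddCommGroup K₁] [InnerProductSpace ℂ K₁] [CompleteSpace K₁]
  [NormedAddCommGroup K₂] [InnerProductSpace ℂ K₂] [CompleteSpace K₂]

/-- `R* R` as an endomorphism. -/
noncomputable def absSq (R : K₁ →L[ℂ] K₂) : K₁ →L[ℂ] K₁ := (adjoint R).comp R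

theorem absSq_apply (R : K₁ →L[ℂ] K₂) (x : K₁) : absSq R x = adjoint R (R x) := rfl

theorem absSq_nonneg (R : K₁ →L[ℂ] K₂) : 0 ≤ absSq R := by
  rw [ContinuousLinearMap.nonneg_iff_isPositive]
  exact ContinuousLinearMap.isPositive_adjoint_comp_self R

theorem absSq_sa (R : K₁ →L[ℂ] K₂) : IsSelfAdjoint (absSq R) :=
  IsSelfAdjoint.of_nonneg (absSq_nonneg R)

/-- `G = (R* R + ε)⁻¹`. -/
structure IsRes (R : K₁ →L[ℂ] K₂) (ε : ℝ) (G : K₁ →L[ℂ] K₁) : Prop where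
  pos : 0 < ε
  sa : IsSelfAdjoint G
  eq : ∀ x, adjoint R (R (G x)) + (ε : ℂ) • G x = x
  eq' : ∀ x, G (adjoint R (R x)) + (ε : ℂ) • G x = x

theorem exists_res (R : K₁ →L[ℂ] K₂) (ε : ℝ) (hε : 0 < ε) :
    ∃ S : K₁ →L[ℂ] K₁, IsSelfAdjoint S ∧ IsRes R ε (S * S) ∧
      ∀ X, Commute X (absSq R) → Commute X S := by
  have hsa := absSq_sa R
  have hsp : ∀ x ∈ spectrum ℝ (absSq R), 0 ≤ x :=
    fun x hx => spectrum_nonneg_of_nonneg (absSq_nonneg R) hx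
  set f : ℝ → ℝ := fun x => (√(x + ε))⁻¹ with hf
  have hfc : ContinuousOn f (spectrum ℝ (absSq R)) := by
    apply ContinuousOn.inv₀
    · fun_prop
    · intro x hx
      have := hsp x hx
      positivity
  set S : K₁ →L[ℂ] K₁ := cfc f (absSq R) with hS
  have hid : ContinuousOn (fun x : ℝ => x + ε) (spectrum ℝ (absSq R)) := by fun_prop
  have hSS : S * S = cfc (fun x => f x * f x) (absSq R) := (cfc_mul f f (absSq R) hfc hfc).symm
  have hshift : cfc (fun x : ℝ => x + ε) (absSq R) = absSq R + algebraMap ℝ _ ε := by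
    rw [cfc_add_const ε (fun x => x) (absSq R), cfc_id' ℝ (absSq R)]
  have hone : ∀ x ∈ spectrum ℝ (absSq R), (x + ε) * (f x * f x) = 1 := by
    intro x hx
    have h0 := hsp x hx
    have h1 : 0 < x + ε := by linarith
    simp only [hf]
    rw [← mul_inv, Real.mul_self_sqrt h1.le, mul_inv_cancel₀ h1.ne']
  have hff : ContinuousOn (fun x => f x * f x) (spectrum ℝ (absSq R)) := hfc.mul hfc
  have e1 : (absSq R + algebraMap ℝ _ ε) * (S * S) = 1 := by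
    rw [hSS, ← hshift, ← cfc_mul _ _ (absSq R) hid hff, cfc_congr hone,
      cfc_const_one ℝ (absSq R)]
  have e2 : (S * S) * (absSq R + algebraMap ℝ _ ε) = 1 := by
    rw [hSS, ← hshift, ← cfc_mul _ _ (absSq R) hff hid]
    have hone' : ∀ x ∈ spectrum ℝ (absSq R), (f x * f x) * (x + ε) = 1 :=
      fun x hx => by rw [mul_comm]; exact hone x hx
    rw [cfc_congr hone', cfc_const_one ℝ (absSq R)]
  have hSsa : IsSelfAdjoint S := cfc_predicate f (absSq R)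
  refine ⟨S, hSsa, ⟨hε, ?_, ?_, ?_⟩, ?_⟩
  · have := hSsa
    rw [IsSelfAdjoint, star_mul, this.star_eq]
  · intro x
    have := congrArg (fun T : K₁ →L[ℂ] K₁ => T x) e1
    simpa [absSq, Algebra.algebraMap_eq_smul_one] using this
  · intro x
    have := congrArg (fun T : K₁ →L[ℂ] K₁ => T x) e2
    simpa [absSq, Algebra.algebraMap_eq_smul_one] using this
  · intro X hX
    exact (Commute.cfc_real hX.symm f).symm

variable {R : K₁ →L[ℂ] K₂} {ε : ℝ} {G : K₁ →L[ℂ] K₁}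

/-- `‖R G x‖ ≤ ‖x‖ / (2 √ε)`, in the form `4 ε ‖R G x‖² ≤ ‖x‖²`. -/
theorem IsRes.norm_RG (h : IsRes R ε G) (x : K₁) : 4 * ε * ‖R (G x)‖ ^ 2 ≤ ‖x‖ ^ 2 := by
  have hx := h.eq x
  set w := G x with hw
  set A := adjoint R (R w) with hA
  have h1 : RCLike.re ⟪A, w⟫_ℂ = ‖R w‖ ^ 2 := by
    rw [hA, ContinuousLinearMap.adjoint_inner_left, inner_self_eq_norm_sq]
  have h2 : ‖x‖ ^ 2 = ‖A‖ ^ 2 + 2 * ε * ‖R w‖ ^ 2 + ε ^ 2 * ‖w‖ ^ 2 := by
    rw [← hx, norm_add_sq (𝕜 := ℂ), inner_smul_right, norm_smul]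
    have : RCLike.re ((ε : ℂ) * ⟪A, w⟫_ℂ) = ε * ‖R w‖ ^ 2 := by
      rw [← h1]; simp
    rw [this]
    simp only [Complex.norm_real, Real.norm_eq_abs, mul_pow, sq_abs]
    ring
  have h3 : 0 ≤ ‖A‖ ^ 2 - 2 * ε * ‖R w‖ ^ 2 + ε ^ 2 * ‖w‖ ^ 2 := by
    have h4 : ‖A - (ε : ℂ) • w‖ ^ 2 = ‖A‖ ^ 2 - 2 * ε * ‖R w‖ ^ 2 + ε ^ 2 * ‖w‖ ^ 2 := by
      rw [norm_sub_sq (𝕜 := ℂ), inner_smul_right, norm_smul]
      have : RCLike.re ((ε : ℂ) * ⟪A, w⟫_ℂ) = ε * ‖R w‖ ^ 2 := by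
        rw [← h1]; simp
      rw [this]
      simp only [Complex.norm_real, Real.norm_eq_abs, mul_pow, sq_abs]
      ring
    rw [← h4]; positivity
  linarith

theorem IsRes.norm_RG' (h : IsRes R ε G) {β : ℝ} (hβ : 0 < β) (hε : ε = β ^ 2) (x : K₁) :
    2 * β * ‖R (G x)‖ ≤ ‖x‖ := by
  have h1 := h.norm_RG x
  rw [hε] at h1
  have h2 : (2 * β * ‖R (G x)‖) ^ 2 ≤ ‖x‖ ^ 2 := by nlinarith
  exact (pow_le_pow_iff_left₀ (by positivity) (norm_nonneg _) two_ne_zero).1 h2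

/-- `y = R G R*`. -/
noncomputable def cut (R : K₁ →L[ℂ] K₂) (G : K₁ →L[ℂ] K₁) : K₂ →L[ℂ] K₂ :=
  (R.comp G).comp (adjoint R)

theorem cut_apply (v : K₂) : cut R G v = R (G (adjoint R v)) := rfl

theorem IsRes.cut_sa (h : IsRes R ε G) : adjoint (cut R G) = cut R G := by
  have hG : adjoint G = G := h.sa
  rw [cut, ContinuousLinearMap.adjoint_comp, ContinuousLinearMap.adjoint_comp,
    ContinuousLinearMap.adjoint_adjoint, hG]
  rfl

/-- `‖y v‖² + ε ‖G R* v‖² = ⟪v, y v⟫`. -/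
theorem IsRes.inner_cut (h : IsRes R ε G) (v : K₂) :
    ⟪v, cut R G v⟫_ℂ = ((‖cut R G v‖ ^ 2 + ε * ‖G (adjoint R v)‖ ^ 2 : ℝ) : ℂ) := by
  have hx := h.eq (adjoint R v)
  rw [cut_apply]
  set w := G (adjoint R v) with hw
  have h1 : ⟪v, R w⟫_ℂ = ⟪adjoint R v, w⟫_ℂ := by
    rw [ContinuousLinearMap.adjoint_inner_left]
  rw [h1, ← hx, inner_add_left, ContinuousLinearMap.adjoint_inner_left, inner_smul_left,
    inner_self_eq_norm_sq_to_K, inner_self_eq_norm_sq_to_K]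
  push_cast
  simp

theorem IsRes.re_inner_cut (h : IsRes R ε G) (v : K₂) :
    RCLike.re ⟪v, cut R G v⟫_ℂ = ‖cut R G v‖ ^ 2 + ε * ‖G (adjoint R v)‖ ^ 2 := by
  rw [h.inner_cut v]
  exact Complex.ofReal_re _

theorem IsRes.norm_cut_sq_le (h : IsRes R ε G) (v : K₂) :
    ‖cut R G v‖ ^ 2 ≤ RCLike.re ⟪v, cut R G v⟫_ℂ := by
  rw [h.re_inner_cut v]
  have := h.pos
  have : 0 ≤ ε * ‖G (adjoint R v)‖ ^ 2 := by positivity
  linarith

theorem IsRes.norm_cut_le (h : IsRes R ε G) (v : K₂) : ‖cut R G v‖ ≤ ‖v‖ := by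
  have h1 := h.norm_cut_sq_le v
  have h2 : RCLike.re ⟪v, cut R G v⟫_ℂ ≤ ‖v‖ * ‖cut R G v‖ :=
    (RCLike.re_le_norm _).trans (norm_inner_le_norm _ _)
  by_contra h3
  push Not at h3
  nlinarith [norm_nonneg v]

theorem IsRes.norm_sub_cut_le (h : IsRes R ε G) (v : K₂) : ‖v - cut R G v‖ ≤ ‖v‖ := by
  have h1 := h.norm_cut_sq_le v
  have h2 : ‖v - cut R G v‖ ^ 2 ≤ ‖v‖ ^ 2 := by
    rw [norm_sub_sq (𝕜 := ℂ)]
    nlinarith [sq_nonneg ‖cut R G v‖]
  exact (pow_le_pow_iff_left₀ (norm_nonneg _) (norm_nonneg _) two_ne_zero).1 h2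

/-- `(1 - y) R x = ε R G x`. -/
theorem IsRes.sub_cut (h : IsRes R ε G) (x : K₁) :
    R x - cut R G (R x) = (ε : ℂ) • R (G x) := by
  have h1 := h.eq' x
  rw [cut_apply]
  have h2 : G (adjoint R (R x)) = x - (ε : ℂ) • G x := by
    rw [eq_sub_iff_add_eq]; exact h1
  rw [h2, map_sub, map_smul]
  abel

theorem IsRes.norm_sub_cut_apply (h : IsRes R ε G) {β : ℝ} (hβ : 0 < β) (hε : ε = β ^ 2)
    (x : K₁) : ‖R x - cut R G (R x)‖ ≤ β / 2 * ‖x‖ := by
  rw [h.sub_cut, norm_smul, Complex.norm_real, Real.norm_eq_abs, abs_of_pos h.pos]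
  have h1 := h.norm_RG' hβ hε x
  have h2 : ε * ‖R (G x)‖ = β / 2 * (2 * β * ‖R (G x)‖) := by rw [hε]; ring
  rw [h2]
  exact mul_le_mul_of_nonneg_left h1 (by positivity)

/-- The closure of the range, as a closed subspace. -/
noncomputable def cran (R : K₁ →L[ℂ] K₂) : Submodule ℂ K₂ :=
  (LinearMap.range (R : K₁ →ₗ[ℂ] K₂)).topologicalClosure

instance (R : K₁ →L[ℂ] K₂) : CompleteSpace (cran R) :=
  (Submodule.isClosed_topologicalClosure _).completeSpace_coe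

/-- The projection onto the closure of the range. -/
noncomputable def ranProj (R : K₁ →L[ℂ] K₂) : K₂ →L[ℂ] K₂ := (cran R).starProjection

/-- Strong convergence of `R (R*R + ε)⁻¹ R*` to the range projection. -/
theorem cut_tendsto (R : K₁ →L[ℂ] K₂) (v : K₂) {δ : ℝ} (hδ : 0 < δ) :
    ∃ ε₀ : ℝ, 0 < ε₀ ∧ ∀ ε : ℝ, ε ≤ ε₀ → ∀ G : K₁ →L[ℂ] K₁, IsRes R ε G →
      ‖cut R G v - ranProj R v‖ ≤ δ := by
  have hmem : ranProj R v ∈ cran R := Submodule.starProjection_apply_mem _ _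
  have hcl : ranProj R v ∈ closure (LinearMap.range (R : K₁ →ₗ[ℂ] K₂) : Set K₂) := hmem
  obtain ⟨_, ⟨x, rfl⟩, hx⟩ := Metric.mem_closure_iff.1 hcl (δ / 2) (by positivity)
  rw [dist_eq_norm] at hx
  have hx' : ‖ranProj R v - R x‖ < δ / 2 := hx
  refine ⟨(δ / (‖x‖ + 1)) ^ 2, by positivity, fun ε hε G h => ?_⟩
  have hperp : v - ranProj R v ∈ (cran R)ᗮ := Submodule.sub_starProjection_mem_orthogonal _
  have hker : adjoint R (v - ranProj R v) = 0 := by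
    apply ext_inner_left ℂ
    intro w
    rw [ContinuousLinearMap.adjoint_inner_right, inner_zero_right]
    apply hperp
    exact Submodule.le_topologicalClosure _ ⟨w, rfl⟩
  have h1 : cut R G v = cut R G (ranProj R v) := by
    have : v = (v - ranProj R v) + ranProj R v := by abel
    conv_lhs => rw [this, map_add, cut_apply (v := v - ranProj R v), hker]
    simp
  have h2 : cut R G v - ranProj R v =
      - ((ranProj R v - R x) - cut R G (ranProj R v - R x)) - (R x - cut R G (R x)) := by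
    rw [h1, map_sub]; abel
  rw [h2]
  refine (norm_sub_le _ _).trans ?_
  rw [norm_neg]
  have h3 := h.norm_sub_cut_le (ranProj R v - R x)
  have hβ : 0 < √ε := Real.sqrt_pos.2 h.pos
  have h4 := h.norm_sub_cut_apply hβ (Real.sq_sqrt h.pos.le).symm x
  have h5 : √ε ≤ δ / (‖x‖ + 1) := by
    rw [← Real.sqrt_sq (show 0 ≤ δ / (‖x‖ + 1) by positivity)]
    exact Real.sqrt_le_sqrt hε
  have h6 : √ε / 2 * ‖x‖ ≤ δ / 2 := by
    have h7 : √ε * ‖x‖ ≤ δ / (‖x‖ + 1) * (‖x‖ + 1) :=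
      mul_le_mul h5 (by linarith) (norm_nonneg _) (by positivity)
    have h8 : δ / (‖x‖ + 1) * (‖x‖ + 1) = δ := by
      rw [div_mul_cancel₀]; positivity
    linarith
  linarith

end

end Pool.Agent.MP_5ec4a4_an
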