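import Pool.Agent.MP_5ec4a4_an.Words

set_option autoImplicit false
set_option linter.unusedSectionVars false

namespace Pool.Agent.MP_5ec4a4_an

open FreeGroup

section

variable {S : Type} [Fintype S] [DecidableEq S]

theorem left_induction {P : FreeGroup S → Prop} (h1 : P 1)
    (h : ∀ t y, P (of t * y) ↔ P y) (z : FreeGroup S) : P z := by
  have key : ∀ z : FreeGroup S, ∀ y, P (z * y) ↔ P y := by
    intro z
    induction z using FreeGroup.induction_on with
    | C1 => intro y; rw [one_mul]
    | of t => exact h t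
    | inv_of t _ =>
      intro y
      rw [← h t, ← mul_assoc, mul_inv_cancel, one_mul]
    | mul x y hx hy =>
      intro w
      rw [mul_assoc, hx, hy]
  have := key z 1
  rw [mul_one] at this
  exact this.2 h1

/-- Summation along the geodesic from `1` to `z` in the left Cayley tree. -/
theorem path_formula (α : FreeGroup S → ℝ) (Y : S → Finset (FreeGroup S))
    (h : ∀ s x, x ∉ Y s → α (of s * x) = α x) (z : FreeGroup S) :
    α z - α 1 = ∑ s, ∑ x ∈ Y s,
      (α (of s * x) - α x) * (headInd s x - headInd s (x * z⁻¹)) := by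
  set R : FreeGroup S → ℝ := fun z => ∑ s, ∑ x ∈ Y s,
      (α (of s * x) - α x) * (headInd s x - headInd s (x * z⁻¹)) with hR
  have step : ∀ (t : S) (y : FreeGroup S), R (of t * y) - R y = α (of t * y) - α y := by
    intro t y
    have h1 : R (of t * y) - R y = ∑ s, ∑ x ∈ Y s,
        (α (of s * x) - α x) * (if t = s ∧ x * y⁻¹ = 1 then 1 else 0) := by
      rw [hR]
      simp only
      rw [← Finset.sum_sub_distrib]
      refine Finset.sum_congr rfl fun s _ => ?_
      rw [← Finset.sum_sub_distrib]
      refine Finset.sum_congr rfl fun x _ => ?_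
      rw [← headInd_sub s t (x * y⁻¹)]
      rw [mul_inv_rev, mul_assoc]
      ring
    rw [h1]
    have h2 : ∀ s, s ≠ t → ∑ x ∈ Y s,
        (α (of s * x) - α x) * (if t = s ∧ x * y⁻¹ = 1 then (1 : ℝ) else 0) = 0 := by
      intro s hs
      refine Finset.sum_eq_zero fun x _ => ?_
      rw [if_neg (fun h => hs h.1.symm), mul_zero]
    rw [Fintype.sum_eq_single t h2]
    have h3 : ∑ x ∈ Y t, (α (of t * x) - α x) * (if t = t ∧ x * y⁻¹ = 1 then (1 : ℝ) else 0)
        = ∑ x ∈ Y t, if x = y then (α (of t * y) - α y) else 0 := by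
      refine Finset.sum_congr rfl fun x _ => ?_
      by_cases hxy : x = y
      · subst hxy; simp
      · rw [if_neg (fun h => hxy (mul_inv_eq_one.1 h.2)), if_neg hxy, mul_zero]
    rw [h3, Finset.sum_ite_eq']
    by_cases hy : y ∈ Y t
    · rw [if_pos hy]
    · rw [if_neg hy, h t y hy, sub_self]
  have key : ∀ z, α z - R z = α 1 - R 1 := by
    intro z
    refine left_induction (P := fun z => α z - R z = α 1 - R 1) rfl ?_ z
    intro t y
    have := step t y
    constructor <;> intro h <;> linarith
  have hR1 : R 1 = 0 := by simp [hR]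
  have := key z
  rw [hR1] at this
  linarith

theorem headInd_nonneg (s : S) (w : FreeGroup S) : 0 ≤ headInd s w := by
  unfold headInd; split_ifs <;> norm_num

theorem headInd_le_one (s : S) (w : FreeGroup S) : headInd s w ≤ 1 := by
  unfold headInd; split_ifs <;> norm_num

/-- The telescoping identity: total mass per row minus column mass at `1`. -/
theorem star_identity (a : FreeGroup S → FreeGroup S → ℝ) (ha : ∀ g x, 0 ≤ a g x) (t : ℝ)
    (q : FreeGroup S → ℝ) (h1 : ∀ g, HasSum (fun x => a g x) t)
    (h2 : ∀ x, HasSum (fun g => a g x) (q x)) (Y : S → Finset (FreeGroup S))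
    (h3 : ∀ s g x, x ∉ Y s → a (of s * g) (of s * x) = a g x) :
    t - q 1 = ∑ s, ∑ x ∈ Y s, headInd s x * (q (of s * x) - q x) := by
  set bb : S → FreeGroup S → FreeGroup S → ℝ :=
    fun s g x => a (of s * g) (of s * x) - a g x with hbb
  have hz : ∀ s g, ∑ x ∈ Y s, bb s g x = 0 := by
    intro s g
    have e1 : HasSum (fun x => bb s g x) (t - t) :=
      ((Equiv.mulLeft (of s)).hasSum_iff.2 (h1 (of s * g))).sub (h1 g)
    have e2 : HasSum (fun x => bb s g x) (∑ x ∈ Y s, bb s g x) :=
      hasSum_sum_of_ne_finset_zero fun x hx => by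
        simp only [hbb]; rw [h3 s g x hx, sub_self]
    rw [← e1.unique e2, sub_self]
  have hsum : ∀ s x, HasSum (fun g => bb s g x) (q (of s * x) - q x) := by
    intro s x
    exact ((Equiv.mulLeft (of s)).hasSum_iff.2 (h2 (of s * x))).sub (h2 x)
  have hsc : ∀ s x, Summable (fun g => bb s g x * headInd s g) := by
    intro s x
    have e1 : Summable (fun g => a (of s * g) (of s * x) + a g x) :=
      ((Equiv.mulLeft (of s)).summable_iff.2 (h2 (of s * x)).summable).add (h2 x).summable
    refine Summable.of_norm_bounded e1 fun g => ?_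
    rw [norm_mul, Real.norm_eq_abs, Real.norm_eq_abs, abs_of_nonneg (headInd_nonneg s g)]
    have e2 : |bb s g x| ≤ a (of s * g) (of s * x) + a g x := by
      rw [abs_le]
      simp only [hbb]
      constructor <;> linarith [ha (of s * g) (of s * x), ha g x]
    calc |bb s g x| * headInd s g ≤ |bb s g x| * 1 :=
          mul_le_mul_of_nonneg_left (headInd_le_one s g) (abs_nonneg _)
      _ ≤ _ := by rw [mul_one]; exact e2
  have hc0 : ∀ s, ∑ x ∈ Y s, ∑' g, bb s g x * headInd s g = 0 := by
    intro s
    have e1 : HasSum (fun g => ∑ x ∈ Y s, bb s g x * headInd s g)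
        (∑ x ∈ Y s, ∑' g, bb s g x * headInd s g) :=
      hasSum_sum fun x _ => (hsc s x).hasSum
    have e2 : (fun g => ∑ x ∈ Y s, bb s g x * headInd s g) = fun _ => 0 := by
      funext g
      rw [← Finset.sum_mul, hz, zero_mul]
    rw [e2] at e1
    exact e1.unique hasSum_zero
  have hL : HasSum (fun z => a 1 z - a z⁻¹ 1) (t - q 1) :=
    (h1 1).sub (f := fun z => a 1 z) (g := fun z => a z⁻¹ 1) (by
      have := (Equiv.inv (FreeGroup S)).hasSum_iff.2 (h2 1)
      exact this)
  have hR : HasSum (fun z => a 1 z - a z⁻¹ 1)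
      (∑ s, ∑ x ∈ Y s, ((q (of s * x) - q x) * headInd s x - ∑' g, bb s g x * headInd s g)) := by
    have e1 : (fun z => a 1 z - a z⁻¹ 1) = fun z => ∑ s, ∑ x ∈ Y s,
        (bb s (x * z⁻¹) x * headInd s x - bb s (x * z⁻¹) x * headInd s (x * z⁻¹)) := by
      funext z
      have e2 := path_formula (fun x => a (x * z⁻¹) x) Y (fun s x hx => by
        simp only [mul_assoc]; exact h3 s _ x hx) z
      simp only [mul_inv_cancel, one_mul] at e2
      rw [e2]
      refine Finset.sum_congr rfl fun s _ => Finset.sum_congr rfl fun x _ => ?_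
      simp only [hbb, mul_assoc]
      ring
    rw [e1]
    refine hasSum_sum fun s _ => hasSum_sum fun x _ => ?_
    have e3 : HasSum (fun g => bb s g x * headInd s x - bb s g x * headInd s g)
        ((q (of s * x) - q x) * headInd s x - ∑' g, bb s g x * headInd s g) :=
      ((hsum s x).mul_right _).sub (hsc s x).hasSum
    have e4 := ((Equiv.inv (FreeGroup S)).trans (Equiv.mulLeft x)).hasSum_iff.2 e3
    have e5 : ((fun g => bb s g x * headInd s x - bb s g x * headInd s g) ∘
        ((Equiv.inv (FreeGroup S)).trans (Equiv.mulLeft x))) =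
        fun z => bb s (x * z⁻¹) x * headInd s x - bb s (x * z⁻¹) x * headInd s (x * z⁻¹) := by
      funext z
      simp only [Function.comp, Equiv.trans_apply, Equiv.inv_apply, Equiv.coe_mulLeft]
    rw [e5] at e4
    exact e4
  rw [hL.unique hR]
  refine Finset.sum_congr rfl fun s _ => ?_
  rw [Finset.sum_sub_distrib, hc0 s, sub_zero]
  exact Finset.sum_congr rfl fun x _ => mul_comm _ _

end

end Pool.Agent.MP_5ec4a4_an
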