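import Pool.Agent.MP_5ec4a4_an.Trace
import Pool.Agent.MP_5ec4a4_an.Resolvent
import Pool.Agent.MP_5ec4a4_an.Star

set_option autoImplicit false
set_option linter.unusedSectionVars false

open scoped InnerProductSpace ENNReal InnerProduct
open ContinuousLinearMap (adjoint)
open FreeGroup

namespace Pool.Agent.MP_5ec4a4_an

section general

variable {K₁ K₂ : Type*}
  [NormedAddCommGroup K₁] [InnerProductSpace ℂ K₁] [CompleteSpace K₁]
  [NormedAddCommGroup K₂] [InnerProductSpace ℂ K₂] [CompleteSpace K₂]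

theorem ranProj_commute (R : K₁ →L[ℂ] K₂) (U : K₂ →L[ℂ] K₂)
    (h1 : ∀ x, U (R x) ∈ cran R) (h2 : ∀ x, adjoint U (R x) ∈ cran R) (v : K₂) :
    ranProj R (U v) = U (ranProj R v) := by
  have hcl : ∀ (T : K₂ →L[ℂ] K₂), (∀ x, T (R x) ∈ cran R) → ∀ w ∈ cran R, T w ∈ cran R := by
    intro T hT w hw
    have hw' : w ∈ closure (LinearMap.range (R : K₁ →ₗ[ℂ] K₂) : Set K₂) := hw
    have hclosed : IsClosed (T ⁻¹' (cran R : Set K₂)) :=
      (Submodule.isClosed_topologicalClosure _).preimage T.continuous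
    have hsub : (LinearMap.range (R : K₁ →ₗ[ℂ] K₂) : Set K₂) ⊆ T ⁻¹' (cran R : Set K₂) := by
      rintro _ ⟨x, rfl⟩
      exact hT x
    exact closure_minimal hsub hclosed hw'
  refine Submodule.eq_starProjection_of_mem_of_inner_eq_zero (K := cran R) ?_ ?_
  · exact hcl U h1 _ (Submodule.starProjection_apply_mem _ _)
  · intro w hw
    rw [← map_sub, ← ContinuousLinearMap.adjoint_inner_right]
    exact Submodule.starProjection_inner_eq_zero _ _ (hcl _ h2 w hw)

end general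

section

variable {G : Type*} [Group G] {ι κ : Type*} {H₁ H₂ : Type*}
  [NormedAddCommGroup H₁] [InnerProductSpace ℂ H₁] [CompleteSpace H₁]
  [NormedAddCommGroup H₂] [InnerProductSpace ℂ H₂] [CompleteSpace H₂]
  {b₁ : HilbertBasis (G × ι) ℂ H₁} {b₂ : HilbertBasis (G × κ) ℂ H₂}

theorem Intw.ranProj_apply {R : H₁ →L[ℂ] H₂} (h : Intw b₁ b₂ R) (g : G) (v : H₂) :
    ranProj R (LamP b₂ g v) = LamP b₂ g (ranProj R v) := by
  refine ranProj_commute R _ ?_ ?_ v
  · intro x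
    rw [← h.apply]
    exact Submodule.le_topologicalClosure _ ⟨_, rfl⟩
  · intro x
    rw [adjoint_LamP, ← h.apply]
    exact Submodule.le_topologicalClosure _ ⟨_, rfl⟩

theorem Intw.absSq_commute {R : H₁ →L[ℂ] H₂} (h : Intw b₁ b₂ R) (g : G) :
    Commute (LamP b₁ g) (absSq R) := by
  ext x
  change LamP b₁ g (adjoint R (R x)) = adjoint R (R (LamP b₁ g x))
  rw [h.apply, h.adj.apply]

theorem Intw.comp {H₃ : Type*} [NormedAddCommGroup H₃] [InnerProductSpace ℂ H₃]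
    [CompleteSpace H₃] {μ : Type*} {b₃ : HilbertBasis (G × μ) ℂ H₃}
    {X : H₂ →L[ℂ] H₃} {Y : H₁ →L[ℂ] H₂} (hX : Intw b₂ b₃ X) (hY : Intw b₁ b₂ Y) :
    Intw b₁ b₃ (X.comp Y) := by
  intro g
  ext x
  change X (Y (LamP b₁ g x)) = LamP b₃ g (X (Y x))
  rw [hY.apply, hX.apply]

theorem intw_of_commute {X : H₁ →L[ℂ] H₁} (h : ∀ g, Commute (LamP b₁ g) X) : Intw b₁ b₁ X :=
  fun g => (h g).symm

/-- The dimension of the closure of the range of an intertwiner from `ℓ²(G × ι)` is at most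
`|ι|`. -/
theorem sum_ranProj_le [Fintype ι] [Fintype κ] {R : H₁ →L[ℂ] H₂} (h : Intw b₁ b₂ R) :
    ∑ k, ‖ranProj R (b₂ (1, k))‖ ^ 2 ≤ Fintype.card ι := by
  apply le_of_forall_pos_le_add
  intro δ hδ
  have hcard : (0 : ℝ) < Fintype.card κ + 1 := by positivity
  choose ε₀ hε₀ hε using fun k => cut_tendsto R (b₂ (1, k)) (δ := δ / (Fintype.card κ + 1))
    (by positivity)
  obtain ⟨ε, hε1, hε2⟩ : ∃ ε : ℝ, 0 < ε ∧ ∀ k, ε ≤ ε₀ k := by
    rcases isEmpty_or_nonempty κ with hκ | hκ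
    · exact ⟨1, one_pos, fun k => (hκ.false k).elim⟩
    · refine ⟨Finset.univ.inf' Finset.univ_nonempty ε₀, ?_, fun k =>
        Finset.inf'_le _ (Finset.mem_univ k)⟩
      rw [Finset.lt_inf'_iff]
      exact fun k _ => hε₀ k
  obtain ⟨S, hSsa, hG, hSc⟩ := exists_res R ε hε1
  have hSi : Intw b₁ b₁ S := intw_of_commute fun g => hSc _ (h.absSq_commute g)
  have hGi : Intw b₁ b₁ (S * S) := hSi.comp hSi
  have h1 : Tr b₂ (R.comp ((S * S).comp (adjoint R))) = Tr b₁ (((S * S).comp (adjoint R)).comp R) :=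
    trace_comm h (hGi.comp h.adj)
  have h2 : ∀ k, ‖ranProj R (b₂ (1, k))‖ ^ 2 ≤
      RCLike.re ⟪b₂ (1, k), (R.comp ((S * S).comp (adjoint R))) (b₂ (1, k))⟫_ℂ +
        δ / (Fintype.card κ + 1) := by
    intro k
    have e1 := hε k ε (hε2 k) (S * S) hG
    have e2 : ‖ranProj R (b₂ (1, k))‖ ^ 2 = RCLike.re ⟪b₂ (1, k), ranProj R (b₂ (1, k))⟫_ℂ := by
      have := Submodule.re_inner_starProjection_eq_normSq (K := cran R) (b₂ (1, k))
      rw [← inner_conj_symm, RCLike.conj_re] at this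
      exact this.symm
    rw [e2]
    have e3 : ranProj R (b₂ (1, k)) = cut R (S * S) (b₂ (1, k)) -
      (cut R (S * S) (b₂ (1, k)) - ranProj R (b₂ (1, k))) := by abel
    rw [e3, inner_sub_right, map_sub]
    have e4 : RCLike.re ⟪b₂ (1, k), cut R (S * S) (b₂ (1, k)) - ranProj R (b₂ (1, k))⟫_ℂ ≥
        - (δ / (Fintype.card κ + 1)) := by
      have e5 := (RCLike.abs_re_le_norm _).trans (norm_inner_le_norm (𝕜 := ℂ) (b₂ (1, k))
        (cut R (S * S) (b₂ (1, k)) - ranProj R (b₂ (1, k))))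
      rw [b₂.orthonormal.1, one_mul] at e5
      exact (abs_le.1 (e5.trans e1)).1
    have e6 : (cut R (S * S) (b₂ (1, k))) =
        (R.comp ((S * S).comp (adjoint R))) (b₂ (1, k)) := rfl
    rw [e6] at e4 ⊢
    linarith
  have h3 : RCLike.re (Tr b₁ (((S * S).comp (adjoint R)).comp R)) ≤ Fintype.card ι := by
    unfold Tr
    rw [map_sum]
    have e1 : ∀ i ∈ (Finset.univ : Finset ι),
        RCLike.re ⟪b₁ (1, i), (((S * S).comp (adjoint R)).comp R) (b₁ (1, i))⟫_ℂ ≤ (1 : ℝ) := by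
      intro i _
      have e2 : (((S * S).comp (adjoint R)).comp R) (b₁ (1, i)) =
          b₁ (1, i) - (ε : ℂ) • (S * S) (b₁ (1, i)) := by
        rw [eq_sub_iff_add_eq]; exact hG.eq' _
      rw [e2, inner_sub_right, inner_smul_right, map_sub, inner_self_eq_norm_sq,
        b₁.orthonormal.1]
      have e3 : RCLike.re ((ε : ℂ) * ⟪b₁ (1, i), (S * S) (b₁ (1, i))⟫_ℂ) =
          ε * ‖S (b₁ (1, i))‖ ^ 2 := by
        have e4 : ⟪b₁ (1, i), (S * S) (b₁ (1, i))⟫_ℂ = ⟪S (b₁ (1, i)), S (b₁ (1, i))⟫_ℂ := by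
          change ⟪b₁ (1, i), S (S (b₁ (1, i)))⟫_ℂ = _
          conv_rhs => rw [← ContinuousLinearMap.adjoint_inner_right]
          have e5 : adjoint S = S := hSsa
          rw [e5]
        rw [e4, inner_self_eq_norm_sq_to_K]
        simp [← Complex.ofReal_pow]
      rw [e3]
      have : 0 ≤ ε * ‖S (b₁ (1, i))‖ ^ 2 := by positivity
      linarith
    have e2 := Finset.sum_le_sum e1
    simpa using e2
  calc ∑ k, ‖ranProj R (b₂ (1, k))‖ ^ 2
      ≤ ∑ k, (RCLike.re ⟪b₂ (1, k), (R.comp ((S * S).comp (adjoint R))) (b₂ (1, k))⟫_ℂ +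
        δ / (Fintype.card κ + 1)) := Finset.sum_le_sum fun k _ => h2 k
    _ = RCLike.re (Tr b₂ (R.comp ((S * S).comp (adjoint R)))) +
        Fintype.card κ * (δ / (Fintype.card κ + 1)) := by
        rw [Finset.sum_add_distrib]
        unfold Tr
        rw [map_sum]
        simp
    _ ≤ Fintype.card ι + δ := by
        rw [h1]
        have : (Fintype.card κ : ℝ) * (δ / (Fintype.card κ + 1)) ≤ δ := by
          rw [mul_div_assoc', div_le_iff₀ hcard]
          nlinarith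
        linarith

end

end Pool.Agent.MP_5ec4a4_an
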