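import Pool.Agent.MP_5ec4a4_an.Nuc

set_option autoImplicit false
set_option linter.unusedSectionVars false

open scoped InnerProductSpace ENNReal InnerProduct Topology
open ContinuousLinearMap (adjoint)
open Filter

namespace Pool.Agent.MP_5ec4a4_an

variable {H : Type*} [NormedAddCommGroup H] [InnerProductSpace ℂ H] [CompleteSpace H]

/-- Completely continuous operators: bounded weakly null sequences go to norm null sequences. -/
def CC (X : H →L[ℂ] H) : Prop :=
  ∀ x : ℕ → H, (∃ C : ℝ, ∀ n, ‖x n‖ ≤ C) → (∀ y, Tendsto (fun n => ⟪y, x n⟫_ℂ) atTop (𝓝 0)) →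
    Tendsto (fun n => X (x n)) atTop (𝓝 0)

theorem CC.add {X Y : H →L[ℂ] H} (hX : CC X) (hY : CC Y) : CC (X + Y) := by
  intro x hC hw
  simpa using (hX x hC hw).add (hY x hC hw)

theorem CC.smul {X : H →L[ℂ] H} (hX : CC X) (c : ℂ) : CC (c • X) := by
  intro x hC hw
  simpa using (hX x hC hw).const_smul c

theorem CC.neg {X : H →L[ℂ] H} (hX : CC X) : CC (-X) := by
  intro x hC hw
  simpa using (hX x hC hw).neg

theorem CC.sub {X Y : H →L[ℂ] H} (hX : CC X) (hY : CC Y) : CC (X - Y) := by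
  intro x hC hw
  simpa using (hX x hC hw).sub (hY x hC hw)

theorem CC.zero : CC (0 : H →L[ℂ] H) := by
  intro x hC hw
  simp

theorem CC.mul_left {X : H →L[ℂ] H} (hX : CC X) (Y : H →L[ℂ] H) : CC (Y * X) := by
  intro x hC hw
  have := (Y.continuous.tendsto 0).comp (hX x hC hw)
  rw [map_zero] at this
  exact this

theorem CC.mul_right {X : H →L[ℂ] H} (hX : CC X) (Y : H →L[ℂ] H) : CC (X * Y) := by
  rintro x ⟨C, hC⟩ hw
  refine hX (fun n => Y (x n)) ⟨‖Y‖ * C, fun n => ?_⟩ (fun y => ?_)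
  · exact (Y.le_opNorm _).trans (mul_le_mul_of_nonneg_left (hC n) (norm_nonneg _))
  · refine (hw (adjoint Y y)).congr fun n => ?_
    rw [ContinuousLinearMap.adjoint_inner_left]

theorem CC.of_approx {X : H →L[ℂ] H}
    (h : ∀ δ : ℝ, 0 < δ → ∃ Y : H →L[ℂ] H, CC Y ∧ ‖X - Y‖ ≤ δ) : CC X := by
  rintro x ⟨C, hC⟩ hw
  rw [Metric.tendsto_atTop]
  intro ε hε
  have hC0 : 0 ≤ C := (norm_nonneg _).trans (hC 0)
  obtain ⟨Y, hY, hXY⟩ := h (ε / (2 * (C + 1))) (by positivity)
  obtain ⟨n₀, hn₀⟩ := Metric.tendsto_atTop.1 (hY x ⟨C, hC⟩ hw) (ε / 2) (by positivity)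
  refine ⟨n₀, fun n hn => ?_⟩
  have h1 := hn₀ n hn
  rw [dist_zero_right] at h1 ⊢
  have h2 : X (x n) = (X - Y) (x n) + Y (x n) := by
    change X (x n) = (X (x n) - Y (x n)) + Y (x n)
    abel
  rw [h2]
  refine (norm_add_le _ _).trans_lt ?_
  have h3 : ‖(X - Y) (x n)‖ ≤ ε / (2 * (C + 1)) * C :=
    ((X - Y).le_opNorm _).trans (mul_le_mul hXY (hC n) (norm_nonneg _) (by positivity))
  have h4 : ε / (2 * (C + 1)) * C ≤ ε / 2 := by
    rw [div_mul_eq_mul_div, div_le_div_iff₀ (by positivity) (by positivity)]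
    nlinarith
  linarith

theorem CC.of_isNuc {X : H →L[ℂ] H} {c : ℝ} (h : IsNuc X c) : CC X := by
  obtain ⟨ι, ζ, η, hs, -, hX⟩ := h
  rintro x ⟨C, hC⟩ hw
  have hC0 : 0 ≤ C := (norm_nonneg _).trans (hC 0)
  have h1 : Tendsto (fun n => ∑' j, ⟪ζ j, x n⟫_ℂ • η j) atTop (𝓝 (∑' _ : ι, (0 : H))) := by
    refine tendsto_tsum_of_dominated_convergence (bound := fun j => C * (‖ζ j‖ * ‖η j‖))
      (hs.mul_left C) ?_ ?_
    · intro j
      have := (hw (ζ j)).smul_const (η j)
      rwa [zero_smul] at this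
    · refine Eventually.of_forall fun n j => ?_
      rw [norm_smul]
      calc ‖⟪ζ j, x n⟫_ℂ‖ * ‖η j‖ ≤ (‖ζ j‖ * C) * ‖η j‖ := by
            refine mul_le_mul_of_nonneg_right ?_ (norm_nonneg _)
            exact (norm_inner_le_norm _ _).trans (mul_le_mul_of_nonneg_left (hC n) (norm_nonneg _))
        _ = C * (‖ζ j‖ * ‖η j‖) := by ring
  rw [tsum_zero] at h1
  refine h1.congr fun n => ?_
  exact (hX (x n)).tsum_eq

/-- The star subalgebra of operators commuting with `U` modulo completely continuous ones. -/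
def essComm (U : H →L[ℂ] H) : StarSubalgebra ℂ (H →L[ℂ] H) where
  carrier := {X | CC (X * U - U * X) ∧ CC (star X * U - U * star X)}
  mul_mem' := by
    rintro X Y ⟨h1, h2⟩ ⟨h3, h4⟩
    refine ⟨?_, ?_⟩
    · have e : X * Y * U - U * (X * Y) = X * (Y * U - U * Y) + (X * U - U * X) * Y := by
        noncomm_ring
      rw [e]
      exact (h3.mul_left X).add (h1.mul_right Y)
    · have e : star (X * Y) * U - U * star (X * Y) =
          star Y * (star X * U - U * star X) + (star Y * U - U * star Y) * star X := by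
        rw [star_mul]; noncomm_ring
      rw [e]
      exact (h2.mul_left _).add (h4.mul_right _)
  one_mem' := by
    refine ⟨?_, ?_⟩ <;> simp [CC.zero]
  add_mem' := by
    rintro X Y ⟨h1, h2⟩ ⟨h3, h4⟩
    refine ⟨?_, ?_⟩
    · have e : (X + Y) * U - U * (X + Y) = (X * U - U * X) + (Y * U - U * Y) := by
        noncomm_ring
      rw [e]; exact h1.add h3
    · have e : star (X + Y) * U - U * star (X + Y) =
          (star X * U - U * star X) + (star Y * U - U * star Y) := by
        rw [star_add]; noncomm_ring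
      rw [e]; exact h2.add h4
  zero_mem' := by
    refine ⟨?_, ?_⟩ <;> simp [CC.zero]
  algebraMap_mem' := by
    intro r
    refine ⟨?_, ?_⟩
    · rw [Algebra.commutes, sub_self]; exact CC.zero
    · rw [← algebraMap_star_comm, Algebra.commutes, sub_self]; exact CC.zero
  star_mem' := by
    rintro X ⟨h1, h2⟩
    refine ⟨h2, ?_⟩
    rw [star_star]; exact h1

theorem essComm_closed (U : H →L[ℂ] H) : IsClosed (essComm U : Set (H →L[ℂ] H)) := by
  rw [← isSeqClosed_iff_isClosed]
  intro X Y hX hXY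
  have key : ∀ δ : ℝ, 0 < δ → ∃ n, ‖Y - X n‖ ≤ δ := by
    intro δ hδ
    obtain ⟨n, hn⟩ := Metric.tendsto_atTop.1 hXY δ hδ
    refine ⟨n, ?_⟩
    have := hn n le_rfl
    rw [dist_comm, dist_eq_norm] at this
    exact this.le
  refine ⟨CC.of_approx fun δ hδ => ?_, CC.of_approx fun δ hδ => ?_⟩
  · obtain ⟨n, hn⟩ := key (δ / (2 * (‖U‖ + 1))) (by positivity)
    refine ⟨X n * U - U * X n, (hX n).1, ?_⟩
    have e : (Y * U - U * Y) - (X n * U - U * X n) = (Y - X n) * U - U * (Y - X n) := by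
      noncomm_ring
    rw [e]
    refine (norm_sub_le _ _).trans ?_
    have h1 := norm_mul_le (Y - X n) U
    have h2 := norm_mul_le U (Y - X n)
    have h3 : ‖Y - X n‖ * ‖U‖ ≤ δ / 2 := by
      have : ‖Y - X n‖ * (‖U‖ + 1) ≤ δ / (2 * (‖U‖ + 1)) * (‖U‖ + 1) :=
        mul_le_mul_of_nonneg_right hn (by positivity)
      have h4 : δ / (2 * (‖U‖ + 1)) * (‖U‖ + 1) = δ / 2 := by
        field_simp
      nlinarith [norm_nonneg (Y - X n), norm_nonneg U]
    linarith [mul_comm ‖U‖ ‖Y - X n‖]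
  · obtain ⟨n, hn⟩ := key (δ / (2 * (‖U‖ + 1))) (by positivity)
    refine ⟨star (X n) * U - U * star (X n), (hX n).2, ?_⟩
    have e : (star Y * U - U * star Y) - (star (X n) * U - U * star (X n)) =
        star (Y - X n) * U - U * star (Y - X n) := by
      rw [star_sub]; noncomm_ring
    rw [e]
    refine (norm_sub_le _ _).trans ?_
    have h1 := norm_mul_le (star (Y - X n)) U
    have h2 := norm_mul_le U (star (Y - X n))
    rw [norm_star] at h1 h2
    have h3 : ‖Y - X n‖ * ‖U‖ ≤ δ / 2 := by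
      have : ‖Y - X n‖ * (‖U‖ + 1) ≤ δ / (2 * (‖U‖ + 1)) * (‖U‖ + 1) :=
        mul_le_mul_of_nonneg_right hn (by positivity)
      have h4 : δ / (2 * (‖U‖ + 1)) * (‖U‖ + 1) = δ / 2 := by
        field_simp
      nlinarith [norm_nonneg (Y - X n), norm_nonneg U]
    linarith [mul_comm ‖U‖ ‖Y - X n‖]

/-- Unitarity of `exp (iA)`. -/
theorem exp_unitary {A : H →L[ℂ] H} (hA : IsSelfAdjoint A) :
    NormedSpace.exp (Complex.I • A) ∈ unitary (H →L[ℂ] H) :=
  (selfAdjoint.expUnitary (⟨A, hA⟩ : selfAdjoint (H →L[ℂ] H))).2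

theorem cc_norm_eq {X u u' : H →L[ℂ] H} (hX : CC X)
    (hu : u ∈ unitary (H →L[ℂ] H)) (hu' : u' ∈ unitary (H →L[ℂ] H))
    (hweak : ∀ x y, Tendsto (fun n : ℕ => ⟪y, (u ^ n) x⟫_ℂ) atTop (𝓝 0))
    (hint : u' * X = X * u) : X = 0 := by
  have hnorm : ∀ (w : H →L[ℂ] H), w ∈ unitary (H →L[ℂ] H) → ∀ x, ‖w x‖ = ‖x‖ := by
    intro w hw x
    exact ((ContinuousLinearMap.norm_map_iff_adjoint_comp_self w).2
      (Unitary.star_mul_self_of_mem hw)) x
  have hpow : ∀ n : ℕ, u' ^ n * X = X * u ^ n := by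
    intro n
    induction n with
    | zero => simp
    | succ n ih =>
      calc u' ^ (n + 1) * X = u' ^ n * (u' * X) := by rw [pow_succ, mul_assoc]
        _ = (u' ^ n * X) * u := by rw [hint, mul_assoc]
        _ = X * u ^ (n + 1) := by rw [ih, mul_assoc, ← pow_succ]
  ext x
  have h1 := hX (fun n => (u ^ n) x) ⟨‖x‖, fun n => (hnorm _ (pow_mem hu n) x).le⟩
    (fun y => hweak x y)
  have h2 : ∀ n : ℕ, ‖X ((u ^ n) x)‖ = ‖X x‖ := by
    intro n
    have e1 : X ((u ^ n) x) = (u' ^ n) (X x) :=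
      (congrArg (fun T : H →L[ℂ] H => T x) (hpow n)).symm
    rw [e1, hnorm _ (pow_mem hu' n)]
  have h3 := h1.norm
  rw [norm_zero] at h3
  have h4 : Tendsto (fun _ : ℕ => ‖X x‖) atTop (𝓝 0) := h3.congr h2
  have h5 := tendsto_nhds_unique h4 tendsto_const_nhds
  simpa using h5.symm

/-- An intertwiner of `exp (iA)` and `exp (iA')` intertwines `A` and `A'`. -/
theorem edges {A K U : H →L[ℂ] H} (hA : IsSelfAdjoint A) (hK : IsSelfAdjoint K) {c M : ℝ}
    (hKn : IsNuc K c) (hM : ‖A‖ ≤ M) (hM' : ‖A + K‖ ≤ M)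
    (hel : A * (NormedSpace.exp (Complex.I • A) - 1) ∈
      StarAlgebra.elemental ℂ (NormedSpace.exp (Complex.I • A)))
    (hweak : ∀ x y, Tendsto (fun n : ℕ => ⟪y, (NormedSpace.exp (Complex.I • A) ^ n) x⟫_ℂ)
      atTop (𝓝 0))
    (hint : NormedSpace.exp (Complex.I • (A + K)) * U =
      U * NormedSpace.exp (Complex.I • A)) :
    (A + K) * U = U * A := by
  set u := NormedSpace.exp (Complex.I • A) with hu
  set u' := NormedSpace.exp (Complex.I • (A + K)) with hu'
  have huu : u ∈ unitary (H →L[ℂ] H) := exp_unitary hA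
  have huu' : u' ∈ unitary (H →L[ℂ] H) := exp_unitary (hA.add hK)
  have hd : CC (u' - u) := CC.of_isNuc (isNuc_exp_sub A K M hM hM' c hKn)
  have hds : CC (star u' - star u) := by
    rw [← star_sub]
    exact CC.of_isNuc (isNuc_exp_sub A K M hM hM' c hKn).star
  have hmem : u ∈ essComm U := by
    refine ⟨?_, ?_⟩
    · have e : u * U - U * u = - ((u' - u) * U) := by
        rw [← hint]; noncomm_ring
      rw [e]; exact (hd.mul_right U).neg
    · have e0 : U * star u = star u' * U := by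
        calc U * star u = (star u' * u') * (U * star u) := by
              rw [Unitary.star_mul_self_of_mem huu', one_mul]
          _ = star u' * (u' * U) * star u := by noncomm_ring
          _ = star u' * U * (u * star u) := by rw [hint]; noncomm_ring
          _ = star u' * U := by rw [Unitary.mul_star_self_of_mem huu, mul_one]
      have e : star u * U - U * star u = - ((star u' - star u) * U) := by
        rw [e0]; noncomm_ring
      rw [e]; exact (hds.mul_right U).neg
  have hle : StarAlgebra.elemental ℂ u ≤ essComm U :=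
    StarAlgebra.elemental.le_of_mem (essComm_closed U) hmem
  have hh : CC ((A * (u - 1)) * U - U * (A * (u - 1))) := (hle hel).1
  have hAu : A * u = u * A := by
    have : Commute A (Complex.I • A) := (Commute.refl A).smul_right _
    exact (this.exp_right).eq
  have hAu' : (A + K) * u' = u' * (A + K) := by
    have : Commute (A + K) (Complex.I • (A + K)) := (Commute.refl _).smul_right _
    exact (this.exp_right).eq
  set Z := (A + K) * U - U * A with hZ
  have hZi : u' * Z = Z * u := by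
    calc u' * Z = (u' * (A + K)) * U - (u' * U) * A := by rw [hZ]; noncomm_ring
      _ = ((A + K) * u') * U - (U * u) * A := by rw [hAu', hint]
      _ = (A + K) * (u' * U) - U * (u * A) := by noncomm_ring
      _ = (A + K) * (U * u) - U * (A * u) := by rw [hint, hAu]
      _ = Z * u := by rw [hZ]; noncomm_ring
  have hZ1 : Z * (u - 1) = 0 := by
    refine cc_norm_eq (u := u) (u' := u') ?_ huu huu' hweak ?_
    · have e : Z * (u - 1) = (K * (u' - 1) + A * (u' - u)) * U +
          ((A * (u - 1)) * U - U * (A * (u - 1))) := by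
        calc Z * (u - 1) = (A + K) * (U * u) - (A + K) * U - U * (A * (u - 1)) := by
              rw [hZ]; noncomm_ring
          _ = (A + K) * (u' * U) - (A + K) * U - U * (A * (u - 1)) := by rw [hint]
          _ = _ := by noncomm_ring
      rw [e]
      refine CC.add ?_ hh
      exact (((CC.of_isNuc hKn).mul_right _).add (hd.mul_left A)).mul_right U
    · calc u' * (Z * (u - 1)) = (u' * Z) * (u - 1) := by noncomm_ring
        _ = Z * (u - 1) * u := by rw [hZi]; noncomm_ring
  have hZu : Z * u = Z := by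
    have : Z * u - Z = 0 := by rw [← hZ1]; noncomm_ring
    exact sub_eq_zero.1 this
  have hZn : ∀ n : ℕ, Z * u ^ n = Z := by
    intro n
    induction n with
    | zero => simp
    | succ n ih => rw [pow_succ', ← mul_assoc, hZu, ih]
  have hZ0 : Z = 0 := by
    ext x
    apply ext_inner_left ℂ
    intro y
    have h1 : Tendsto (fun n : ℕ => ⟪adjoint Z y, (u ^ n) x⟫_ℂ) atTop (𝓝 0) := hweak x _
    have h2 : ∀ n : ℕ, ⟪adjoint Z y, (u ^ n) x⟫_ℂ = ⟪y, Z x⟫_ℂ := by
      intro n
      rw [ContinuousLinearMap.adjoint_inner_left]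
      have : Z ((u ^ n) x) = Z x := congrArg (fun T : H →L[ℂ] H => T x) (hZn n)
      rw [this]
    have h3 : Tendsto (fun _ : ℕ => ⟪y, Z x⟫_ℂ) atTop (𝓝 0) := h1.congr h2
    have h4 := tendsto_nhds_unique h3 tendsto_const_nhds
    simpa using h4.symm
  exact sub_eq_zero.1 hZ0

end Pool.Agent.MP_5ec4a4_an
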