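import Pool.Agent.MP_5ec4a4_an.Defs

set_option autoImplicit false
set_option linter.unusedSectionVars false

/-! Task N: nuclear decompositions. -/

namespace Pool.Agent.MP_5ec4a4_an

open scoped InnerProductSpace ENNReal

variable {H : Type*} [NormedAddCommGroup H] [InnerProductSpace ℂ H] [CompleteSpace H]

/-- `K` is a nuclear operator with nuclear norm at most `c`: `K x = ∑ⱼ ⟪ζⱼ, x⟫ ηⱼ` with
`∑ⱼ ‖ζⱼ‖ ‖ηⱼ‖ ≤ c`. -/
def IsNuc (K : H →L[ℂ] H) (c : ℝ) : Prop :=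
  ∃ (ι : Type) (ζ η : ι → H), Summable (fun j => ‖ζ j‖ * ‖η j‖) ∧
    ∑' j, ‖ζ j‖ * ‖η j‖ ≤ c ∧ ∀ x, HasSum (fun j => ⟪ζ j, x⟫_ℂ • η j) (K x)

theorem IsNuc.nonneg {K : H →L[ℂ] H} {c : ℝ} (h : IsNuc K c) : 0 ≤ c := by
  obtain ⟨ι, ζ, η, hs, hc, _⟩ := h
  exact le_trans (tsum_nonneg fun j => mul_nonneg (norm_nonneg _) (norm_nonneg _)) hc

theorem IsNuc.norm_term_le {ι : Type} (ζ η : ι → H) (x : H) (j : ι) :
    ‖⟪ζ j, x⟫_ℂ • η j‖ ≤ (‖ζ j‖ * ‖η j‖) * ‖x‖ := by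
  rw [norm_smul]
  calc ‖⟪ζ j, x⟫_ℂ‖ * ‖η j‖ ≤ (‖ζ j‖ * ‖x‖) * ‖η j‖ := by
        gcongr
        exact norm_inner_le_norm _ _
    _ = (‖ζ j‖ * ‖η j‖) * ‖x‖ := by ring

theorem IsNuc.norm_le {K : H →L[ℂ] H} {c : ℝ} (h : IsNuc K c) : ‖K‖ ≤ c := by
  have h0 := h.nonneg
  obtain ⟨ι, ζ, η, hs, hc, hK⟩ := h
  refine ContinuousLinearMap.opNorm_le_bound _ h0 fun x => ?_
  rw [← (hK x).tsum_eq]
  have hs' : Summable fun j => (‖ζ j‖ * ‖η j‖) * ‖x‖ := hs.mul_right _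
  calc ‖∑' j, ⟪ζ j, x⟫_ℂ • η j‖ ≤ ∑' j, (‖ζ j‖ * ‖η j‖) * ‖x‖ :=
        tsum_of_norm_bounded hs'.hasSum (fun j => IsNuc.norm_term_le ζ η x j)
    _ = (∑' j, ‖ζ j‖ * ‖η j‖) * ‖x‖ := tsum_mul_right
    _ ≤ c * ‖x‖ := by gcongr

theorem IsNuc.mono {K : H →L[ℂ] H} {c d : ℝ} (h : IsNuc K c) (hcd : c ≤ d) : IsNuc K d := by
  obtain ⟨ι, ζ, η, hs, hc, hK⟩ := h
  exact ⟨ι, ζ, η, hs, hc.trans hcd, hK⟩

theorem IsNuc.add {K L : H →L[ℂ] H} {c d : ℝ} (hK : IsNuc K c) (hL : IsNuc L d) :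
    IsNuc (K + L) (c + d) := by
  obtain ⟨ι, ζ, η, hs, hc, hK⟩ := hK
  obtain ⟨ι', ζ', η', hs', hc', hL⟩ := hL
  have h1 : HasSum (fun j : ι ⊕ ι' => ‖Sum.elim ζ ζ' j‖ * ‖Sum.elim η η' j‖)
      ((∑' j, ‖ζ j‖ * ‖η j‖) + ∑' j, ‖ζ' j‖ * ‖η' j‖) :=
    HasSum.sum (f := fun j : ι ⊕ ι' => ‖Sum.elim ζ ζ' j‖ * ‖Sum.elim η η' j‖)
      (by simpa [Function.comp_def] using hs.hasSum)
      (by simpa [Function.comp_def] using hs'.hasSum)
  refine ⟨ι ⊕ ι', Sum.elim ζ ζ', Sum.elim η η', h1.summable, ?_, fun x => ?_⟩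
  · rw [h1.tsum_eq]
    exact add_le_add hc hc'
  · exact HasSum.sum (f := fun j : ι ⊕ ι' => ⟪Sum.elim ζ ζ' j, x⟫_ℂ • Sum.elim η η' j)
      (by simpa [Function.comp_def] using hK x)
      (by simpa [Function.comp_def] using hL x)

theorem IsNuc.smul {K : H →L[ℂ] H} {c : ℝ} (hK : IsNuc K c) (a : ℂ) :
    IsNuc (a • K) (‖a‖ * c) := by
  obtain ⟨ι, ζ, η, hs, hc, hK⟩ := hK
  have h1 : (fun j => ‖ζ j‖ * ‖a • η j‖) = fun j => ‖a‖ * (‖ζ j‖ * ‖η j‖) := by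
    funext j
    rw [norm_smul]; ring
  refine ⟨ι, ζ, fun j => a • η j, ?_, ?_, fun x => ?_⟩
  · rw [h1]; exact hs.mul_left _
  · rw [h1, tsum_mul_left]
    gcongr
  · have h2 := (hK x).const_smul a
    have h3 : (fun j => ⟪ζ j, x⟫_ℂ • (a • η j)) = fun j => a • (⟪ζ j, x⟫_ℂ • η j) := by
      funext j
      exact smul_comm _ _ _
    rw [h3]
    exact h2

theorem IsNuc.summable_term {ι : Type} {ζ η : ι → H} (hs : Summable (fun j => ‖ζ j‖ * ‖η j‖))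
    (x : H) : Summable (fun j => ⟪ζ j, x⟫_ℂ • η j) :=
  Summable.of_norm_bounded (hs.mul_right ‖x‖) (fun j => IsNuc.norm_term_le ζ η x j)

theorem IsNuc.star {K : H →L[ℂ] H} {c : ℝ} (hK : IsNuc K c) : IsNuc (star K) c := by
  obtain ⟨ι, ζ, η, hs, hc, hK⟩ := hK
  have hs' : Summable (fun j => ‖η j‖ * ‖ζ j‖) := by
    simpa [mul_comm] using hs
  refine ⟨ι, η, ζ, hs', ?_, fun x => ?_⟩
  · simpa [mul_comm] using hc
  · have h1 := (IsNuc.summable_term hs' x).hasSum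
    have h2 : (∑' j, ⟪η j, x⟫_ℂ • ζ j) = (Star.star K) x := by
      refine ext_inner_left ℂ fun y => ?_
      have h3 := (hK y).mapL (innerSL ℂ x)
      have h4 := h1.mapL (innerSL ℂ y)
      simp only [innerSL_apply_apply, inner_smul_right] at h3 h4
      have h5 : HasSum (fun j => (starRingEnd ℂ) (⟪ζ j, y⟫_ℂ * ⟪x, η j⟫_ℂ))
          ((starRingEnd ℂ) ⟪x, K y⟫_ℂ) := by
        exact h3.map (starRingEnd ℂ) Complex.continuous_conj
      have h6 : (fun j => (starRingEnd ℂ) (⟪ζ j, y⟫_ℂ * ⟪x, η j⟫_ℂ)) =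
          fun j => ⟪η j, x⟫_ℂ * ⟪y, ζ j⟫_ℂ := by
        funext j
        rw [map_mul, inner_conj_symm, inner_conj_symm, mul_comm]
      rw [h6] at h5
      have h7 := h4.unique h5
      rw [inner_conj_symm] at h7
      rw [h7, ContinuousLinearMap.star_eq_adjoint, ContinuousLinearMap.adjoint_inner_right]
    rw [← h2]
    exact h1

/-- Multiplication on both sides by bounded operators. -/
theorem IsNuc.mul_mul {K : H →L[ℂ] H} {c : ℝ} (hK : IsNuc K c) (A B : H →L[ℂ] H) :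
    IsNuc (A * K * B) (‖A‖ * c * ‖B‖) := by
  obtain ⟨ι, ζ, η, hs, hc, hK⟩ := hK
  have h0 : ∀ j, ‖ContinuousLinearMap.adjoint B (ζ j)‖ * ‖A (η j)‖ ≤
      ‖A‖ * (‖ζ j‖ * ‖η j‖) * ‖B‖ := fun j => by
    calc ‖ContinuousLinearMap.adjoint B (ζ j)‖ * ‖A (η j)‖ ≤
        (‖ContinuousLinearMap.adjoint B‖ * ‖ζ j‖) * (‖A‖ * ‖η j‖) := by
          gcongr
          · exact ContinuousLinearMap.le_opNorm _ _
          · exact ContinuousLinearMap.le_opNorm _ _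
      _ = ‖A‖ * (‖ζ j‖ * ‖η j‖) * ‖B‖ := by
          rw [LinearIsometryEquiv.norm_map]; ring
  have hs1 : Summable (fun j => ‖A‖ * (‖ζ j‖ * ‖η j‖) * ‖B‖) := (hs.mul_left _).mul_right _
  have hs2 : Summable (fun j => ‖ContinuousLinearMap.adjoint B (ζ j)‖ * ‖A (η j)‖) :=
    Summable.of_nonneg_of_le (fun j => by positivity) h0 hs1
  refine ⟨ι, fun j => ContinuousLinearMap.adjoint B (ζ j), fun j => A (η j), hs2, ?_, fun x => ?_⟩
  · calc ∑' j, ‖ContinuousLinearMap.adjoint B (ζ j)‖ * ‖A (η j)‖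
        ≤ ∑' j, ‖A‖ * (‖ζ j‖ * ‖η j‖) * ‖B‖ := Summable.tsum_le_tsum h0 hs2 hs1
      _ = ‖A‖ * (∑' j, ‖ζ j‖ * ‖η j‖) * ‖B‖ := by rw [tsum_mul_right, tsum_mul_left]
      _ ≤ ‖A‖ * c * ‖B‖ := by gcongr
  · have := (hK (B x)).mapL A
    simp only [map_smul] at this
    simpa [ContinuousLinearMap.adjoint_inner_left, mul_apply_eq_comp] using this

/-- Countable sums. -/
theorem IsNuc.hasSum {K : ℕ → H →L[ℂ] H} {L : H →L[ℂ] H} {c : ℕ → ℝ} {d : ℝ}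
    (hK : ∀ n, IsNuc (K n) (c n)) (hc : HasSum c d) (hL : HasSum K L) : IsNuc L d := by
  choose ι ζ η hs hle hsum using hK
  have h1 : Summable (fun p : (Σ n, ι n) => ‖ζ p.1 p.2‖ * ‖η p.1 p.2‖) := by
    rw [summable_sigma_of_nonneg (fun p => by positivity)]
    refine ⟨fun n => hs n, ?_⟩
    exact Summable.of_nonneg_of_le (fun n => tsum_nonneg fun j => by positivity)
      (fun n => hle n) hc.summable
  refine ⟨Σ n, ι n, fun p => ζ p.1 p.2, fun p => η p.1 p.2, h1, ?_, fun x => ?_⟩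
  · rw [h1.tsum_sigma, ← hc.tsum_eq]
    exact Summable.tsum_le_tsum (fun n => hle n) h1.sigma hc.summable
  · have h2 := (IsNuc.summable_term (ζ := fun p : (Σ n, ι n) => ζ p.1 p.2)
      (η := fun p => η p.1 p.2) h1 x)
    have h3 := h2.hasSum.sigma (fun n => hsum n x)
    have h4 : HasSum (fun n => K n x) (L x) := by
      have := hL.mapL (ContinuousLinearMap.apply ℂ H x)
      simpa using this
    rw [← h3.unique h4]
    exact h2.hasSum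

/-- `∑ₓ |⟪D eₓ, C eₓ⟫| ≤ c ‖C‖` over an orthonormal family. -/
theorem IsNuc.sum_inner_le {D : H →L[ℂ] H} {c : ℝ} (hD : IsNuc D c) (C : H →L[ℂ] H)
    {X : Type*} {e : X → H} (he : Orthonormal ℂ e) (s : Finset X) :
    ∑ x ∈ s, ‖⟪D (e x), C (e x)⟫_ℂ‖ ≤ c * ‖C‖ := by
  obtain ⟨ι, ζ, η, hs, hc, hD⟩ := hD
  -- the bound for each x
  have h1 : ∀ x, Summable (fun j => ‖⟪ζ j, e x⟫_ℂ‖ * ‖⟪ContinuousLinearMap.adjoint C (η j), e x⟫_ℂ‖) := by
    intro x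
    refine Summable.of_nonneg_of_le (fun j => by positivity) (fun j => ?_) (hs.mul_left ‖C‖)
    have he1 : ‖e x‖ = 1 := he.1 x
    calc ‖⟪ζ j, e x⟫_ℂ‖ * ‖⟪ContinuousLinearMap.adjoint C (η j), e x⟫_ℂ‖
        ≤ (‖ζ j‖ * ‖e x‖) * ((‖ContinuousLinearMap.adjoint C‖ * ‖η j‖) * ‖e x‖) := by
          gcongr
          · exact norm_inner_le_norm _ _
          · refine (norm_inner_le_norm _ _).trans ?_
            gcongr
            exact ContinuousLinearMap.le_opNorm _ _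
      _ = ‖C‖ * (‖ζ j‖ * ‖η j‖) := by rw [he1, LinearIsometryEquiv.norm_map]; ring
  have h2 : ∀ x, ‖⟪D (e x), C (e x)⟫_ℂ‖ ≤
      ∑' j, ‖⟪ζ j, e x⟫_ℂ‖ * ‖⟪ContinuousLinearMap.adjoint C (η j), e x⟫_ℂ‖ := by
    intro x
    have h3 := (hD (e x)).mapL (innerSL ℂ (C (e x)))
    simp only [innerSL_apply_apply, inner_smul_right] at h3
    rw [norm_inner_symm, ← h3.tsum_eq]
    refine tsum_of_norm_bounded (h1 x).hasSum fun j => ?_
    rw [norm_mul, ContinuousLinearMap.adjoint_inner_left, norm_inner_symm (C (e x))]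
  have h4 : ∀ j, ∑ x ∈ s, ‖⟪ζ j, e x⟫_ℂ‖ * ‖⟪ContinuousLinearMap.adjoint C (η j), e x⟫_ℂ‖ ≤
      ‖C‖ * (‖ζ j‖ * ‖η j‖) := by
    intro j
    have h5 : ∑ x ∈ s, ‖⟪ζ j, e x⟫_ℂ‖ ^ 2 ≤ ‖ζ j‖ ^ 2 := by
      have := he.sum_inner_products_le (x := ζ j) (s := s)
      simpa [norm_inner_symm] using this
    have h6 : ∑ x ∈ s, ‖⟪ContinuousLinearMap.adjoint C (η j), e x⟫_ℂ‖ ^ 2 ≤
        ‖ContinuousLinearMap.adjoint C (η j)‖ ^ 2 := by
      have := he.sum_inner_products_le (x := ContinuousLinearMap.adjoint C (η j)) (s := s)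
      simpa only [norm_inner_symm] using this
    have h7 := Finset.sum_mul_sq_le_sq_mul_sq s (fun x => ‖⟪ζ j, e x⟫_ℂ‖)
      (fun x => ‖⟪ContinuousLinearMap.adjoint C (η j), e x⟫_ℂ‖)
    have h8 : (∑ x ∈ s, ‖⟪ζ j, e x⟫_ℂ‖ * ‖⟪ContinuousLinearMap.adjoint C (η j), e x⟫_ℂ‖) ^ 2 ≤
        (‖ζ j‖ * ‖ContinuousLinearMap.adjoint C (η j)‖) ^ 2 := by
      rw [mul_pow]
      refine h7.trans ?_
      gcongr
    have h9 := le_of_sq_le_sq h8 (by positivity)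
    calc ∑ x ∈ s, ‖⟪ζ j, e x⟫_ℂ‖ * ‖⟪ContinuousLinearMap.adjoint C (η j), e x⟫_ℂ‖
        ≤ ‖ζ j‖ * ‖ContinuousLinearMap.adjoint C (η j)‖ := h9
      _ ≤ ‖ζ j‖ * (‖ContinuousLinearMap.adjoint C‖ * ‖η j‖) := by
          gcongr
          exact ContinuousLinearMap.le_opNorm _ _
      _ = ‖C‖ * (‖ζ j‖ * ‖η j‖) := by rw [LinearIsometryEquiv.norm_map]; ring
  calc ∑ x ∈ s, ‖⟪D (e x), C (e x)⟫_ℂ‖
      ≤ ∑ x ∈ s, ∑' j, ‖⟪ζ j, e x⟫_ℂ‖ * ‖⟪ContinuousLinearMap.adjoint C (η j), e x⟫_ℂ‖ :=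
        Finset.sum_le_sum fun x _ => h2 x
    _ = ∑' j, ∑ x ∈ s, ‖⟪ζ j, e x⟫_ℂ‖ * ‖⟪ContinuousLinearMap.adjoint C (η j), e x⟫_ℂ‖ :=
        (Summable.tsum_finsetSum fun x _ => h1 x).symm
    _ ≤ ∑' j, ‖C‖ * (‖ζ j‖ * ‖η j‖) :=
        Summable.tsum_le_tsum h4 (summable_sum fun x _ => h1 x) (hs.mul_left _)
    _ = ‖C‖ * ∑' j, ‖ζ j‖ * ‖η j‖ := tsum_mul_left
    _ ≤ c * ‖C‖ := by rw [mul_comm c]; gcongr

theorem IsNuc.zero : IsNuc (0 : H →L[ℂ] H) 0 :=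
  ⟨PEmpty, fun _ => 0, fun _ => 0, by simp, by simp, fun x => by simp⟩

theorem isNuc_pow_sub (A B : H →L[ℂ] H) (M : ℝ) (hA : ‖A‖ ≤ M) (hB : ‖B‖ ≤ M) (c : ℝ)
    (hK : IsNuc (B - A) c) (n : ℕ) :
    IsNuc (B ^ (n + 1) - A ^ (n + 1)) ((n + 1) * M ^ n * c) := by
  have hM : 0 ≤ M := (norm_nonneg _).trans hA
  have hc : 0 ≤ c := hK.nonneg
  induction n with
  | zero => simpa using hK
  | succ n ih =>
    have e1 : B ^ (n + 1 + 1) - A ^ (n + 1 + 1) =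
        B ^ (n + 1) * (B - A) * 1 + 1 * (B ^ (n + 1) - A ^ (n + 1)) * A := by
      noncomm_ring
    rw [e1]
    refine ((hK.mul_mul (B ^ (n + 1)) 1).add (ih.mul_mul 1 A)).mono ?_
    have h1 : ‖(1 : H →L[ℂ] H)‖ ≤ 1 := ContinuousLinearMap.norm_id_le
    have h2 : ‖B ^ (n + 1)‖ ≤ M ^ (n + 1) :=
      (norm_pow_le' B (Nat.succ_pos n)).trans (by gcongr)
    calc ‖B ^ (n + 1)‖ * c * ‖(1 : H →L[ℂ] H)‖ +
          ‖(1 : H →L[ℂ] H)‖ * ((n + 1) * M ^ n * c) * ‖A‖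
        ≤ M ^ (n + 1) * c * 1 + 1 * ((n + 1) * M ^ n * c) * M := by
          gcongr
      _ = ((n + 1 : ℕ) + 1) * M ^ (n + 1) * c := by push_cast; ring

/-- The exponential: `exp (i(A+K)) - exp (iA)` is nuclear. Power series and
`B ^ n - A ^ n = ∑_{k<n} B ^ k * (B - A) * A ^ (n-1-k)`. -/
theorem isNuc_exp_sub (A K : H →L[ℂ] H) (M : ℝ) (hA : ‖A‖ ≤ M) (hAK : ‖A + K‖ ≤ M) (c : ℝ)
    (hK : IsNuc K c) :
    IsNuc (NormedSpace.exp (Complex.I • (A + K)) - NormedSpace.exp (Complex.I • A))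
      (Real.exp M * c) := by
  set B' : H →L[ℂ] H := Complex.I • (A + K) with hB'
  set A' : H →L[ℂ] H := Complex.I • A with hA'
  have hnA : ‖A'‖ ≤ M := by rw [hA', norm_smul]; simpa using hA
  have hnB : ‖B'‖ ≤ M := by rw [hB', norm_smul]; simpa using hAK
  have hd : IsNuc (B' - A') c := by
    have h1 : B' - A' = Complex.I • K := by rw [hB', hA', ← smul_sub]; congr 1; abel
    rw [h1]
    simpa using hK.smul Complex.I
  have hsB : HasSum (fun n => ((n.factorial : ℂ)⁻¹) • B' ^ n) (NormedSpace.exp B') := by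
    exact NormedSpace.exp_series_hasSum_exp' (𝕂 := ℂ) B'
  have hsA : HasSum (fun n => ((n.factorial : ℂ)⁻¹) • A' ^ n) (NormedSpace.exp A') := by
    exact NormedSpace.exp_series_hasSum_exp' (𝕂 := ℂ) A'
  have hs : HasSum (fun n => ((n.factorial : ℂ)⁻¹) • (B' ^ n - A' ^ n))
      (NormedSpace.exp B' - NormedSpace.exp A') := by
    have := hsB.sub hsA
    simpa only [smul_sub] using this
  have hs1 : HasSum (fun n => (((n + 1).factorial : ℂ)⁻¹) • (B' ^ (n + 1) - A' ^ (n + 1)))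
      (NormedSpace.exp B' - NormedSpace.exp A') := by
    have := (hasSum_nat_add_iff' (f := fun n => ((n.factorial : ℂ)⁻¹) • (B' ^ n - A' ^ n)) 1).2 hs
    simpa using this
  have hr : HasSum (fun n : ℕ => M ^ n / (n.factorial : ℝ) * c) (Real.exp M * c) := by
    have := NormedSpace.expSeries_div_hasSum_exp (𝔸 := ℝ) M
    rw [← Real.exp_eq_exp_ℝ] at this
    exact this.mul_right c
  refine IsNuc.hasSum (fun n => ?_) hr hs1
  refine ((isNuc_pow_sub A' B' M hnA hnB c hd n).smul (((n + 1).factorial : ℂ)⁻¹)).mono ?_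
  rw [norm_inv, Complex.norm_natCast, Nat.factorial_succ]
  push_cast
  have h1 : (n.factorial : ℝ) ≠ 0 := by positivity
  have h2 : (n : ℝ) + 1 ≠ 0 := by positivity
  apply le_of_eq
  field_simp

/-- If `tr |K| < ε` then `K` is nuclear with norm at most `ε`. Sketch: let `Q = sqrt |K|`; then
`∑ᵢ ‖Q bᵢ‖² = tr |K|` and `|K| x = ∑ᵢ ⟪Q bᵢ, x⟫ Q bᵢ`; and `K = V |K|` with `‖V‖ ≤ 1`
(e.g. extend `|K| x ↦ K x` from `range |K|` to its closure, using `‖K x‖ = ‖|K| x‖`, and by zero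
on the orthogonal complement). -/
theorem isNuc_of_traceNorm_lt {ι : Type} (b : HilbertBasis ι ℂ H) (K : H →L[ℂ] H) (ε : ℝ)
    (h : traceNorm b K < ENNReal.ofReal ε) : IsNuc K ε := by
  set P : H →L[ℂ] H := CFC.abs K with hP
  have hP0 : 0 ≤ P := CFC.abs_nonneg K
  set Q : H →L[ℂ] H := CFC.sqrt P with hQ
  have hQ0 : 0 ≤ Q := CFC.sqrt_nonneg P
  have hQsa : IsSelfAdjoint Q := IsSelfAdjoint.of_nonneg hQ0
  have hPsa : IsSelfAdjoint P := IsSelfAdjoint.of_nonneg hP0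
  have hQQ : Q * Q = P := CFC.sqrt_mul_sqrt_self P hP0
  have hQadj : ∀ x y : H, ⟪Q x, y⟫_ℂ = ⟪x, Q y⟫_ℂ := fun x y => by
    conv_lhs => rw [← hQsa.star_eq, ContinuousLinearMap.star_eq_adjoint,
      ContinuousLinearMap.adjoint_inner_left]
  have hPadj : ∀ x y : H, ⟪P x, y⟫_ℂ = ⟪x, P y⟫_ℂ := fun x y => by
    conv_lhs => rw [← hPsa.star_eq, ContinuousLinearMap.star_eq_adjoint,
      ContinuousLinearMap.adjoint_inner_left]
  -- the norm of K x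
  have hnorm : ∀ x, ‖K x‖ = ‖P x‖ := by
    intro x
    have h1 : ⟪K x, K x⟫_ℂ = ⟪P x, P x⟫_ℂ := by
      have h2 : P * P = Star.star K * K := CFC.abs_mul_abs K
      have h3 := congrArg (fun T : H →L[ℂ] H => T x) h2
      simp only [mul_apply_eq_comp] at h3
      rw [hPadj, h3, ContinuousLinearMap.star_eq_adjoint, ContinuousLinearMap.adjoint_inner_right]
    rw [inner_self_eq_norm_sq_to_K, inner_self_eq_norm_sq_to_K] at h1
    have h4 : ‖K x‖ ^ 2 = ‖P x‖ ^ 2 := by exact_mod_cast h1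
    exact (sq_eq_sq₀ (norm_nonneg _) (norm_nonneg _)).1 h4
  -- the contraction V
  let T : Submodule ℂ H := (LinearMap.range (P : H →ₗ[ℂ] H)).topologicalClosure
  have : CompleteSpace T := (Submodule.isClosed_topologicalClosure _).completeSpace_coe
  let e : H →ₗ[ℂ] T := LinearMap.codRestrict T (P : H →ₗ[ℂ] H)
    (fun x => Submodule.le_topologicalClosure _ (LinearMap.mem_range_self _ x))
  have he : ∀ x, ((e x : T) : H) = P x := fun x => rfl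
  have hdense : DenseRange e := by
    intro y
    rw [Metric.mem_closure_iff]
    intro δ hδ
    have hy : (y : H) ∈ closure ((LinearMap.range (P : H →ₗ[ℂ] H) : Submodule ℂ H) : Set H) := by
      have := y.2
      exact this
    rw [Metric.mem_closure_iff] at hy
    obtain ⟨z, ⟨w, hw⟩, hz⟩ := hy δ hδ
    refine ⟨e w, ⟨w, rfl⟩, ?_⟩
    rw [Subtype.dist_eq, he]
    rw [← hw] at hz
    exact hz
  have hbd : ∀ x, ‖(K : H →ₗ[ℂ] H) x‖ ≤ 1 * ‖e x‖ := fun x => by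
    rw [one_mul]
    exact (hnorm x).le
  let W : T →L[ℂ] H := LinearMap.extendOfNorm (K : H →ₗ[ℂ] H) e
  have hW : ∀ x, W (e x) = K x := fun x => LinearMap.extendOfNorm_eq hdense ⟨1, hbd⟩ x
  have hWle : ∀ y, ‖W y‖ ≤ ‖y‖ := fun y => by
    simpa using LinearMap.norm_extendOfNorm_apply_le hdense 1 hbd y
  let V : H →L[ℂ] H := W.comp (T.orthogonalProjectionOnto)
  have hV : ∀ x, V (P x) = K x := by
    intro x
    have h1 : T.orthogonalProjectionOnto (P x) = e x := by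
      rw [← he]
      exact Submodule.orthogonalProjectionOnto_mem_subspace_eq_self _
    show W (T.orthogonalProjectionOnto (P x)) = K x
    rw [h1, hW]
  have hVle : ∀ y, ‖V y‖ ≤ ‖y‖ := fun y =>
    (hWle _).trans (Submodule.norm_orthogonalProjectionOnto_apply_le _ _)
  -- the trace
  have htr : ∀ i, RCLike.re ⟪b i, P (b i)⟫_ℂ = ‖Q (b i)‖ ^ 2 := by
    intro i
    have h1 : P (b i) = Q (Q (b i)) := by rw [← hQQ]; rfl
    rw [h1, ← hQadj, inner_self_eq_norm_sq]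
  have htr' : traceNorm b K = ∑' i, ENNReal.ofReal (‖Q (b i)‖ ^ 2) := by
    unfold traceNorm
    congr 1
    funext i
    rw [← htr]
  rw [htr'] at h
  have hne : ∑' i, ENNReal.ofReal (‖Q (b i)‖ ^ 2) ≠ ⊤ := (h.trans ENNReal.ofReal_lt_top).ne
  have hsum : Summable (fun i => ‖Q (b i)‖ ^ 2) := by
    have h1 := ENNReal.summable_toReal hne
    refine h1.congr fun i => ?_
    rw [ENNReal.toReal_ofReal (by positivity)]
  have hlt : ∑' i, ‖Q (b i)‖ ^ 2 < ε := by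
    rw [← ENNReal.ofReal_tsum_of_nonneg (fun i => by positivity) hsum] at h
    exact (ENNReal.ofReal_lt_ofReal_iff_of_nonneg (tsum_nonneg fun i => by positivity)).1 h
  have hle : ∀ i, ‖Q (b i)‖ * ‖V (Q (b i))‖ ≤ ‖Q (b i)‖ ^ 2 := fun i => by
    rw [sq]
    gcongr
    exact hVle _
  have hs2 : Summable (fun i => ‖Q (b i)‖ * ‖V (Q (b i))‖) :=
    Summable.of_nonneg_of_le (fun i => by positivity) hle hsum
  refine ⟨ι, fun i => Q (b i), fun i => V (Q (b i)), hs2, ?_, fun x => ?_⟩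
  · exact (Summable.tsum_le_tsum hle hs2 hsum).trans hlt.le
  · have h1 := (b.hasSum_repr (Q x)).mapL (V.comp Q)
    have h2 : (V.comp Q) (Q x) = K x := by
      rw [← hV x, ← hQQ]; rfl
    rw [h2] at h1
    have h3 : (fun i => ⟪Q (b i), x⟫_ℂ • V (Q (b i))) =
        fun i => (V.comp Q) (b.repr (Q x) i • b i) := by
      funext i
      rw [map_smul, b.repr_apply_apply, hQadj]
      rfl
    rw [h3]
    exact h1

end Pool.Agent.MP_5ec4a4_an
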