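import Pool.Agent.MP_5ec4a4_an.Wave
import Pool.Agent.MP_5ec4a4_an.Nuc

set_option autoImplicit false
set_option linter.unusedSectionVars false

open scoped InnerProductSpace ENNReal InnerProduct
open ContinuousLinearMap (adjoint)
open FreeGroup

namespace Pool.Agent.MP_5ec4a4_an

section

variable {S : Type} [Fintype S] [DecidableEq S]
variable {H : Type*} [NormedAddCommGroup H] [InnerProductSpace ℂ H] [CompleteSpace H]
variable {b : HilbertBasis (FreeGroup S) ℂ H} {n : ℕ} {V : S → H →L[ℂ] H}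

theorem hb_hasSum_normSq {X : Type*} {K : Type*} [NormedAddCommGroup K] [InnerProductSpace ℂ K]
    (b : HilbertBasis X ℂ K) (v : K) : HasSum (fun x => ‖⟪b x, v⟫_ℂ‖ ^ 2) (‖v‖ ^ 2) := by
  have h := b.hasSum_inner_mul_inner v v
  rw [← Complex.hasSum_ofReal]
  have e1 : (fun x => ((‖⟪b x, v⟫_ℂ‖ ^ 2 : ℝ) : ℂ)) = fun x => ⟪v, b x⟫_ℂ * ⟪b x, v⟫_ℂ := by
    funext x
    rw [← inner_conj_symm v (b x), RCLike.conj_mul]
    push_cast; rfl
  have e2 : ((‖v‖ ^ 2 : ℝ) : ℂ) = ⟪v, v⟫_ℂ := by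
    rw [inner_self_eq_norm_sq_to_K]; push_cast; rfl
  rw [e1, e2]
  exact h

theorem norm_adjoint_le {K : Type*} [NormedAddCommGroup K] [InnerProductSpace ℂ K]
    [CompleteSpace K] {W : K →L[ℂ] H} (hW : ∀ x, ‖W x‖ ≤ ‖x‖) (x : H) :
    ‖adjoint W x‖ ≤ ‖x‖ := by
  have h1 : ‖W‖ ≤ 1 := W.opNorm_le_bound zero_le_one (fun x => by rw [one_mul]; exact hW x)
  have h2 : ‖adjoint W‖ ≤ 1 := by rw [LinearIsometryEquiv.norm_map]; exact h1
  calc ‖adjoint W x‖ ≤ ‖adjoint W‖ * ‖x‖ := ContinuousLinearMap.le_opNorm _ _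
    _ ≤ 1 * ‖x‖ := mul_le_mul_of_nonneg_right h2 (norm_nonneg _)
    _ = ‖x‖ := one_mul _

theorem star_bound (h : FinPert b n V) {κ : S → ℝ} (hκ : ∀ s, IsNuc (V s - 1) (κ s))
    {ι : Type} [Fintype ι] (W : EllTwo (FreeGroup S × ι) →L[ℂ] H) (hW1 : ∀ x, ‖W x‖ ≤ ‖x‖)
    (hW2 : ∀ s, W.comp (LamP (stdB _) (of s)) = (pert b V s).comp W) :
    |∑ i, ‖W (stdB _ (1, i))‖ ^ 2 - ‖adjoint W (b 1)‖ ^ 2| ≤ 2 * ∑ s, κ s := by
  set a : FreeGroup S → FreeGroup S → ℝ := fun g x => ∑ i, ‖⟪b x, W (stdB _ (g, i))⟫_ℂ‖ ^ 2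
    with ha
  set t : ℝ := ∑ i, ‖W (stdB (FreeGroup S × ι) (1, i))‖ ^ 2 with ht
  set q : FreeGroup S → ℝ := fun x => ‖adjoint W (b x)‖ ^ 2 with hq
  have hstep : ∀ s g i, W (stdB _ (of s * g, i)) = pert b V s (W (stdB _ (g, i))) := by
    intro s g i
    have := congrArg (fun T : _ →L[ℂ] H => T (stdB _ (g, i))) (hW2 s)
    simpa using this
  have hT : ∀ g, ∑ i, ‖W (stdB (FreeGroup S × ι) (g, i))‖ ^ 2 = t := by
    refine left_induction rfl ?_
    intro s g
    have : ∑ i, ‖W (stdB (FreeGroup S × ι) (of s * g, i))‖ ^ 2 =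
        ∑ i, ‖W (stdB (FreeGroup S × ι) (g, i))‖ ^ 2 := by
      refine Finset.sum_congr rfl fun i _ => ?_
      rw [hstep, unitary_norm (pert_unitary h s)]
    rw [this]
  have h1 : ∀ g, HasSum (fun x => a g x) t := by
    intro g
    rw [← hT g]
    exact hasSum_sum fun i _ => hb_hasSum_normSq b _
  have h2 : ∀ x, HasSum (fun g => a g x) (q x) := by
    intro x
    have e1 := (hb_hasSum_normSq (stdB (FreeGroup S × ι)) (adjoint W (b x))).prod_fiberwise
      (fun g => hasSum_fintype _)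
    have e2 : (fun g => a g x) = fun g => ∑ i, ‖⟪stdB (FreeGroup S × ι) (g, i),
        adjoint W (b x)⟫_ℂ‖ ^ 2 := by
      funext g
      refine Finset.sum_congr rfl fun i _ => ?_
      rw [ContinuousLinearMap.adjoint_inner_right, norm_inner_symm]
    rw [e2]
    exact e1
  have h3 : ∀ s g x, x ∉ Yset n s → a (of s * g) (of s * x) = a g x := by
    intro s g x hx
    refine Finset.sum_congr rfl fun i _ => ?_
    have e1 : ⟪b (of s * x), W (stdB _ (of s * g, i))⟫_ℂ = ⟪b x, W (stdB _ (g, i))⟫_ℂ := by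
      rw [hstep]
      have e2 : b (of s * x) = pert b V s (b x) := by
        change _ = Lam b (of s) (V s (b x))
        rw [h.fix s x hx, Lam_apply]
      rw [e2, unitary_inner (pert_unitary h s)]
    rw [e1]
  have hmain := star_identity a (fun g x => Finset.sum_nonneg fun i _ => by positivity) t q h1 h2
    (Yset n) h3
  have hadj : ∀ s, (adjoint W).comp (pert b V s) = (LamP (stdB _) (of s)).comp (adjoint W) :=
    fun s => adjoint_intw_of_unitary (pert_unitary h s) (LamP_unitary _ _) (hW2 s)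
  have hqs : ∀ s x, q (of s * x) = ‖adjoint W (star (V s) (b x))‖ ^ 2 := by
    intro s x
    have e1 : b (of s * x) = pert b V s (star (V s) (b x)) := by
      change _ = Lam b (of s) (V s (star (V s) (b x)))
      rw [unitary_apply_star (h.unit s), Lam_apply]
    have e2 := congrArg (fun T : H →L[ℂ] _ => T (star (V s) (b x))) (hadj s)
    simp only [ContinuousLinearMap.comp_apply] at e2
    simp only [hq]
    rw [e1, e2, LamP_norm]
  have hbound : ∀ s, ∑ x ∈ Yset n s, |q (of s * x) - q x| ≤ 2 * κ s := by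
    intro s
    set D : H →L[ℂ] H := star (V s) - 1 with hD
    set C : H →L[ℂ] H := (W.comp (adjoint W)).comp (star (V s) + 1) with hC
    have hDn : IsNuc D (κ s) := by
      have := (hκ s).star
      rwa [star_sub, star_one] at this
    have hCn : ‖C‖ ≤ 2 := by
      refine C.opNorm_le_bound (by norm_num) fun x => ?_
      change ‖W (adjoint W (star (V s) x + x))‖ ≤ 2 * ‖x‖
      refine (hW1 _).trans ((norm_adjoint_le hW1 _).trans ((norm_add_le _ _).trans ?_))
      rw [unitary_norm (Unitary.star_mem (h.unit s))]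
      linarith
    have hle : ∀ x, |q (of s * x) - q x| ≤ ‖⟪D (b x), C (b x)⟫_ℂ‖ := by
      intro x
      have e1 : q (of s * x) - q x = RCLike.re ⟪D (b x), C (b x)⟫_ℂ := by
        rw [hqs]
        simp only [hq]
        set p := adjoint W (star (V s) (b x)) with hp
        set r := adjoint W (b x) with hr
        have e2 : ⟪D (b x), C (b x)⟫_ℂ = ⟪p - r, p + r⟫_ℂ := by
          change ⟪star (V s) (b x) - b x, W (adjoint W (star (V s) (b x) + b x))⟫_ℂ = _
          rw [← ContinuousLinearMap.adjoint_inner_left, map_sub, map_add]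
        rw [e2, inner_sub_left, inner_add_right, inner_add_right, map_sub, map_add, map_add,
          inner_self_eq_norm_sq, inner_self_eq_norm_sq, inner_re_symm (x := r) (y := p)]
        ring
      rw [e1]
      exact RCLike.abs_re_le_norm _
    calc ∑ x ∈ Yset n s, |q (of s * x) - q x|
        ≤ ∑ x ∈ Yset n s, ‖⟪D (b x), C (b x)⟫_ℂ‖ := Finset.sum_le_sum fun x _ => hle x
      _ ≤ κ s * ‖C‖ := hDn.sum_inner_le C b.orthonormal (Yset n s)
      _ ≤ κ s * 2 := mul_le_mul_of_nonneg_left hCn hDn.nonneg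
      _ = 2 * κ s := mul_comm _ _
  have hq1 : ‖adjoint W (b 1)‖ ^ 2 = q 1 := rfl
  rw [hq1, hmain, Finset.mul_sum]
  refine (Finset.abs_sum_le_sum_abs _ _).trans (Finset.sum_le_sum fun s _ => ?_)
  refine ((Finset.abs_sum_le_sum_abs _ _).trans (Finset.sum_le_sum fun x _ => ?_)).trans
    (hbound s)
  rw [abs_mul, abs_of_nonneg (headInd_nonneg s x)]
  calc headInd s x * |q (of s * x) - q x| ≤ 1 * |q (of s * x) - q x| :=
        mul_le_mul_of_nonneg_right (headInd_le_one s x) (abs_nonneg _)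
    _ = _ := one_mul _

/-- Vectors `z (b 1)` for bounded intertwiners `z` from the regular representation to a finite
multiple are dense. -/
theorem exists_intw_near (b : HilbertBasis (FreeGroup S) ℂ H) {ι : Type}
    (ξ : EllTwo (FreeGroup S × ι)) {δ : ℝ} (hδ : 0 < δ) :
    ∃ z : H →L[ℂ] EllTwo (FreeGroup S × ι),
      (∀ g, z.comp (Lam b g) = (LamP (stdB _) g).comp z) ∧ ‖z (b 1) - ξ‖ < δ := by
  let Z : Submodule ℂ (EllTwo (FreeGroup S × ι)) :=
    { carrier := {v | ∃ z : H →L[ℂ] EllTwo (FreeGroup S × ι),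
        (∀ g, z.comp (Lam b g) = (LamP (stdB _) g).comp z) ∧ z (b 1) = v}
      add_mem' := by
        rintro u v ⟨z, hz, rfl⟩ ⟨w, hw, rfl⟩
        refine ⟨z + w, fun g => ?_, rfl⟩
        rw [ContinuousLinearMap.add_comp, ContinuousLinearMap.comp_add, hz, hw]
      zero_mem' := ⟨0, fun g => by simp, rfl⟩
      smul_mem' := by
        rintro c v ⟨z, hz, rfl⟩
        refine ⟨c • z, fun g => ?_, rfl⟩
        rw [ContinuousLinearMap.smul_comp, ContinuousLinearMap.comp_smul, hz] }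
  have hle : Submodule.span ℂ (Set.range (stdB (FreeGroup S × ι))) ≤ Z := by
    rw [Submodule.span_le]
    rintro _ ⟨⟨g, i⟩, rfl⟩
    refine ⟨(incl b i).comp (Rho b g⁻¹), fun h => ?_, ?_⟩
    · apply hb_ext b
      intro x
      simp [mul_assoc]
    · simp
  have htop : Z.topologicalClosure = ⊤ := by
    rw [eq_top_iff, ← (stdB (FreeGroup S × ι)).dense_span]
    exact Submodule.topologicalClosure_mono hle
  have hmem : ξ ∈ closure (Z : Set (EllTwo (FreeGroup S × ι))) := by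
    have : ξ ∈ Z.topologicalClosure := by rw [htop]; trivial
    exact this
  obtain ⟨_, ⟨z, hz, rfl⟩, hd⟩ := Metric.mem_closure_iff.1 hmem δ hδ
  refine ⟨z, hz, ?_⟩
  rw [← dist_eq_norm, dist_comm]
  exact hd

/-- Theorem A for finitely supported perturbations, with a quantitative bound. -/
theorem exists_intertwiner_fin (h : FinPert b n V) {κ : S → ℝ}
    (hκ : ∀ s, IsNuc (V s - 1) (κ s)) (hsum : ∑ s, κ s ≤ 1 / 16) :
    ∃ U : H →L[ℂ] H, (∀ x, ‖U x‖ ≤ ‖x‖) ∧ (∀ s, U * Lam b (of s) = pert b V s * U) ∧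
      1 / 4 ≤ ‖⟪b 1, U (b 1)⟫_ℂ‖ := by
  by_contra hcon
  push Not at hcon
  obtain ⟨W, hW1, hW2, hW3⟩ := exists_W h (δ := 1 / 100) (by norm_num)
  set ξ := adjoint W (b 1) with hξ
  have hstar := star_bound h hκ W hW1 hW2
  have hξ2 : 0.93 ≤ ‖ξ‖ := by
    have h1 := (abs_le.1 hstar).2
    have h2 : (0.865 : ℝ) ≤ ‖ξ‖ ^ 2 := by
      have : 2 * ∑ s, κ s ≤ 1 / 8 := by linarith
      linarith
    nlinarith [norm_nonneg ξ]
  obtain ⟨z, hz, hzξ⟩ := exists_intw_near b ξ (δ := 1 / 100) (by norm_num)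
  set bt : HilbertBasis (FreeGroup S × Unit) ℂ H := reindexHB b (Equiv.prodPUnit _) with hbt
  have hLam : ∀ g, LamP bt g = Lam b g := by
    intro g
    apply hb_ext b
    intro x
    have e1 : b x = bt (x, ()) := by simp [hbt]
    conv_lhs => rw [e1, LamP_apply]
    simp [hbt]
  have hzi : Intw bt (stdB _) z := by
    intro g
    rw [hLam]; exact hz g
  obtain ⟨T, hTsa, hG, hTc⟩ := exists_res z (1 / 4) (by norm_num)
  have hTi : Intw bt bt T := intw_of_commute fun g => hTc _ (hzi.absSq_commute g)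
  have hGi : Intw bt bt (T * T) := hTi.comp hTi
  have hβ : (1 / 4 : ℝ) = (1 / 2) ^ 2 := by norm_num
  have hzG : ∀ x, ‖z ((T * T) x)‖ ≤ ‖x‖ := by
    intro x
    have := hG.norm_RG' (β := 1 / 2) (by norm_num) hβ x
    linarith
  have hb1 : ‖b 1‖ = 1 := b.orthonormal.1 1
  -- the first intertwiner
  have hU := hcon (W.comp (z.comp (T * T))) (fun x => (hW1 _).trans (hzG x)) (by
    intro s
    ext x
    change W (z ((T * T) (Lam b (of s) x))) = pert b V s (W (z ((T * T) x)))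
    have e1 := hGi.apply (of s) x
    rw [hLam] at e1
    have e2 := congrArg (fun A : H →L[ℂ] _ => A ((T * T) x)) (hz (of s))
    have e3 := congrArg (fun A : _ →L[ℂ] H => A (z ((T * T) x))) (hW2 s)
    simp only [ContinuousLinearMap.comp_apply] at e2 e3
    rw [e1, e2, e3])
  have hU' : ‖⟪ξ, z ((T * T) (b 1))⟫_ℂ‖ < 1 / 4 := by
    rw [hξ, ContinuousLinearMap.adjoint_inner_left]
    exact hU
  set y := cut z (T * T) with hy
  have hτ : RCLike.re ⟪z (b 1), z ((T * T) (b 1))⟫_ℂ ≤ 1 / 4 + 1 / 100 := by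
    have e1 : ⟪z (b 1), z ((T * T) (b 1))⟫_ℂ =
        ⟪ξ, z ((T * T) (b 1))⟫_ℂ + ⟪z (b 1) - ξ, z ((T * T) (b 1))⟫_ℂ := by
      rw [inner_sub_left]; ring
    rw [e1, map_add]
    have e2 := (RCLike.re_le_norm (⟪ξ, z ((T * T) (b 1))⟫_ℂ)).trans hU'.le
    have e3 : RCLike.re ⟪z (b 1) - ξ, z ((T * T) (b 1))⟫_ℂ ≤ 1 / 100 := by
      refine (RCLike.re_le_norm _).trans ((norm_inner_le_norm _ _).trans ?_)
      have e4 := hzG (b 1)
      rw [hb1] at e4
      nlinarith [norm_nonneg (z (b 1) - ξ), norm_nonneg (z ((T * T) (b 1)))]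
    linarith
  -- the second column
  have hyi : Intw (stdB (FreeGroup S × Ball S n)) (stdB _) y := (hzi.comp hGi).comp hzi.adj
  have hW2' : ∀ s, (W.comp y).comp (LamP (stdB _) (of s)) = (pert b V s).comp (W.comp y) := by
    intro s
    rw [ContinuousLinearMap.comp_assoc, hyi (of s), ← ContinuousLinearMap.comp_assoc, hW2 s,
      ContinuousLinearMap.comp_assoc]
  have hstar2 := star_bound h hκ (W.comp y) (fun x => (hW1 _).trans (hG.norm_cut_le x)) hW2'
  have ht2 : ∑ i, ‖(W.comp y) (stdB _ (1, i))‖ ^ 2 ≤ 1 / 4 + 1 / 100 := by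
    have e1 : ∀ i : Ball S n, ‖(W.comp y) (stdB _ (1, i))‖ ^ 2 ≤
        RCLike.re ⟪stdB (FreeGroup S × Ball S n) (1, i), y (stdB _ (1, i))⟫_ℂ := by
      intro i
      refine le_trans ?_ (hG.norm_cut_sq_le _)
      exact pow_le_pow_left₀ (norm_nonneg _) (hW1 _) 2
    refine (Finset.sum_le_sum fun i _ => e1 i).trans ?_
    have e2 : Tr (stdB (FreeGroup S × Ball S n)) (z.comp ((T * T).comp (adjoint z))) =
        Tr bt (((T * T).comp (adjoint z)).comp z) := trace_comm hzi (hGi.comp hzi.adj)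
    have e3 : ∑ i, RCLike.re ⟪stdB (FreeGroup S × Ball S n) (1, i), y (stdB _ (1, i))⟫_ℂ =
        RCLike.re (Tr (stdB (FreeGroup S × Ball S n)) (z.comp ((T * T).comp (adjoint z)))) := by
      unfold Tr
      rw [map_sum]
      rfl
    rw [e3, e2]
    refine le_trans (le_of_eq ?_) hτ
    unfold Tr
    have e4 : adjoint (T * T) = T * T := hG.sa
    have e5 : ∀ v, (T * T) v = adjoint (T * T) v := fun v => by rw [e4]
    simp only [Finset.univ_unique, Finset.sum_singleton]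
    change RCLike.re ⟪bt (1, ()), (T * T) (adjoint z (z (bt (1, ()))))⟫_ℂ = _
    have e6 : bt (1, ()) = b 1 := by simp [hbt]
    rw [e6, e5, ContinuousLinearMap.adjoint_inner_right, ContinuousLinearMap.adjoint_inner_right,
      inner_re_symm]
  have hq2 : adjoint (W.comp y) (b 1) = y ξ := by
    rw [ContinuousLinearMap.adjoint_comp, hG.cut_sa]
    rfl
  rw [hq2] at hstar2
  have hyξ : 0.67 ≤ ‖y ξ‖ := by
    have e1 : ξ - y ξ = ((ξ - z (b 1)) - y (ξ - z (b 1))) + (z (b 1) - y (z (b 1))) := by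
      rw [map_sub]; abel
    have e2 : ‖ξ - y ξ‖ ≤ 1 / 100 + 1 / 4 := by
      rw [e1]
      refine (norm_add_le _ _).trans ?_
      have e3 := hG.norm_sub_cut_le (ξ - z (b 1))
      have e4 := hG.norm_sub_cut_apply (β := 1 / 2) (by norm_num) hβ (b 1)
      rw [norm_sub_rev ξ] at e3
      rw [hb1] at e4
      linarith
    have e3 : ‖ξ‖ ≤ ‖ξ - y ξ‖ + ‖y ξ‖ := by
      have := norm_add_le (ξ - y ξ) (y ξ)
      rwa [sub_add_cancel] at this
    linarith
  have h1 := (abs_le.1 hstar2).1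
  have h2 : (0.4489 : ℝ) ≤ ‖y ξ‖ ^ 2 := by nlinarith
  linarith

end

end Pool.Agent.MP_5ec4a4_an
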