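import Mathlib

set_option autoImplicit false

/-! Task W: combinatorics of reduced words in the free group on a finite type `S`.
(left multiplication by a generator acts on the head of `toWord`.) -/

namespace Pool.Agent.MP_5ec4a4_an

open FreeGroup

section

variable {S : Type} [Fintype S] [DecidableEq S]

/-- `0` if the reduced word of `w` starts with the letter `s⁻¹`, `1` otherwise. -/
noncomputable def headInd (s : S) (w : FreeGroup S) : ℝ :=
  if w.toWord.head? = some (s, false) then 0 else 1

omit [Fintype S] in
theorem reduce_append_cancel {L : List (S × Bool)} (s : S) (b : Bool)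
    (h : IsReduced (L ++ [(s, b)])) : reduce (L ++ [(s, b)] ++ [(s, !b)]) = L := by
  have h1 : IsReduced L := by
    unfold FreeGroup.IsReduced at h ⊢
    exact (List.isChain_append.1 h).1
  have h2 : Red.Step (L ++ [(s, b)] ++ [(s, !b)]) L := by
    have : Red.Step (L ++ (s, b) :: (s, !b) :: []) (L ++ []) := Red.Step.not
    simpa using this
  rw [reduce.Step.eq h2, h1.reduce_eq]

omit [Fintype S] in
theorem reduce_append_noncancel {L : List (S × Bool)} (s : S) (b : Bool) (hL : IsReduced L)
    (h : L.getLast? ≠ some (s, !b)) : reduce (L ++ [(s, b)]) = L ++ [(s, b)] := by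
  apply IsReduced.reduce_eq
  unfold FreeGroup.IsReduced
  rw [List.isChain_append]
  refine ⟨hL, List.isChain_singleton _, ?_⟩
  rintro ⟨x, c⟩ hx ⟨y, d⟩ hy
  simp only [List.head?_cons, Option.mem_def, Option.some.injEq, Prod.mk.injEq] at hy
  obtain ⟨rfl, rfl⟩ := hy
  intro hxs
  simp only at hxs
  subst hxs
  by_contra hcd
  apply h
  rw [Option.mem_def] at hx
  rw [hx]
  congr
  cases c <;> cases b <;> simp_all

omit [Fintype S] in
theorem toWord_of_inv (s : S) : ((of s)⁻¹ : FreeGroup S).toWord = [(s, false)] := by
  rw [toWord_inv, toWord_of]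
  rfl

theorem headInd_sub (s s' : S) (w : FreeGroup S) :
    headInd s w - headInd s (w * (of s')⁻¹) = if s' = s ∧ w = 1 then 1 else 0 := by
  unfold headInd
  rw [toWord_mul, toWord_of_inv]
  have hred : IsReduced w.toWord := isReduced_toWord
  by_cases hw : w = 1
  · subst hw
    rw [toWord_one]
    simp only [List.head?_nil, List.nil_append, reduce_singleton, List.head?_cons]
    by_cases hs : s' = s
    · subst hs; simp
    · simp [hs]
  · have hne : w.toWord ≠ [] := fun h => hw (toWord_eq_nil_iff.1 h)
    have hR : (if s' = s ∧ w = 1 then (1 : ℝ) else 0) = 0 := if_neg (fun h => hw h.2)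
    rw [hR, sub_eq_zero]
    by_cases hl : w.toWord.getLast? = some (s', true)
    · obtain ⟨L, hL⟩ : ∃ L, w.toWord = L ++ [(s', true)] := by
        refine ⟨w.toWord.dropLast, ?_⟩
        exact (List.dropLast_append_getLast? _ (by rw [hl]; rfl)).symm
      have hc := reduce_append_cancel s' true (hL ▸ hred)
      simp only [Bool.not_true] at hc
      rw [hL, hc]
      cases L with
      | nil => simp
      | cons a L => simp
    · have hc := reduce_append_noncancel s' false hred (by simpa using hl)
      rw [hc]
      cases hW : w.toWord with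
      | nil => exact absurd hW hne
      | cons a L => simp

theorem ball_finite (n : ℕ) : {x : FreeGroup S | x.norm ≤ n}.Finite := by
  have h := List.finite_length_le (S × Bool) n
  exact Set.Finite.preimage (toWord_injective.injOn) h

/-- The element given by the last `n` letters of the reduced word of `x`
(all of it if there are fewer). -/
def ballProj (n : ℕ) (x : FreeGroup S) : FreeGroup S := FreeGroup.mk (x.toWord.rtake n)

theorem ballProj_norm_le (n : ℕ) (x : FreeGroup S) : (ballProj n x).norm ≤ n := by
  refine norm_mk_le.trans ?_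
  rw [List.rtake, List.length_drop]
  omega

theorem ballProj_eq_self {n : ℕ} {x : FreeGroup S} (h : x.norm ≤ n) : ballProj n x = x := by
  unfold ballProj
  have : x.toWord.rtake n = x.toWord := by
    have h' : x.toWord.length - n = 0 := Nat.sub_eq_zero_of_le h
    rw [List.rtake, h', List.drop_zero]
  rw [this, mk_toWord]

omit [Fintype S] [DecidableEq S] in
theorem rtake_cons {n : ℕ} (a : S × Bool) (L : List (S × Bool)) (h : n ≤ L.length) :
    (a :: L).rtake n = L.rtake n := by
  rw [List.rtake, List.rtake, List.length_cons, Nat.succ_sub h, List.drop_succ_cons]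

omit [Fintype S] in
/-- either the head cancels or it does not -/
theorem of_mul_cases (s : S) (x : FreeGroup S) :
    (x.toWord = (s, false) :: (of s * x).toWord) ∨
      (x.toWord.head? ≠ some (s, false) ∧ (of s * x).toWord = (s, true) :: x.toWord) := by
  rw [toWord_mul, toWord_of, List.singleton_append, reduce.cons, reduce_toWord]
  cases hW : x.toWord with
  | nil => right; simp
  | cons a L =>
    obtain ⟨t, b⟩ := a
    simp only
    by_cases h : s = t ∧ true = !b
    · left
      rw [if_pos h]
      obtain ⟨rfl, hb⟩ := h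
      have : b = false := by cases b <;> simp_all
      rw [this]
    · right
      rw [if_neg h]
      refine ⟨?_, rfl⟩
      intro h'
      apply h
      simp only [List.head?_cons, Option.some.injEq, Prod.mk.injEq] at h'
      obtain ⟨rfl, rfl⟩ := h'
      simp

theorem ballProj_of_mul {n : ℕ} (s : S) {x : FreeGroup S}
    (h : ¬ (x.norm ≤ n ∧ (of s * x).norm ≤ n)) : ballProj n (of s * x) = ballProj n x := by
  unfold ballProj
  unfold FreeGroup.norm at h
  rcases of_mul_cases s x with hc | ⟨_, hc⟩
  · have hlen : x.toWord.length = (of s * x).toWord.length + 1 := by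
      rw [hc]; simp
    rw [hc, rtake_cons _ _ (by omega)]
  · have hlen : (of s * x).toWord.length = x.toWord.length + 1 := by
      rw [hc]; simp
    rw [hc, rtake_cons _ _ (by omega)]

/-- The ball of radius `n` in the tree has at least one more vertex than edges: map the edge
`(x, of s * x)` to its longer endpoint, which is `≠ 1` and whose head letter tells the edge. -/
theorem card_edges (n : ℕ) :
    Nat.card {p : FreeGroup S × S // p.1.norm ≤ n ∧ (of p.2 * p.1).norm ≤ n} + 1
      ≤ Nat.card {x : FreeGroup S // x.norm ≤ n} := by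
  classical
  have : Finite {x : FreeGroup S // x.norm ≤ n} := (ball_finite n).to_subtype
  have : Finite {p : FreeGroup S × S // p.1.norm ≤ n ∧ (of p.2 * p.1).norm ≤ n} := by
    apply Finite.of_injective (β := {x : FreeGroup S // x.norm ≤ n} × S)
      (fun p => (⟨p.1.1, p.2.1⟩, p.1.2))
    rintro ⟨⟨x, s⟩, h⟩ ⟨⟨y, t⟩, h'⟩ hxy
    simp only [Prod.mk.injEq, Subtype.mk.injEq] at hxy
    obtain ⟨rfl, rfl⟩ := hxy
    rfl
  rw [← Finite.card_option]
  let f : Option {p : FreeGroup S × S // p.1.norm ≤ n ∧ (of p.2 * p.1).norm ≤ n} →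
      {x : FreeGroup S // x.norm ≤ n} := fun o =>
    match o with
    | none => ⟨1, by simp⟩
    | some p => if p.1.1.toWord.head? = some (p.1.2, false) then ⟨p.1.1, p.2.1⟩
        else ⟨of p.1.2 * p.1.1, p.2.2⟩
  -- the value at an edge remembers the edge
  have key : ∀ p : {p : FreeGroup S × S // p.1.norm ≤ n ∧ (of p.2 * p.1).norm ≤ n},
      ((f (some p)).1.toWord.head? = some (p.1.2, false) ∧ (f (some p)).1 = p.1.1) ∨
      ((f (some p)).1.toWord.head? = some (p.1.2, true) ∧ (f (some p)).1 = of p.1.2 * p.1.1) := by
    rintro ⟨⟨x, s⟩, h⟩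
    by_cases hc : x.toWord.head? = some (s, false)
    · left
      simp only [f, if_pos hc]
      exact ⟨hc, trivial⟩
    · right
      simp only [f, if_neg hc]
      rcases of_mul_cases s x with h' | ⟨_, h'⟩
      · exfalso; apply hc; rw [h']; rfl
      · rw [h']
        exact ⟨rfl, trivial⟩
  apply Nat.card_le_card_of_injective f
  intro o o' hoo
  cases o with
  | none =>
    cases o' with
    | none => rfl
    | some p =>
      exfalso
      have h1 : (f (some p)).1 = 1 := by rw [← hoo]
      rcases key p with ⟨h2, _⟩ | ⟨h2, _⟩ <;> rw [h1, toWord_one] at h2 <;> simp at h2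
  | some q =>
    cases o' with
    | none =>
      exfalso
      have h1 : (f (some q)).1 = 1 := by rw [hoo]
      rcases key q with ⟨h2, _⟩ | ⟨h2, _⟩ <;> rw [h1, toWord_one] at h2 <;> simp at h2
    | some p =>
      have hpq : q.1 = p.1 := by
        have h0 : (f (some q)).1 = (f (some p)).1 := by rw [hoo]
        rcases key q with ⟨h1, h2⟩ | ⟨h1, h2⟩ <;> rcases key p with ⟨h3, h4⟩ | ⟨h3, h4⟩
        · rw [h0, h3] at h1
          simp only [Option.some.injEq, Prod.mk.injEq] at h1
          apply Prod.ext
          · rw [← h2, ← h4, h0]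
          · exact h1.1.symm
        · rw [h0, h3] at h1
          simp at h1
        · rw [h0, h3] at h1
          simp at h1
        · rw [h0, h3] at h1
          simp only [Option.some.injEq, Prod.mk.injEq] at h1
          have hs : p.1.2 = q.1.2 := h1.1
          apply Prod.ext
          · have : of q.1.2 * q.1.1 = of p.1.2 * p.1.1 := by rw [← h2, ← h4, h0]
            rw [hs] at this
            exact mul_left_cancel this
          · exact hs.symm
      rw [Subtype.ext hpq]

omit [Fintype S] in
/-- if the first letter of `x` is not `a` or `a⁻¹`, then `a ^ d * x` is reduced as written -/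
theorem toWord_pow_mul (a : S) (d : ℕ) (x : FreeGroup S)
    (h : ∀ y ∈ x.toWord.head?, y.1 ≠ a) :
    (of a ^ d * x).toWord = List.replicate d (a, true) ++ x.toWord := by
  rw [toWord_mul, toWord_of_pow]
  apply IsReduced.reduce_eq
  unfold FreeGroup.IsReduced
  rw [List.isChain_append]
  refine ⟨List.isChain_replicate_of_rel _ (fun _ => rfl), isReduced_toWord, ?_⟩
  intro y hy z hz hyz
  exfalso
  have hy' : y = (a, true) := by
    have := List.mem_of_getLast? hy
    exact List.eq_of_mem_replicate this
  apply h z hz
  rw [← hyz, hy']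

/-- A summable nonnegative conjugation invariant function on `F₂` vanishes off `1`. -/
theorem conj_invariant_zero (ζ : FreeGroup (Fin 2) → ℝ) (h0 : ∀ x, 0 ≤ ζ x) (hs : Summable ζ)
    (hinv : ∀ g x, ζ (g * x * g⁻¹) = ζ x) (x : FreeGroup (Fin 2)) (hx : x ≠ 1) : ζ x = 0 := by
  have _ := h0
  obtain ⟨⟨c, ε⟩, L, hW⟩ : ∃ y L, x.toWord = y :: L := by
    cases hW : x.toWord with
    | nil => exact absurd (toWord_eq_nil_iff.1 hW) hx
    | cons y L => exact ⟨y, L, rfl⟩
  obtain ⟨a, ha⟩ : ∃ a : Fin 2, c ≠ a := ⟨c + 1, by fin_cases c <;> decide⟩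
  have hhead : ∀ y ∈ x.toWord.head?, y.1 ≠ a := by
    intro y hy
    rw [hW] at hy
    simp only [List.head?_cons, Option.mem_def, Option.some.injEq] at hy
    rw [← hy]
    exact ha
  have hcomm : ∀ d : ℕ, 0 < d → of a ^ d * x ≠ x * of a ^ d := by
    intro d hd h
    have h1 := toWord_pow_mul a d x hhead
    have h2 : (x * of a ^ d).toWord = x.toWord ++ List.replicate d (a, true) := by
      have hsub := toWord_mul_sublist x (of a ^ d)
      rw [toWord_of_pow] at hsub
      apply hsub.eq_of_length
      rw [← h, h1]
      simp [add_comm]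
    rw [h, h2, hW] at h1
    obtain ⟨e, rfl⟩ : ∃ e, d = e + 1 := ⟨d - 1, by omega⟩
    rw [List.replicate_succ] at h1
    simp only [List.cons_append, List.cons.injEq, Prod.mk.injEq] at h1
    exact ha h1.1.1
  have hinj : Function.Injective fun k : ℕ => of a ^ k * x * (of a ^ k)⁻¹ := by
    have main : ∀ k d : ℕ, 0 < d → of a ^ k * x * (of a ^ k)⁻¹ ≠
        of a ^ (k + d) * x * (of a ^ (k + d))⁻¹ := by
      intro k d hd h
      apply hcomm d hd
      rw [pow_add] at h
      have : x = of a ^ d * x * (of a ^ d)⁻¹ := by
        have h' : (of a ^ k)⁻¹ * (of a ^ k * x * (of a ^ k)⁻¹) * of a ^ k =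
          (of a ^ k)⁻¹ * (of a ^ k * of a ^ d * x * (of a ^ k * of a ^ d)⁻¹) * of a ^ k := by
          rw [h]
        simpa [mul_assoc] using h'
      calc of a ^ d * x = (of a ^ d * x * (of a ^ d)⁻¹) * of a ^ d := by group
        _ = x * of a ^ d := by rw [← this]
    intro k l hkl
    rcases lt_trichotomy k l with h | h | h
    · exfalso
      obtain ⟨d, rfl⟩ := Nat.exists_eq_add_of_lt h
      exact main k (d + 1) (by omega) (by simpa [add_assoc] using hkl)
    · exact h
    · exfalso
      obtain ⟨d, rfl⟩ := Nat.exists_eq_add_of_lt h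
      exact main l (d + 1) (by omega) (by simpa [add_assoc] using hkl.symm)
  have hsum := hs.comp_injective hinj
  have heq : (ζ ∘ fun k : ℕ => of a ^ k * x * (of a ^ k)⁻¹) = fun _ : ℕ => ζ x := by
    funext k
    exact hinv _ _
  rw [heq] at hsum
  exact (summable_const_iff _).1 hsum

end

end Pool.Agent.MP_5ec4a4_an
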