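import Pool.Agent.MP_5ec4a4_an.Reps
import Pool.Agent.MP_5ec4a4_an.Words

set_option autoImplicit false
set_option linter.unusedSectionVars false

/-! Task F: scalar lemmas and the `II₁` factor. -/

namespace Pool.Agent.MP_5ec4a4_an

open scoped InnerProductSpace ENNReal

variable {H : Type*} [NormedAddCommGroup H] [InnerProductSpace ℂ H] [CompleteSpace H]

/-- Elements of the commutant, as operators commuting with everything in `M`. -/
theorem mem_commutant_iff_commute (M : VonNeumannAlgebra H) (z : H →L[ℂ] H) :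
    z ∈ M.commutant ↔ ∀ g ∈ M, Commute g z := by
  rw [VonNeumannAlgebra.mem_commutant_iff]
  exact Iff.rfl

/-- `z ∈ M` iff `z` commutes with everything in the commutant. -/
theorem mem_iff_commute (M : VonNeumannAlgebra H) (z : H →L[ℂ] H) :
    z ∈ M ↔ ∀ g ∈ M.commutant, Commute g z := by
  rw [← mem_commutant_iff_commute, VonNeumannAlgebra.commutant_commutant]

/-- The range projection. -/
noncomputable def rangeProj (Z : H →L[ℂ] H) : H →L[ℂ] H :=
  (LinearMap.range (Z : H →ₗ[ℂ] H)).topologicalClosure.starProjection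

theorem rangeProj_isStarProjection (Z : H →L[ℂ] H) : IsStarProjection (rangeProj Z) :=
  isStarProjection_starProjection

theorem rangeProj_mul (Z : H →L[ℂ] H) : rangeProj Z * Z = Z := by
  ext x
  change (LinearMap.range (Z : H →ₗ[ℂ] H)).topologicalClosure.starProjection (Z x) = Z x
  rw [Submodule.starProjection_eq_self_iff]
  exact Submodule.le_topologicalClosure _ ⟨x, rfl⟩

theorem mem_range_rangeProj (Z : H →L[ℂ] H) (x : H) :
    x ∈ (LinearMap.range (Z : H →ₗ[ℂ] H)).topologicalClosure ↔ rangeProj Z x = x :=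
  Submodule.starProjection_eq_self_iff.symm

theorem rangeProj_mem (M : VonNeumannAlgebra H) (Z : H →L[ℂ] H) (hZ : Z ∈ M) :
    rangeProj Z ∈ M := by
  rw [VonNeumannAlgebra.IsStarProjection.mem_iff (rangeProj_isStarProjection Z)]
  intro y hy
  have hcomm : Commute y Z := (mem_iff_commute M Z).1 hZ y hy
  rw [rangeProj, Submodule.range_starProjection, Module.End.mem_invtSubmodule]
  intro x hx
  rw [Submodule.mem_comap]
  refine map_mem_closure (f := y) y.continuous hx ?_
  rintro _ ⟨v, rfl⟩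
  refine ⟨y v, ?_⟩
  exact (congrArg (fun A : H →L[ℂ] H => A v) hcomm.eq).symm

theorem mul_rangeProj {p Z : H →L[ℂ] H} (h : p * Z = Z) : p * rangeProj Z = rangeProj Z := by
  ext x
  have hx : rangeProj Z x ∈ (LinearMap.range (Z : H →ₗ[ℂ] H)).topologicalClosure := by
    exact Submodule.starProjection_apply_mem _ x
  have hcl : IsClosed {y : H | p y = y} := isClosed_eq p.continuous continuous_id
  have hsub : ((LinearMap.range (Z : H →ₗ[ℂ] H) : Submodule ℂ H) : Set H) ⊆ {y : H | p y = y} := by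
    rintro _ ⟨v, rfl⟩
    exact congrArg (fun A : H →L[ℂ] H => A v) h
  exact closure_minimal hsub hcl hx

theorem rangeProj_apply_eq_zero {Z : H →L[ℂ] H} (hZ : IsSelfAdjoint Z) {w : H} (hw : Z w = 0) :
    rangeProj Z w = 0 := by
  rw [rangeProj, Submodule.starProjection_apply_eq_zero_iff, Submodule.orthogonal_closure,
    Submodule.mem_orthogonal]
  rintro _ ⟨v, rfl⟩
  have h1 : ⟪Z v, w⟫_ℂ = ⟪v, Z w⟫_ℂ := by
    conv_lhs => rw [← hZ.star_eq]
    exact ContinuousLinearMap.adjoint_inner_left Z w v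
  change ⟪Z v, w⟫_ℂ = 0
  rw [h1, hw, inner_zero_right]

/-- Key step: no zero divisors in the corner of a minimal projection. -/
theorem minimal_eq_zero (M : VonNeumannAlgebra H) (p : H →L[ℂ] H)
    (hmin : ∀ q ∈ M, IsStarProjection q → p * q = q → q = 0 ∨ q = p)
    (Z : H →L[ℂ] H) (hZM : Z ∈ M) (hZ : IsSelfAdjoint Z) (hpZ : p * Z = Z) (w : H)
    (hpw : p w = w) (hw : w ≠ 0) (hZw : Z w = 0) : Z = 0 := by
  rcases hmin _ (rangeProj_mem M Z hZM) (rangeProj_isStarProjection Z) (mul_rangeProj hpZ) with h | h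
  · have := rangeProj_mul Z
    rw [h, zero_mul] at this
    exact this.symm
  · have := rangeProj_apply_eq_zero hZ hZw
    rw [h, hpw] at this
    exact absurd this hw

theorem nonneg_apply_eq_zero {A : H →L[ℂ] H} (hA : 0 ≤ A) {w : H} (hw : ⟪w, A w⟫_ℂ = 0) :
    A w = 0 := by
  obtain ⟨B, rfl⟩ := CStarAlgebra.nonneg_iff_eq_star_mul_self.1 hA
  have h1 : ⟪w, (star B * B) w⟫_ℂ = ⟪B w, B w⟫_ℂ := ContinuousLinearMap.adjoint_inner_right B w (B w)
  rw [h1, inner_self_eq_zero] at hw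
  change star B (B w) = 0
  rw [hw, map_zero]

theorem exists_pos_neg (Z : H →L[ℂ] H) (hZ : IsSelfAdjoint Z) :
    ∃ P N : H →L[ℂ] H, P - N = Z ∧ P * N = 0 ∧ N * P = 0 ∧ 0 ≤ P ∧ 0 ≤ N ∧
      (∀ g, Commute g Z → Commute g P) ∧ (∀ g, Commute g Z → Commute g N) :=
  ⟨Z⁺, Z⁻, CFC.posPart_sub_negPart Z hZ, CFC.posPart_mul_negPart Z, CFC.negPart_mul_posPart Z,
    CFC.posPart_nonneg Z, CFC.negPart_nonneg Z, fun _ hg => (hg.symm.cfcₙ_real _).symm,
    fun _ hg => (hg.symm.cfcₙ_real _).symm⟩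

/-- If `e` is a projection commuting with `Z`, `e Z = 0`, `P - N = Z`, `N P = 0`, then `e P = 0`. -/
theorem proj_mul_pos_eq_zero {e P Q Z : H →L[ℂ] H} (he : IsSelfAdjoint e) (hee : e * e = e)
    (hP : IsSelfAdjoint P) (hPQ : P * P = Z * Q) (heZ : e * Z = 0) (hc : Commute e P) :
    e * P = 0 := by
  rw [← CStarRing.star_mul_self_eq_zero_iff, star_mul, he.star_eq, hP.star_eq]
  have h1 : P * e * (e * P) = e * (P * P) := by
    rw [mul_assoc, ← mul_assoc e e, hee, ← mul_assoc, ← hc.eq, mul_assoc]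
  rw [h1, hPQ, ← mul_assoc, heZ, zero_mul]

/-- Self-adjoint case of `minimal_scalar`. -/
theorem minimal_scalar_sa (M : VonNeumannAlgebra H) (p : H →L[ℂ] H) (hpM : p ∈ M)
    (hp : IsStarProjection p)
    (hmin : ∀ q ∈ M, IsStarProjection q → p * q = q → q = 0 ∨ q = p)
    (Y : H →L[ℂ] H) (hY : Y ∈ M) (hYsa : IsSelfAdjoint Y) (hpY : p * Y = Y) (hYp : Y * p = Y) :
    ∃ c : ℂ, Y = c • p := by
  by_cases hp0 : p = 0
  · refine ⟨0, ?_⟩
    rw [← hpY, hp0, zero_mul, smul_zero]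
  obtain ⟨w₀, hw₀⟩ : ∃ w, p w ≠ 0 := by
    by_contra hcon
    push Not at hcon
    exact hp0 (ContinuousLinearMap.ext hcon)
  have hpp : p * p = p := hp.isIdempotentElem.eq
  obtain ⟨w, hw, hpw⟩ : ∃ w, w ≠ 0 ∧ p w = w :=
    ⟨p w₀, hw₀, congrArg (fun A : H →L[ℂ] H => A w₀) hpp⟩
  set c : ℂ := ⟪w, Y w⟫_ℂ / (‖w‖ : ℂ) ^ 2 with hc
  have hcreal : star c = c := by
    have him : (starRingEnd ℂ) ⟪w, Y w⟫_ℂ = ⟪w, Y w⟫_ℂ := by
      rw [inner_conj_symm]
      conv_lhs => rw [← hYsa.star_eq]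
      exact ContinuousLinearMap.adjoint_inner_left Y w w
    rw [hc]
    change (starRingEnd ℂ) _ = _
    rw [map_div₀, him, map_pow, Complex.conj_ofReal]
  obtain ⟨Z, hZdef⟩ : ∃ Z : H →L[ℂ] H, Z = Y - c • p := ⟨_, rfl⟩
  have hZsa : IsSelfAdjoint Z := by
    rw [hZdef, isSelfAdjoint_iff, star_sub, star_smul, hYsa.star_eq, hp.isSelfAdjoint.star_eq,
      hcreal]
  have hZM : Z ∈ M := by
    rw [mem_iff_commute, hZdef]
    intro g hg
    have h1 := (mem_iff_commute M Y).1 hY g hg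
    have h2 := (mem_iff_commute M p).1 hpM g hg
    exact h1.sub_right (h2.smul_right _)
  have hpZ : p * Z = Z := by
    rw [hZdef, mul_sub, hpY, mul_smul_comm, hpp]
  have hZp : Z * p = Z := by
    rw [hZdef, sub_mul, hYp, smul_mul_assoc, hpp]
  have hcommpZ : Commute p Z := by
    rw [commute_iff_eq, hpZ, hZp]
  have hwZ : ⟪w, Z w⟫_ℂ = 0 := by
    have hwn : (‖w‖ : ℂ) ^ 2 ≠ 0 := by
      have := norm_ne_zero_iff.2 hw
      exact pow_ne_zero _ (by exact_mod_cast this)
    have h1 : Z w = Y w - c • w := by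
      rw [hZdef]
      simp [hpw]
    rw [h1, inner_sub_right, inner_smul_right, inner_self_eq_norm_sq_to_K, hc]
    rw [sub_eq_zero]
    exact (div_mul_cancel₀ _ hwn).symm
  -- positive and negative parts
  obtain ⟨P, N, hsub, hpn, hnp, hposnn, hnegnn, hPc, hNc⟩ := exists_pos_neg Z hZsa
  have hposM : P ∈ M := by
    rw [mem_iff_commute]
    intro g hg
    exact hPc _ ((mem_iff_commute M Z).1 hZM g hg)
  have hnegM : N ∈ M := by
    rw [mem_iff_commute]
    intro g hg
    exact hNc _ ((mem_iff_commute M Z).1 hZM g hg)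
  have hpossa : IsSelfAdjoint P := IsSelfAdjoint.of_nonneg hposnn
  have hnegsa : IsSelfAdjoint N := IsSelfAdjoint.of_nonneg hnegnn
  -- p fixes both parts
  have he : IsSelfAdjoint (1 - p) := (IsSelfAdjoint.one _).sub hp.isSelfAdjoint
  have hee : (1 - p) * (1 - p) = 1 - p := by
    rw [mul_sub, sub_mul, sub_mul, hpp]; simp
  have heZ : (1 - p) * Z = 0 := by rw [sub_mul, hpZ, one_mul, sub_self]
  have hecomm : Commute (1 - p) Z := (Commute.one_left Z).sub_left hcommpZ
  have hpos2 : (1 - p) * P = 0 := by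
    refine proj_mul_pos_eq_zero he hee hpossa (Q := P) (Z := Z) ?_ heZ (hPc _ hecomm)
    rw [← hsub, sub_mul, hnp, sub_zero]
  have hneg2 : (1 - p) * N = 0 := by
    refine proj_mul_pos_eq_zero he hee hnegsa (Q := -N) (Z := Z) ?_ heZ (hNc _ hecomm)
    rw [← hsub, sub_mul, mul_neg, hpn, neg_zero, zero_sub, mul_neg, neg_neg]
  have hpposZ : p * P = P := by
    rw [sub_mul, one_mul, sub_eq_zero] at hpos2
    exact hpos2.symm
  have hpnegZ : p * N = N := by
    rw [sub_mul, one_mul, sub_eq_zero] at hneg2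
    exact hneg2.symm
  have hZ0 : Z = 0 := by
    by_cases hneg : N = 0
    · have hZpos : 0 ≤ Z := by
        rw [← hsub, hneg, sub_zero]; exact hposnn
      exact minimal_eq_zero M p hmin Z hZM hZsa hpZ w hpw hw (nonneg_apply_eq_zero hZpos hwZ)
    · obtain ⟨x, hx⟩ : ∃ x, N x ≠ 0 := by
        by_contra hcon
        push Not at hcon
        exact hneg (ContinuousLinearMap.ext hcon)
      have hpos0 : P = 0 := by
        refine minimal_eq_zero M p hmin _ hposM hpossa hpposZ (N x) ?_ hx ?_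
        · exact congrArg (fun A : H →L[ℂ] H => A x) hpnegZ
        · exact congrArg (fun A : H →L[ℂ] H => A x) hpn
      have hZneg : Z = - N := by rw [← hsub, hpos0, zero_sub]
      have h2 : ⟪w, N w⟫_ℂ = 0 := by
        rw [hZneg] at hwZ
        simpa [inner_neg_right] using hwZ
      have h3 := nonneg_apply_eq_zero hnegnn h2
      refine minimal_eq_zero M p hmin Z hZM hZsa hpZ w hpw hw ?_
      rw [hZneg]
      simp [h3]
  exact ⟨c, by rw [hZdef, sub_eq_zero] at hZ0; exact hZ0⟩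

/-- If `p` is a minimal projection of `M` then `p M p = ℂ p`. -/
theorem minimal_scalar (M : VonNeumannAlgebra H) (p : H →L[ℂ] H) (hpM : p ∈ M)
    (hp : IsStarProjection p)
    (hmin : ∀ q ∈ M, IsStarProjection q → p * q = q → q = 0 ∨ q = p)
    (X : H →L[ℂ] H) (hX : X ∈ M) : ∃ c : ℂ, p * X * p = c • p := by
  have hpp : p * p = p := hp.isIdempotentElem.eq
  have hps : star p = p := hp.isSelfAdjoint.star_eq
  have hXs : star X ∈ M := star_mem hX
  -- real and imaginary part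
  have key : ∀ A : H →L[ℂ] H, A ∈ M → IsSelfAdjoint A → ∃ c : ℂ, p * A * p = c • p := by
    intro A hA hAs
    refine minimal_scalar_sa M p hpM hp hmin (p * A * p) (mul_mem (mul_mem hpM hA) hpM) ?_ ?_ ?_
    · rw [isSelfAdjoint_iff, star_mul, star_mul, hps, hAs.star_eq, mul_assoc]
    · rw [← mul_assoc, ← mul_assoc, hpp]
    · rw [mul_assoc, hpp]
  obtain ⟨c₁, h₁⟩ := key (X + star X) (add_mem hX hXs) (IsSelfAdjoint.add_star_self X)
  have hI : Complex.I • (X - star X) ∈ M := by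
    rw [mem_iff_commute]
    intro g hg
    exact (((mem_iff_commute M X).1 hX g hg).sub_right ((mem_iff_commute M _).1 hXs g hg)).smul_right _
  obtain ⟨c₂, h₂⟩ := key (Complex.I • (X - star X)) hI (by
    rw [isSelfAdjoint_iff, star_smul, star_sub, star_star]
    simp only [Complex.star_def, Complex.conj_I, neg_smul, ← smul_neg, neg_sub])
  refine ⟨(c₁ - Complex.I * c₂) / 2, ?_⟩
  have h3 : X = (2 : ℂ)⁻¹ • ((X + star X) - Complex.I • (Complex.I • (X - star X))) := by
    rw [smul_smul, Complex.I_mul_I, neg_smul, one_smul, sub_neg_eq_add]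
    have : X + star X + (X - star X) = (2 : ℂ) • X := by
      rw [two_smul]; abel
    rw [this, smul_smul, inv_mul_cancel₀ (two_ne_zero), one_smul]
  calc p * X * p = (2 : ℂ)⁻¹ • (p * (X + star X) * p
        - Complex.I • (p * (Complex.I • (X - star X)) * p)) := by
        conv_lhs => rw [h3]
        rw [mul_smul_comm, smul_mul_assoc, mul_sub, sub_mul,
          mul_smul_comm Complex.I p (Complex.I • (X - star X)), smul_mul_assoc Complex.I]
    _ = ((c₁ - Complex.I * c₂) / 2) • p := by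
        rw [h₁, h₂, smul_smul, ← sub_smul, smul_smul]
        congr 1
        ring

/-- The commutant of `{S, S*}` as a von Neumann algebra. -/
noncomputable def commStar (S : H →L[ℂ] H) : VonNeumannAlgebra H where
  toStarSubalgebra := StarSubalgebra.centralizer ℂ ({S} : Set (H →L[ℂ] H))
  centralizer_centralizer' := by
    have h : ((StarSubalgebra.centralizer ℂ ({S} : Set (H →L[ℂ] H)) : StarSubalgebra ℂ (H →L[ℂ] H)) :
        Set (H →L[ℂ] H)) = Set.centralizer ({S} ∪ star {S}) := by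
      simp
    change Set.centralizer (Set.centralizer
      ((StarSubalgebra.centralizer ℂ ({S} : Set (H →L[ℂ] H)) : StarSubalgebra ℂ (H →L[ℂ] H)) :
        Set (H →L[ℂ] H))) = _
    rw [h]
    simp

theorem mem_commStar (S Z : H →L[ℂ] H) : Z ∈ commStar S ↔ Commute Z S ∧ Commute Z (star S) := by
  have h : Z ∈ commStar S ↔ Z ∈ StarSubalgebra.centralizer ℂ ({S} : Set (H →L[ℂ] H)) := Iff.rfl
  rw [h, StarSubalgebra.mem_centralizer_iff]
  simp only [Set.mem_singleton_iff, forall_eq]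
  rw [commute_iff_eq, commute_iff_eq]
  constructor
  · rintro ⟨h1, h2⟩
    exact ⟨h1.symm, h2.symm⟩
  · rintro ⟨h1, h2⟩
    exact ⟨h1.symm, h2.symm⟩

/-- Schur: the commutant of an irreducible operator is scalar. -/
theorem irreducible_scalar (S : H →L[ℂ] H) (hS : IsIrreducible S) (X : H →L[ℂ] H)
    (h1 : Commute X S) (h2 : Commute X (star S)) : ∃ c : ℂ, X = c • (1 : H →L[ℂ] H) := by
  obtain ⟨c, hc⟩ := minimal_scalar (commStar S) 1 (one_mem _) (IsStarProjection.one _) (by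
    intro q hq hqp _
    exact hS.2 q hqp ((mem_commStar S q).1 hq).1.eq) X ((mem_commStar S X).2 ⟨h1, h2⟩)
  exact ⟨c, by simpa using hc⟩

section trace

variable {G : Type*} [Group G]

theorem apply_eq_Lam (b : HilbertBasis G ℂ H) (X : H →L[ℂ] H) (hX : ∀ g, Commute X (Lam b g))
    (g : G) : X (b g) = Lam b g (X (b 1)) := by
  have h := congrArg (fun A : H →L[ℂ] H => A (b 1)) (hX g).eq
  simpa using h

theorem inner_Lam (b : HilbertBasis G ℂ H) (g : G) (x y : H) :
    ⟪x, Lam b g y⟫_ℂ = ⟪Lam b g⁻¹ x, y⟫_ℂ := by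
  rw [← star_Lam]
  exact (ContinuousLinearMap.adjoint_inner_left (Lam b g) y x).symm

theorem inner_Rho (b : HilbertBasis G ℂ H) (g : G) (x y : H) :
    ⟪x, Rho b g y⟫_ℂ = ⟪Rho b g⁻¹ x, y⟫_ℂ := by
  rw [← star_Rho]
  exact (ContinuousLinearMap.adjoint_inner_left (Rho b g) y x).symm

theorem trace_formula (b : HilbertBasis G ℂ H)
    (X Y : H →L[ℂ] H) (hX : ∀ g, Commute X (Lam b g)) :
    ⟪b 1, X (Y (b 1))⟫_ℂ = ∑' g : G, ⟪b g⁻¹, X (b 1)⟫_ℂ * ⟪b g, Y (b 1)⟫_ℂ := by
  have h1 : ⟪b 1, X (Y (b 1))⟫_ℂ = ⟪star X (b 1), Y (b 1)⟫_ℂ :=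
    (ContinuousLinearMap.adjoint_inner_left X (Y (b 1)) (b 1)).symm
  rw [h1, ← b.tsum_inner_mul_inner]
  congr 1
  ext g
  congr 1
  have h2 : ⟪star X (b 1), b g⟫_ℂ = ⟪b 1, X (b g)⟫_ℂ :=
    ContinuousLinearMap.adjoint_inner_left X (b g) (b 1)
  rw [h2, apply_eq_Lam b X hX, inner_Lam, Lam_apply, mul_one]

/-- Tracial property for operators commuting with all left translations. -/
theorem trace_comm_of_commute_Lam (b : HilbertBasis G ℂ H)
    (X Y : H →L[ℂ] H) (hX : ∀ g, Commute X (Lam b g)) (hY : ∀ g, Commute Y (Lam b g)) :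
    ⟪b 1, X (Y (b 1))⟫_ℂ = ⟪b 1, Y (X (b 1))⟫_ℂ := by
  rw [trace_formula b X Y hX, trace_formula b Y X hY, ← (Equiv.inv G).tsum_eq]
  congr 1
  ext g
  simp [mul_comm]

end trace


/-- A bound for sums of almost orthogonal vectors. -/
theorem almost_orthogonal_bound (v : ℕ → H) (e : H) (he : ‖e‖ = 1) (τ δ : ℝ) (hτ : 0 < τ)
    (h1 : ∀ i, ⟪v i, e⟫_ℂ = τ) (h2 : ∀ i, ⟪v i, v i⟫_ℂ = τ)
    (h3 : ∀ i j, i ≠ j → ‖⟪v i, v j⟫_ℂ‖ ≤ δ * τ) (hδ : 0 ≤ δ) (k : ℕ) (hk : 0 < k) :
    k * τ ≤ 1 + k * δ := by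
  set V : H := ∑ i ∈ Finset.range k, v i with hV
  have hk' : (0 : ℝ) < k := by exact_mod_cast hk
  have h4 : ⟪V, e⟫_ℂ = (k * τ : ℝ) := by
    rw [hV, sum_inner]
    simp [h1]
  have h5 : (k : ℝ) * τ ≤ ‖V‖ := by
    have h := norm_inner_le_norm (𝕜 := ℂ) V e
    rw [h4, he, mul_one, Complex.norm_real, Real.norm_of_nonneg (by positivity)] at h
    exact h
  have h6 : ‖V‖ ^ 2 ≤ k * τ + k ^ 2 * (δ * τ) := by
    have h7 : ‖V‖ ^ 2 = ‖⟪V, V⟫_ℂ‖ := by
      rw [inner_self_eq_norm_sq_to_K]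
      simp
    rw [h7, hV, sum_inner]
    refine (norm_sum_le _ _).trans ?_
    have h8 : ∀ i ∈ Finset.range k, ‖⟪v i, ∑ j ∈ Finset.range k, v j⟫_ℂ‖ ≤ τ + k * (δ * τ) := by
      intro i hi
      rw [inner_sum]
      refine (norm_sum_le _ _).trans ?_
      rw [← Finset.add_sum_erase _ _ hi]
      refine add_le_add ?_ ?_
      · rw [h2, Complex.norm_real, Real.norm_of_nonneg hτ.le]
      · refine (Finset.sum_le_card_nsmul _ _ (δ * τ) ?_).trans ?_
        · intro j hj
          exact h3 i j (Finset.ne_of_mem_erase hj).symm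
        · rw [nsmul_eq_mul]
          have : ((Finset.range k).erase i).card ≤ k := by
            rw [Finset.card_erase_of_mem hi, Finset.card_range]
            omega
          have h9 : (((Finset.range k).erase i).card : ℝ) ≤ k := by exact_mod_cast this
          exact mul_le_mul_of_nonneg_right h9 (by positivity)
    refine (Finset.sum_le_card_nsmul _ _ _ h8).trans ?_
    rw [Finset.card_range, nsmul_eq_mul]
    apply le_of_eq
    ring
  have h10 : ((k : ℝ) * τ) ^ 2 ≤ k * τ + k ^ 2 * (δ * τ) :=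
    (pow_le_pow_left₀ (by positivity) h5 2).trans h6
  have h11 : (k * τ) * (k * τ) ≤ (k * τ) * (1 + k * δ) := by nlinarith
  exact le_of_mul_le_mul_left h11 (by positivity)

/-- Sequences in an infinite group whose quotients avoid a finite set. -/
theorem exists_seq_avoid {G : Type*} [Group G] [Infinite G] (F : Set G) (hF : F.Finite) :
    ∃ g : ℕ → G, ∀ m n, m < n → (g m)⁻¹ * g n ∉ F := by
  classical
  obtain ⟨f, -, hf⟩ := exists_seq_of_forall_finset_exists (fun _ : G => True)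
    (fun x y => x⁻¹ * y ∉ F) (by
      intro s _
      obtain ⟨y, hy⟩ := Infinite.exists_notMem_finset
        (s.biUnion fun x => hF.toFinset.image fun z => x * z)
      refine ⟨y, trivial, ?_⟩
      intro x hx hmem
      apply hy
      rw [Finset.mem_biUnion]
      refine ⟨x, hx, ?_⟩
      rw [Finset.mem_image]
      exact ⟨x⁻¹ * y, hF.mem_toFinset.2 hmem, by group⟩)
  exact ⟨f, hf⟩

theorem no_min_aux {G : Type*} [Group G] [Infinite G] (b : HilbertBasis G ℂ H) (p : H →L[ℂ] H)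
    (hp : IsStarProjection p) (hp0 : p ≠ 0) (hcomm : ∀ g, Commute p (Lam b g))
    (hc : ∀ g, ∃ c : ℂ, p * Rho b g * p = c • p) : False := by
  have hpp : ∀ x, p (p x) = p x := fun x =>
    congrArg (fun A : H →L[ℂ] H => A x) hp.isIdempotentElem.eq
  have hps : ∀ x y : H, ⟪p x, y⟫_ℂ = ⟪x, p y⟫_ℂ := by
    intro x y
    conv_lhs => rw [← hp.isSelfAdjoint.star_eq]
    exact ContinuousLinearMap.adjoint_inner_left p y x
  choose c hc using hc
  set τ : ℝ := ‖p (b 1)‖ ^ 2 with hτdef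
  have hpb : ∀ g, p (b g) = Lam b g (p (b 1)) := apply_eq_Lam b p hcomm
  have hb1 : p (b 1) ≠ 0 := by
    intro h0
    apply hp0
    apply hb_ext b
    intro g
    rw [hpb, h0, map_zero]; rfl
  have hτ : 0 < τ := by positivity
  have hpbτ : ∀ g, ⟪p (b g), p (b g)⟫_ℂ = τ := by
    intro g
    rw [inner_self_eq_norm_sq_to_K, hpb, Lam_norm, hτdef]
    push_cast
    rfl
  have hnorm : ∀ g, ‖p (b g)‖ ^ 2 = τ := by
    intro g
    rw [hpb, Lam_norm]
  -- coefficients
  have hcτ : ∀ g, c g * τ = ⟪b g, p (b 1)⟫_ℂ := by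
    intro g
    have h1 : ⟪b 1, p ((Rho b g * p) (b 1))⟫_ℂ = c g * τ := by
      have h := congrArg (fun A : H →L[ℂ] H => A (b 1)) (hc g)
      have h' : p ((Rho b g * p) (b 1)) = c g • p (b 1) := h
      rw [h', inner_smul_right, ← hpbτ 1, hps, hpp]
    have h2 := trace_comm_of_commute_Lam b p (Rho b g * p) hcomm
      (fun h => (Lam_commute_Rho b h g).symm.mul_left (hcomm h))
    rw [h1] at h2
    rw [h2]
    change ⟪b 1, Rho b g (p (p (b 1)))⟫_ℂ = _
    rw [hpp, inner_Rho, Rho_apply]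
    simp
  -- choice of the sequence
  have hF : {g : G | ¬ ‖⟪b g, p (b 1)⟫_ℂ‖ ^ 2 < (τ / 2 * τ) ^ 2}.Finite := by
    have h1 := (b.orthonormal.inner_products_summable (p (b 1))).tendsto_cofinite_zero
    have h2 := h1.eventually_lt_const (u := (τ / 2 * τ) ^ 2) (by positivity)
    exact Filter.eventually_cofinite.1 h2
  obtain ⟨g, hg⟩ := exists_seq_avoid _ hF
  have hcg : ∀ m n, m < n → ‖c ((g m)⁻¹ * g n)‖ ≤ τ / 2 := by
    intro m n hmn
    have h1 := hg m n hmn
    simp only [Set.mem_ofPred_eq, not_not] at h1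
    have h2 : ‖⟪b ((g m)⁻¹ * g n), p (b 1)⟫_ℂ‖ < τ / 2 * τ :=
      lt_of_pow_lt_pow_left₀ 2 (by positivity) h1
    rw [← hcτ, norm_mul, Complex.norm_real, Real.norm_of_nonneg hτ.le] at h2
    exact (lt_of_mul_lt_mul_right h2 hτ.le).le
  -- the vectors
  set v : ℕ → H := fun i => Rho b (g i) (p (b (g i))) with hv
  have hv1 : ∀ i, ⟪v i, b 1⟫_ℂ = τ := by
    intro i
    have h1 : ⟪Rho b (g i) (p (b (g i))), b 1⟫_ℂ = ⟪p (b (g i)), Rho b (g i)⁻¹ (b 1)⟫_ℂ := by
      rw [inner_Rho, inv_inv]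
    rw [hv]
    simp only
    rw [h1, Rho_apply, inv_inv, one_mul, ← hpbτ (g i)]
    conv_rhs => rw [← hps, hpp]
  have hv2 : ∀ i, ⟪v i, v i⟫_ℂ = τ := by
    intro i
    rw [inner_self_eq_norm_sq_to_K, hv]
    simp only
    rw [Rho_norm, ← hnorm (g i)]
    push_cast
    rfl
  have hv3' : ∀ i j, i < j → ‖⟪v i, v j⟫_ℂ‖ ≤ τ / 2 * τ := by
    intro i j hij
    have h1 : ⟪v i, v j⟫_ℂ = c ((g i)⁻¹ * g j) * ⟪p (b (g i)), p (b (g j))⟫_ℂ := by
      rw [hv]
      simp only
      have h2 : ⟪Rho b (g i) (p (b (g i))), Rho b (g j) (p (b (g j)))⟫_ℂ =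
          ⟪p (b (g i)), Rho b ((g i)⁻¹ * g j) (p (b (g j)))⟫_ℂ := by
        rw [Rho_mul]
        change _ = ⟪p (b (g i)), Rho b (g i)⁻¹ (Rho b (g j) (p (b (g j))))⟫_ℂ
        rw [inner_Rho b (g i)⁻¹, inv_inv]
      have h3 := congrArg (fun A : H →L[ℂ] H => A (b (g j))) (hc ((g i)⁻¹ * g j))
      have h3' : p (Rho b ((g i)⁻¹ * g j) (p (b (g j)))) = c ((g i)⁻¹ * g j) • p (b (g j)) := h3
      rw [h2, hps, h3', inner_smul_right, hps, hpp]
    rw [h1, norm_mul]
    have h4 : ‖⟪p (b (g i)), p (b (g j))⟫_ℂ‖ ≤ τ := by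
      refine (norm_inner_le_norm _ _).trans ?_
      have e1 : ‖p (b (g i))‖ = ‖p (b 1)‖ := by rw [hpb, Lam_norm]
      have e2 : ‖p (b (g j))‖ = ‖p (b 1)‖ := by rw [hpb, Lam_norm]
      rw [e1, e2, hτdef, sq]
    exact mul_le_mul (hcg i j hij) h4 (norm_nonneg _) (by positivity)
  have hv3 : ∀ i j, i ≠ j → ‖⟪v i, v j⟫_ℂ‖ ≤ τ / 2 * τ := by
    intro i j hij
    rcases lt_or_gt_of_ne hij with h | h
    · exact hv3' i j h
    · rw [← inner_conj_symm, RCLike.norm_conj]
      exact hv3' j i h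
  obtain ⟨k, hk⟩ := exists_nat_gt (2 / τ)
  have hk0 : 0 < k := by
    have : (0 : ℝ) < k := lt_trans (by positivity) hk
    exact_mod_cast this
  have hfin := almost_orthogonal_bound v (b 1) (b.orthonormal.1 1) τ (τ / 2) hτ hv1 hv2 hv3
    (by positivity) k hk0
  rw [div_lt_iff₀ hτ] at hk
  linarith

/-- Near-orthogonal translates argument. -/
theorem no_min (b : HilbertBasis (FreeGroup (Fin 2)) ℂ H) (p : H →L[ℂ] H)
    (hp : IsStarProjection p) (hp0 : p ≠ 0) (hcomm : ∀ g, Commute p (Lam b g))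
    (hc : ∀ g, ∃ c : ℂ, p * Rho b g * p = c • p) : False :=
  no_min_aux b p hp hp0 hcomm hc


section invBasis

variable {G : Type*} [Group G]

/-- The basis `x ↦ b x⁻¹`. -/
noncomputable def invHB (b : HilbertBasis G ℂ H) : HilbertBasis G ℂ H :=
  reindexHB b (Equiv.inv G)

theorem invHB_apply (b : HilbertBasis G ℂ H) (x : G) : invHB b x = b x⁻¹ := by
  simp [invHB]

theorem Lam_invHB (b : HilbertBasis G ℂ H) (g : G) : Lam (invHB b) g = Rho b g := by
  apply hb_ext (invHB b)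
  intro x
  rw [Lam_apply, invHB_apply, invHB_apply, Rho_apply, mul_inv_rev]

theorem Rho_invHB (b : HilbertBasis G ℂ H) (g : G) : Rho (invHB b) g = Lam b g := by
  apply hb_ext (invHB b)
  intro x
  rw [Rho_apply, invHB_apply, invHB_apply, Lam_apply, mul_inv_rev, inv_inv]

end invBasis

/-- The von Neumann algebra with commutant `{λ(g)}'` is a type `II₁` factor. -/
theorem isTypeIIOneFactor_of_commutant (b : HilbertBasis (FreeGroup (Fin 2)) ℂ H)
    (M : VonNeumannAlgebra H)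
    (hM : ∀ X : H →L[ℂ] H, X ∈ M.commutant ↔ ∀ g, Commute X (Lam b g)) :
    IsTypeIIOneFactor M := by
  have hRho : ∀ g, Rho b g ∈ M.commutant := fun g =>
    (hM _).2 fun h => (Lam_commute_Rho b h g).symm
  have hMR : ∀ X ∈ M, ∀ g, Commute X (Lam (invHB b) g) := by
    intro X hX g
    rw [Lam_invHB]
    exact ((mem_iff_commute M X).1 hX _ (hRho g)).symm
  have hLam : ∀ g, Lam b g ∈ M := fun g => (mem_iff_commute M _).2 fun X hX => (hM X).1 hX g
  refine ⟨?_, ?_, ?_⟩
  · -- trivial centre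
    intro z hz hz'
    have hzL := (hM z).1 hz'
    have hzR : ∀ g, Commute z (Rho b g) := fun g => ((mem_iff_commute M z).1 hz _ (hRho g)).symm
    have hconj : ∀ g x, ⟪b (g * x * g⁻¹), z (b 1)⟫_ℂ = ⟪b x, z (b 1)⟫_ℂ := by
      intro g x
      have h1 : z (b 1) = Lam b g (Rho b g (z (b 1))) := by
        have e1 := congrArg (fun A : H →L[ℂ] H => A (b 1)) (hzR g).eq
        have e1' : z (Rho b g (b 1)) = Rho b g (z (b 1)) := e1
        have e2 := congrArg (fun A : H →L[ℂ] H => A (Rho b g (b 1))) (hzL g).eq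
        have e2' : z (Lam b g (Rho b g (b 1))) = Lam b g (z (Rho b g (b 1))) := e2
        rw [← e1', ← e2', Rho_apply, Lam_apply, one_mul, mul_inv_cancel]
      conv_lhs => rw [h1]
      rw [inner_Lam, inner_Rho, Lam_apply, Rho_apply]
      congr 2
      group
    have hsum : Summable fun x => ‖⟪b x, z (b 1)⟫_ℂ‖ ^ 2 :=
      b.orthonormal.inner_products_summable (z (b 1))
    have hzero : ∀ x, x ≠ 1 → ⟪b x, z (b 1)⟫_ℂ = 0 := by
      intro x hx
      have h := conj_invariant_zero (fun x => ‖⟪b x, z (b 1)⟫_ℂ‖ ^ 2) (fun x => by positivity) hsum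
        (fun g x => by rw [hconj]) x hx
      simpa using h
    refine ⟨⟪b 1, z (b 1)⟫_ℂ, ?_⟩
    have hz1 : z (b 1) = ⟪b 1, z (b 1)⟫_ℂ • b 1 := by
      apply hb_ext_inner b
      intro x
      rw [inner_smul_right]
      by_cases hx : x = 1
      · subst hx
        rw [orthonormal_iff_ite.1 b.orthonormal]
        simp
      · rw [hzero x hx, b.orthonormal.2 hx, mul_zero]
    apply hb_ext b
    intro g
    rw [apply_eq_Lam b z hzL]
    conv_lhs => rw [hz1]
    simp
  · -- finite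
    intro v hv hvv
    set e : H →L[ℂ] H := 1 - v * star v with he
    have hvs : star v ∈ M := star_mem hv
    have hes : star e = e := by
      rw [he, star_sub, star_one, star_mul, star_star]
    have hee : e * e = e := by
      have h1 : v * star v * (v * star v) = v * star v := by
        rw [mul_assoc, ← mul_assoc (star v), hvv, one_mul]
      rw [he, mul_sub, sub_mul, sub_mul, h1]
      simp
    have heM : e ∈ M := sub_mem (one_mem M) (mul_mem hv hvs)
    have htr := trace_comm_of_commute_Lam (invHB b) v (star v) (hMR v hv) (hMR _ hvs)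
    rw [invHB_apply, inv_one] at htr
    have h2 : ⟪b 1, (star v) (v (b 1))⟫_ℂ = 1 := by
      have h3 : star v (v (b 1)) = b 1 := congrArg (fun A : H →L[ℂ] H => A (b 1)) hvv
      rw [h3, orthonormal_iff_ite.1 b.orthonormal]
      simp
    have h4 : ⟪b 1, e (b 1)⟫_ℂ = 0 := by
      have h5 : e (b 1) = b 1 - v (star v (b 1)) := rfl
      rw [h5, inner_sub_right, htr, h2, orthonormal_iff_ite.1 b.orthonormal]
      simp
    have h6 : e (b 1) = 0 := by
      have h7 : ⟪e (b 1), e (b 1)⟫_ℂ = ⟪b 1, e (b 1)⟫_ℂ := by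
        have h8 : e (e (b 1)) = e (b 1) := congrArg (fun A : H →L[ℂ] H => A (b 1)) hee
        conv_rhs => rw [← h8]
        conv_rhs => rw [← hes]
        exact (ContinuousLinearMap.adjoint_inner_right e (b 1) (star e (b 1))).symm ▸ by rw [hes]
      rw [h4, inner_self_eq_zero] at h7
      exact h7
    have he0 : e = 0 := by
      apply hb_ext (invHB b)
      intro g
      rw [apply_eq_Lam (invHB b) e (hMR e heM), invHB_apply, inv_one, h6, map_zero]
      rfl
    rw [he, sub_eq_zero] at he0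
    exact he0.symm
  · -- no minimal projection
    intro p hpM hp hp0
    by_contra hcon
    push Not at hcon
    refine no_min (invHB b) p hp hp0 (hMR p hpM) ?_
    intro g
    rw [Rho_invHB]
    refine minimal_scalar M p hpM hp ?_ (Lam b g) (hLam g)
    intro q hq hqp hpq
    by_contra hne
    push Not at hne
    exact hne.2 (hcon q hq hqp hpq hne.1)

end Pool.Agent.MP_5ec4a4_an
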