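import Mathlib

set_option autoImplicit false

/-! Task L: a bounded self-adjoint logarithm of a unitary without fixed vectors. -/

namespace Pool.Agent.MP_5ec4a4_an

open scoped InnerProductSpace
open Filter Topology

/-- The argument in `[0, 2π]` with the cut at `1`. -/
noncomputable def logTheta (z : ℂ) : ℝ := Real.pi + (-z).arg

/-- The truncation of `logTheta` near `1`. -/
noncomputable def logThetaN (n : ℕ) (z : ℂ) : ℝ := logTheta z * min 1 ((n : ℝ) * ‖z - 1‖)

lemma logTheta_nonneg (z : ℂ) : 0 ≤ logTheta z := by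
  unfold logTheta
  have := Complex.neg_pi_lt_arg (-z)
  linarith

lemma logTheta_le (z : ℂ) : logTheta z ≤ 2 * Real.pi := by
  unfold logTheta
  have := Complex.arg_le_pi (-z)
  linarith

lemma exp_logTheta {z : ℂ} (hz : ‖z‖ = 1) : Complex.exp (Complex.I * (logTheta z : ℂ)) = z := by
  unfold logTheta
  have h1 := Complex.norm_mul_exp_arg_mul_I (-z)
  rw [norm_neg, hz, Complex.ofReal_one, one_mul] at h1
  rw [Complex.ofReal_add, mul_add, Complex.exp_add, mul_comm Complex.I, mul_comm Complex.I,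
    Complex.exp_pi_mul_I, h1]
  ring

lemma logThetaN_nonneg (n : ℕ) (z : ℂ) : 0 ≤ logThetaN n z := by
  unfold logThetaN
  have := logTheta_nonneg z
  positivity

lemma logThetaN_le (n : ℕ) (z : ℂ) : logThetaN n z ≤ 2 * Real.pi := by
  unfold logThetaN
  have h1 := logTheta_nonneg z
  have h2 := logTheta_le z
  have h3 : min 1 ((n : ℝ) * ‖z - 1‖) ≤ 1 := min_le_left _ _
  have h4 : 0 ≤ min 1 ((n : ℝ) * ‖z - 1‖) := by positivity
  nlinarith

lemma neg_mem_slitPlane {z : ℂ} (hz : ‖z‖ = 1) (h1 : z ≠ 1) : -z ∈ Complex.slitPlane := by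
  rw [Complex.mem_slitPlane_iff]
  by_contra hcon
  push Not at hcon
  obtain ⟨h2, h3⟩ := hcon
  apply h1
  rw [Complex.neg_im, neg_eq_zero] at h3
  rw [Complex.neg_re] at h2
  have h4 : ‖z‖ ^ 2 = z.re ^ 2 + z.im ^ 2 := by
    rw [← Complex.normSq_eq_norm_sq, Complex.normSq_apply]; ring
  rw [hz, h3] at h4
  have h5 : z.re = 1 := by nlinarith
  apply Complex.ext
  · simpa using h5
  · simpa using h3

lemma continuousAt_logTheta {z : ℂ} (hz : ‖z‖ = 1) (h1 : z ≠ 1) : ContinuousAt logTheta z := by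
  unfold logTheta
  refine continuousAt_const.add ?_
  exact ContinuousAt.comp (f := fun z : ℂ => -z) (g := Complex.arg)
    (Complex.continuousAt_arg (neg_mem_slitPlane hz h1)) continuous_neg.continuousAt

/-- A product of `logTheta` with a continuous function vanishing at `1` is continuous on the
circle. -/
lemma continuousOn_logTheta_mul (g : ℂ → ℂ) (hg : Continuous g) (hg1 : g 1 = 0) :
    ContinuousOn (fun z => (logTheta z : ℂ) * g z) (Metric.sphere 0 1) := by
  intro z hz
  rw [mem_sphere_zero_iff_norm] at hz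
  apply ContinuousAt.continuousWithinAt
  by_cases h1 : z = 1
  · subst h1
    rw [ContinuousAt, hg1, mul_zero]
    apply squeeze_zero_norm' (a := fun z => 2 * Real.pi * ‖g z‖)
    · filter_upwards with w
      rw [norm_mul, Complex.norm_real, Real.norm_eq_abs, abs_of_nonneg (logTheta_nonneg w)]
      exact mul_le_mul_of_nonneg_right (logTheta_le w) (norm_nonneg _)
    · have h2 : Tendsto (fun z => 2 * Real.pi * ‖g z‖) (𝓝 1) (𝓝 (2 * Real.pi * ‖g 1‖)) :=
        ((continuous_const.mul hg.norm).tendsto 1)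
      simpa [hg1] using h2
  · exact ((Complex.continuous_ofReal.continuousAt).comp (continuousAt_logTheta hz h1)).mul
      hg.continuousAt

lemma continuousOn_logThetaN (n : ℕ) :
    ContinuousOn (fun z => (logThetaN n z : ℂ)) (Metric.sphere 0 1) := by
  have h := continuousOn_logTheta_mul (fun z => ((min 1 ((n : ℝ) * ‖z - 1‖) : ℝ) : ℂ))
    (by fun_prop) (by simp)
  refine h.congr ?_
  intro z _
  simp only [logThetaN, Complex.ofReal_mul]

lemma min_est (n : ℕ) (hn : 0 < n) (t : ℝ) (ht : 0 ≤ t) :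
    (1 - min 1 ((n : ℝ) * t)) * t ≤ 1 / n := by
  have hn' : (0 : ℝ) < n := by exact_mod_cast hn
  have h0 : 0 ≤ min 1 ((n : ℝ) * t) := by positivity
  rcases le_total 1 ((n : ℝ) * t) with h | h
  · rw [min_eq_left h]; simp
  · rw [min_eq_right h]
    rw [le_div_iff₀ hn']
    have h1 : 0 ≤ (n : ℝ) * t := by positivity
    nlinarith

lemma logThetaN_est (n : ℕ) (hn : 0 < n) (z : ℂ) :
    ‖((logThetaN n z : ℂ) - (logTheta z : ℂ)) * (z - 1)‖ ≤ 2 * Real.pi * (1 / n) := by
  have h1 : ((logThetaN n z : ℂ) - (logTheta z : ℂ)) =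
      ((-(logTheta z * (1 - min 1 ((n : ℝ) * ‖z - 1‖))) : ℝ) : ℂ) := by
    unfold logThetaN; push_cast; ring
  rw [h1, norm_mul, Complex.norm_real, norm_neg, Real.norm_eq_abs, abs_mul,
    abs_of_nonneg (logTheta_nonneg z), abs_of_nonneg (by
      have : min 1 ((n : ℝ) * ‖z - 1‖) ≤ 1 := min_le_left _ _
      linarith), mul_assoc]
  exact mul_le_mul (logTheta_le z) (min_est n hn _ (norm_nonneg _))
    (mul_nonneg (by
      have : min 1 ((n : ℝ) * ‖z - 1‖) ≤ 1 := min_le_left _ _
      linarith) (norm_nonneg _)) (by positivity)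

lemma exp_est (n : ℕ) (hn : 0 < n) {z : ℂ} (hz : ‖z‖ = 1) :
    ‖(Complex.exp (Complex.I * (logThetaN n z : ℂ)) - z) * (z - 1)‖ ≤ 2 * (1 / n) := by
  have hn' : (0 : ℝ) < n := by exact_mod_cast hn
  rcases le_total 1 ((n : ℝ) * ‖z - 1‖) with h | h
  · have h1 : logThetaN n z = logTheta z := by
      unfold logThetaN; rw [min_eq_left h, mul_one]
    rw [h1, exp_logTheta hz]
    simp
  · have h2 : ‖z - 1‖ ≤ 1 / n := by rw [le_div_iff₀ hn']; linarith
    have h3 : ‖Complex.exp (Complex.I * (logThetaN n z : ℂ)) - z‖ ≤ 2 := by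
      refine (norm_sub_le _ _).trans ?_
      rw [hz, mul_comm Complex.I, Complex.norm_exp_ofReal_mul_I]
      norm_num
    rw [norm_mul]
    exact mul_le_mul h3 h2 (norm_nonneg _) (by norm_num)

variable {H : Type*} [NormedAddCommGroup H] [InnerProductSpace ℂ H] [CompleteSpace H]

/-- The truncated logarithms. -/
noncomputable def logA (u : H →L[ℂ] H) (n : ℕ) : H →L[ℂ] H :=
  cfc (fun z => (logThetaN n z : ℂ)) u

/-- The limit of the truncated logarithms times `u - 1`. -/
noncomputable def logB (u : H →L[ℂ] H) : H →L[ℂ] H :=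
  cfc (fun z => (logTheta z : ℂ) * (z - 1)) u

lemma isStarNormal_of_unitary {u : H →L[ℂ] H} (hu : u ∈ unitary (H →L[ℂ] H)) :
    IsStarNormal u := by
  rw [Unitary.mem_iff] at hu
  exact ⟨by rw [commute_iff_eq, hu.1, hu.2]⟩

lemma spec_sub {u : H →L[ℂ] H} (hu : u ∈ unitary (H →L[ℂ] H)) :
    spectrum ℂ u ⊆ Metric.sphere 0 1 := spectrum.subset_circle_of_unitary hu

lemma cfc_sub_one {u : H →L[ℂ] H} (hu : u ∈ unitary (H →L[ℂ] H)) :
    cfc (fun z : ℂ => z - 1) u = u - 1 := by
  have := isStarNormal_of_unitary hu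
  rw [cfc_sub (fun z : ℂ => z) (fun _ : ℂ => (1 : ℂ)) u, cfc_id' ℂ u, cfc_const_one ℂ u]

lemma logA_selfAdjoint (u : H →L[ℂ] H) (n : ℕ) : IsSelfAdjoint (logA u n) := by
  unfold logA
  rw [IsSelfAdjoint, ← cfc_star]
  congr 1
  ext z
  simp

lemma logA_norm (u : H →L[ℂ] H) (n : ℕ) : ‖logA u n‖ ≤ 2 * Real.pi := by
  unfold logA
  apply norm_cfc_le (by positivity)
  intro z _
  rw [Complex.norm_real, Real.norm_eq_abs, abs_of_nonneg (logThetaN_nonneg n z)]
  exact logThetaN_le n z

lemma logA_mul {u : H →L[ℂ] H} (hu : u ∈ unitary (H →L[ℂ] H)) (n : ℕ) :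
    logA u n * (u - 1) = cfc (fun z => (logThetaN n z : ℂ) * (z - 1)) u := by
  have := isStarNormal_of_unitary hu
  rw [cfc_mul (fun z => (logThetaN n z : ℂ)) (fun z => z - 1) u
    ((continuousOn_logThetaN n).mono (spec_sub hu)) (by fun_prop), cfc_sub_one hu, logA]

lemma logA_mul_sub {u : H →L[ℂ] H} (hu : u ∈ unitary (H →L[ℂ] H)) (n : ℕ) (hn : 0 < n) :
    ‖logA u n * (u - 1) - logB u‖ ≤ 2 * Real.pi * (1 / n) := by
  have := isStarNormal_of_unitary hu
  rw [logA_mul hu, logB, ← cfc_sub (fun z => (logThetaN n z : ℂ) * (z - 1))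
    (fun z => (logTheta z : ℂ) * (z - 1)) u
    (((continuousOn_logThetaN n).mono (spec_sub hu)).mul (by fun_prop))
    ((continuousOn_logTheta_mul (fun z => z - 1) (by fun_prop) (by simp)).mono (spec_sub hu))]
  apply norm_cfc_le (by positivity)
  intro z _
  rw [← sub_mul]
  exact logThetaN_est n hn z

lemma exp_logA {u : H →L[ℂ] H} (hu : u ∈ unitary (H →L[ℂ] H)) (n : ℕ) :
    NormedSpace.exp (Complex.I • logA u n) =
      cfc (fun z => Complex.exp (Complex.I * (logThetaN n z : ℂ))) u := by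
  have := isStarNormal_of_unitary hu
  have hc := (continuousOn_logThetaN n).mono (spec_sub hu)
  have hcI : ContinuousOn (fun z => Complex.I * (logThetaN n z : ℂ)) (spectrum ℂ u) :=
    continuousOn_const.mul hc
  have h1 : Complex.I • logA u n = cfc (fun z => Complex.I * (logThetaN n z : ℂ)) u := by
    rw [logA, ← cfc_const_mul Complex.I (fun z => (logThetaN n z : ℂ)) u hc]
  rw [h1, cfc_comp' Complex.exp (fun z => Complex.I * (logThetaN n z : ℂ)) u
    (by fun_prop) hcI]
  exact (CFC.complex_exp_eq_normedSpace_exp (cfc_predicate _ _)).symm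

lemma exp_logA_mul_sub {u : H →L[ℂ] H} (hu : u ∈ unitary (H →L[ℂ] H)) (n : ℕ) (hn : 0 < n) :
    ‖NormedSpace.exp (Complex.I • logA u n) * (u - 1) - u * (u - 1)‖ ≤ 2 * (1 / n) := by
  have := isStarNormal_of_unitary hu
  have hc := (continuousOn_logThetaN n).mono (spec_sub hu)
  have hcE : ContinuousOn (fun z => Complex.exp (Complex.I * (logThetaN n z : ℂ)))
      (spectrum ℂ u) := (continuousOn_const.mul hc).cexp
  have h1 : NormedSpace.exp (Complex.I • logA u n) * (u - 1) - u * (u - 1) =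
      cfc (fun z => (Complex.exp (Complex.I * (logThetaN n z : ℂ)) - z) * (z - 1)) u := by
    rw [cfc_mul (fun z => Complex.exp (Complex.I * (logThetaN n z : ℂ)) - z)
      (fun z => z - 1) u (hcE.sub (by fun_prop)) (by fun_prop), cfc_sub_one hu,
      cfc_sub (fun z => Complex.exp (Complex.I * (logThetaN n z : ℂ))) (fun z => z) u hcE
        (by fun_prop), cfc_id' ℂ u, exp_logA hu, sub_mul]
  rw [h1]
  apply norm_cfc_le (by positivity)
  intro z hz
  exact exp_est n hn (by simpa using spec_sub hu hz)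

lemma dense_range_sub_one {u : H →L[ℂ] H} (hu : u ∈ unitary (H →L[ℂ] H))
    (hfix : ∀ x, u x = x → x = 0) : DenseRange (fun y : H => (u - 1) y) := by
  have h1 : ((u - 1 : H →L[ℂ] H) : H →ₗ[ℂ] H).rangeᗮ = ⊥ := by
    rw [ContinuousLinearMap.orthogonal_range, Submodule.eq_bot_iff]
    intro x hx
    rw [LinearMap.mem_ker] at hx
    apply hfix
    have h2 : (ContinuousLinearMap.adjoint (u - 1)) x = 0 := hx
    rw [map_sub, sub_apply, sub_eq_zero] at h2
    have h3 : ContinuousLinearMap.adjoint (1 : H →L[ℂ] H) = 1 := star_one _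
    rw [h3] at h2
    have h4 : u ((ContinuousLinearMap.adjoint u) x) = x := by
      have h5 : u * star u = 1 := (Unitary.mem_iff.1 hu).2
      have := congrArg (fun T : H →L[ℂ] H => T x) h5
      exact this
    rw [h2] at h4
    exact h4
  rw [← Submodule.topologicalClosure_eq_top_iff] at h1
  rw [DenseRange, dense_iff_closure_eq]
  have h2 := congrArg (fun K : Submodule ℂ H => (K : Set H)) h1
  simp only [Submodule.topologicalClosure_coe, Submodule.top_coe] at h2
  rw [← h2]
  congr 1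

lemma tendsto_logA_range {u : H →L[ℂ] H} (hu : u ∈ unitary (H →L[ℂ] H)) (y : H) :
    Tendsto (fun n => logA u n ((u - 1) y)) atTop (𝓝 (logB u y)) := by
  rw [tendsto_iff_norm_sub_tendsto_zero]
  have h1 : Tendsto (fun n : ℕ => 2 * Real.pi * (1 / (n : ℝ)) * ‖y‖) atTop (𝓝 0) := by
    have := (tendsto_one_div_atTop_nhds_zero_nat (𝕜 := ℝ)).const_mul (2 * Real.pi)
    have := this.mul_const ‖y‖
    simpa using this
  refine squeeze_zero' (Eventually.of_forall fun n => norm_nonneg _) ?_ h1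
  filter_upwards [eventually_gt_atTop 0] with n hn
  have h2 : logA u n ((u - 1) y) - logB u y = (logA u n * (u - 1) - logB u) y := rfl
  rw [h2]
  exact (ContinuousLinearMap.le_opNorm _ _).trans
    (mul_le_mul_of_nonneg_right (logA_mul_sub hu n hn) (norm_nonneg _))

lemma exists_lim_logA {u : H →L[ℂ] H} (hu : u ∈ unitary (H →L[ℂ] H))
    (hfix : ∀ x, u x = x → x = 0) (x : H) :
    ∃ w, Tendsto (fun n => logA u n x) atTop (𝓝 w) := by
  apply cauchySeq_tendsto_of_complete
  rw [Metric.cauchySeq_iff']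
  intro ε hε
  have hpi := Real.pi_pos
  obtain ⟨y, hy⟩ := (dense_range_sub_one hu hfix).exists_dist_lt x
    (show 0 < ε / (8 * Real.pi) by positivity)
  have hc := (tendsto_logA_range hu y).cauchySeq
  rw [Metric.cauchySeq_iff'] at hc
  obtain ⟨N, hN⟩ := hc (ε / 2) (by positivity)
  refine ⟨N, fun n hn => ?_⟩
  have h1 := hN n hn
  rw [dist_eq_norm] at h1 hy ⊢
  have h2 : logA u n x - logA u N x = logA u n (x - (u - 1) y) - logA u N (x - (u - 1) y) +
      (logA u n ((u - 1) y) - logA u N ((u - 1) y)) := by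
    simp only [map_sub]; abel
  have h3 : ∀ m, ‖logA u m (x - (u - 1) y)‖ < ε / 4 := by
    intro m
    calc ‖logA u m (x - (u - 1) y)‖ ≤ ‖logA u m‖ * ‖x - (u - 1) y‖ :=
          ContinuousLinearMap.le_opNorm _ _
      _ ≤ 2 * Real.pi * ‖x - (u - 1) y‖ :=
          mul_le_mul_of_nonneg_right (logA_norm u m) (norm_nonneg _)
      _ < 2 * Real.pi * (ε / (8 * Real.pi)) := by
          apply mul_lt_mul_of_pos_left hy (by positivity)
      _ = ε / 4 := by field_simp; ring
  rw [h2]
  calc _ ≤ ‖logA u n (x - (u - 1) y) - logA u N (x - (u - 1) y)‖ +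
        ‖logA u n ((u - 1) y) - logA u N ((u - 1) y)‖ := norm_add_le _ _
    _ ≤ (‖logA u n (x - (u - 1) y)‖ + ‖logA u N (x - (u - 1) y)‖) +
        ‖logA u n ((u - 1) y) - logA u N ((u - 1) y)‖ := by
          gcongr; exact norm_sub_le _ _
    _ < (ε / 4 + ε / 4) + ε / 2 := by
          have := h3 n
          have := h3 N
          linarith
    _ = ε := by ring

lemma norm_pow_le_of {T : H →L[ℂ] H} {C : ℝ} (hC : ‖T‖ ≤ C) (k : ℕ) : ‖T ^ k‖ ≤ C ^ k := by
  rcases Nat.eq_zero_or_pos k with hk | hk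
  · subst hk
    simp only [pow_zero]
    exact ContinuousLinearMap.norm_id_le
  · refine (norm_pow_le' _ hk).trans ?_
    gcongr

/-- Powers of a bounded strongly convergent sequence converge strongly. -/
lemma tendsto_pow_apply {T : ℕ → H →L[ℂ] H} {S : H →L[ℂ] H} {C : ℝ} (hC : ∀ n, ‖T n‖ ≤ C)
    (hT : ∀ x, Tendsto (fun n => T n x) atTop (𝓝 (S x))) (k : ℕ) (x : H) :
    Tendsto (fun n => (T n ^ k) x) atTop (𝓝 ((S ^ k) x)) := by
  have hC0 : 0 ≤ C := (norm_nonneg _).trans (hC 0)
  induction k generalizing x with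
  | zero => simp
  | succ k ih =>
    have h1 : ∀ n, (T n ^ (k + 1)) x = (T n ^ k) (T n x - S x) + (T n ^ k) (S x) := by
      intro n
      rw [← map_add, sub_add_cancel, pow_succ]; rfl
    have h2 : (S ^ (k + 1)) x = 0 + (S ^ k) (S x) := by rw [pow_succ, zero_add]; rfl
    simp only [h1, h2]
    refine Tendsto.add ?_ (ih (S x))
    have h3 : Tendsto (fun n => C ^ k * ‖T n x - S x‖) atTop (𝓝 0) := by
      have := (tendsto_iff_norm_sub_tendsto_zero.1 (hT x)).const_mul (C ^ k)
      simpa using this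
    refine squeeze_zero_norm (fun n => ?_) h3
    refine (ContinuousLinearMap.le_opNorm _ _).trans ?_
    gcongr
    exact norm_pow_le_of (hC n) k

lemma tendsto_exp_apply {T : ℕ → H →L[ℂ] H} {S : H →L[ℂ] H} {C : ℝ} (hC : ∀ n, ‖T n‖ ≤ C)
    (hT : ∀ x, Tendsto (fun n => T n x) atTop (𝓝 (S x))) (x : H) :
    Tendsto (fun n => NormedSpace.exp (T n) x) atTop (𝓝 (NormedSpace.exp S x)) := by
  have hC0 : 0 ≤ C := (norm_nonneg _).trans (hC 0)
  have key : ∀ R : H →L[ℂ] H, NormedSpace.exp R x =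
      ∑' k : ℕ, (((k.factorial : ℂ)⁻¹) • R ^ k) x := by
    intro R
    have h1 := NormedSpace.exp_series_hasSum_exp' (𝕂 := ℂ) R
    have h2 := (ContinuousLinearMap.apply ℂ H x).hasSum h1
    exact h2.tsum_eq.symm
  simp only [key]
  apply tendsto_tsum_of_dominated_convergence
    (bound := fun k : ℕ => C ^ k / k.factorial * ‖x‖)
  · exact (Real.summable_pow_div_factorial C).mul_right _
  · intro k
    simp only [smul_apply]
    exact (tendsto_pow_apply hC hT k x).const_smul _
  · refine Eventually.of_forall fun n k => ?_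
    rw [smul_apply, norm_smul, norm_inv, Complex.norm_natCast]
    have h3 : ‖(T n ^ k) x‖ ≤ C ^ k * ‖x‖ := by
      refine (ContinuousLinearMap.le_opNorm _ _).trans ?_
      gcongr
      exact norm_pow_le_of (hC n) k
    calc ((k.factorial : ℝ))⁻¹ * ‖(T n ^ k) x‖ ≤ ((k.factorial : ℝ))⁻¹ * (C ^ k * ‖x‖) := by
          gcongr
      _ = C ^ k / k.factorial * ‖x‖ := by ring

/-- Sketch. `θ z = π + arg (-z) ∈ [0, 2π]` on the circle is continuous off `z = 1`;
`θₙ z = θ z * min 1 (n * ‖z - 1‖)` is real valued and continuous on the circle, `|θₙ| ≤ 2π`,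
`|θₙ z - θ z| * ‖z - 1‖ ≤ 2π / n`. Put `Aₙ = cfc θₙ u`. Then `‖(Aₙ - Aₘ)(u - 1)‖ → 0`, and
`range (u - 1)` is dense (its orthogonal complement is `ker (u* - 1) = ker (u - 1) = 0`), so
`Aₙ → A` strongly. `A (u - 1) = lim Aₙ (u - 1) = cfc (fun z => θ z * (z - 1)) u` (norm limit, so
it lies in the elemental algebra). `exp (i Aₙ) (u - 1) = cfc (fun z => exp (i θₙ z) (z - 1)) u →
u (u - 1)` in norm as `|exp (i θₙ z) - z| ‖z - 1‖ ≤ 2 / n`, and `exp (i Aₙ) → exp (i A)` strongly
(dominated convergence in the exponential series). -/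
theorem exists_log (u : H →L[ℂ] H) (hu : u ∈ unitary (H →L[ℂ] H)) (hfix : ∀ x, u x = x → x = 0) :
    ∃ A : H →L[ℂ] H, IsSelfAdjoint A ∧ ‖A‖ ≤ 2 * Real.pi ∧
      NormedSpace.exp (Complex.I • A) = u ∧
      (∀ X : H →L[ℂ] H, Commute X u → Commute X (star u) → Commute X A) ∧
      A * (u - 1) ∈ StarAlgebra.elemental ℂ u := by
  have := isStarNormal_of_unitary hu
  choose f hf using exists_lim_logA hu hfix
  have hlim : Tendsto (fun n x => logA u n x) atTop (𝓝 f) := tendsto_pi_nhds.2 hf
  let A : H →L[ℂ] H := continuousLinearMapOfTendsto (fun n => logA u n) hlim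
  have hA : ∀ x, Tendsto (fun n => logA u n x) atTop (𝓝 (A x)) := hf
  have hAB : A * (u - 1) = logB u := by
    ext y
    exact tendsto_nhds_unique (hA ((u - 1) y)) (tendsto_logA_range hu y)
  refine ⟨A, ?_, ?_, ?_, ?_, ?_⟩
  · rw [ContinuousLinearMap.isSelfAdjoint_iff_isSymmetric]
    intro x y
    have h1 : Tendsto (fun n => ⟪logA u n x, y⟫_ℂ) atTop (𝓝 ⟪A x, y⟫_ℂ) :=
      (hA x).inner tendsto_const_nhds
    have h2 : Tendsto (fun n => ⟪x, logA u n y⟫_ℂ) atTop (𝓝 ⟪x, A y⟫_ℂ) :=
      tendsto_const_nhds.inner (hA y)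
    have h3 : (fun n => ⟪logA u n x, y⟫_ℂ) = (fun n => ⟪x, logA u n y⟫_ℂ) := by
      funext n
      exact (ContinuousLinearMap.isSelfAdjoint_iff_isSymmetric.1 (logA_selfAdjoint u n)) x y
    rw [h3] at h1
    exact tendsto_nhds_unique h1 h2
  · refine ContinuousLinearMap.opNorm_le_bound _ (by positivity) (fun x => ?_)
    refine le_of_tendsto (hA x).norm (Eventually.of_forall fun n => ?_)
    exact (ContinuousLinearMap.le_opNorm _ _).trans
      (mul_le_mul_of_nonneg_right (logA_norm u n) (norm_nonneg _))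
  · have hT : ∀ x, Tendsto (fun n => (Complex.I • logA u n) x) atTop
        (𝓝 ((Complex.I • A) x)) := by
      intro x
      simp only [smul_apply]
      exact (hA x).const_smul _
    have hC : ∀ n, ‖Complex.I • logA u n‖ ≤ 2 * Real.pi := by
      intro n
      rw [norm_smul, Complex.norm_I, one_mul]
      exact logA_norm u n
    have h1 := fun x => tendsto_exp_apply hC hT x
    have h2 : ∀ y, Tendsto (fun n => NormedSpace.exp (Complex.I • logA u n) ((u - 1) y)) atTop
        (𝓝 (u ((u - 1) y))) := by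
      intro y
      rw [tendsto_iff_norm_sub_tendsto_zero]
      have h3 : Tendsto (fun n : ℕ => 2 * (1 / (n : ℝ)) * ‖y‖) atTop (𝓝 0) := by
        have := (tendsto_one_div_atTop_nhds_zero_nat (𝕜 := ℝ)).const_mul 2
        have := this.mul_const ‖y‖
        simpa using this
      refine squeeze_zero' (Eventually.of_forall fun n => norm_nonneg _) ?_ h3
      filter_upwards [eventually_gt_atTop 0] with n hn
      have h4 : NormedSpace.exp (Complex.I • logA u n) ((u - 1) y) - u ((u - 1) y) =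
        (NormedSpace.exp (Complex.I • logA u n) * (u - 1) - u * (u - 1)) y := rfl
      rw [h4]
      exact (ContinuousLinearMap.le_opNorm _ _).trans
        (mul_le_mul_of_nonneg_right (exp_logA_mul_sub hu n hn) (norm_nonneg _))
    have h5 : (fun x => NormedSpace.exp (Complex.I • A) x) = (fun x => u x) := by
      apply DenseRange.equalizer (dense_range_sub_one hu hfix)
        (ContinuousLinearMap.continuous _) (ContinuousLinearMap.continuous _)
      funext y
      exact tendsto_nhds_unique (h1 ((u - 1) y)) (h2 y)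
    ext x
    exact congrFun h5 x
  · intro X hX hX'
    have h1 : ∀ n, Commute X (logA u n) := fun n => (hX.symm.cfc hX'.symm _).symm
    rw [commute_iff_eq]
    ext x
    have h2 : Tendsto (fun n => X (logA u n x)) atTop (𝓝 (X (A x))) :=
      (X.continuous.tendsto _).comp (hA x)
    have h3 : Tendsto (fun n => logA u n (X x)) atTop (𝓝 (A (X x))) := hA (X x)
    have h4 : (fun n => X (logA u n x)) = (fun n => logA u n (X x)) := by
      funext n
      have := congrArg (fun T : H →L[ℂ] H => T x) (h1 n).eq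
      exact this
    rw [h4] at h2
    exact tendsto_nhds_unique h2 h3
  · rw [hAB]
    exact cfc_mem_elemental _ _

end Pool.Agent.MP_5ec4a4_an
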