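import Pool.Agent.MP_5ec4a4_an.Cayley
import Pool.Agent.MP_5ec4a4_an.Edges
import Pool.Agent.MP_5ec4a4_an.LogU
import Pool.Agent.MP_5ec4a4_an.Factor

set_option autoImplicit false
set_option linter.unusedSectionVars false

open scoped InnerProductSpace ENNReal InnerProduct Topology
open ContinuousLinearMap (adjoint)
open FreeGroup Filter

namespace Pool.Agent.MP_5ec4a4_an

section weak

variable {H : Type*} [NormedAddCommGroup H] [InnerProductSpace ℂ H] [CompleteSpace H]

/-- Coefficients along an injective sequence of basis vectors tend to `0`. -/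
theorem coeff_tendsto {X : Type*} (b : HilbertBasis X ℂ H) (y : H) (f : ℕ → X)
    (hf : Function.Injective f) : Tendsto (fun n => ⟪y, b (f n)⟫_ℂ) atTop (𝓝 0) := by
  have h1 : Tendsto (fun x => ‖⟪b x, y⟫_ℂ‖ ^ 2) cofinite (𝓝 0) :=
    (hb_hasSum_normSq b y).summable.tendsto_cofinite_zero
  have h2 : Tendsto (fun n => ‖⟪b (f n), y⟫_ℂ‖ ^ 2) atTop (𝓝 0) := by
    rw [← Nat.cofinite_eq_atTop]
    exact h1.comp hf.tendsto_cofinite
  have h3 : Tendsto (fun n => √(‖⟪b (f n), y⟫_ℂ‖ ^ 2)) atTop (𝓝 0) := by
    have := (Real.continuous_sqrt.tendsto 0).comp h2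
    rwa [Real.sqrt_zero] at this
  rw [tendsto_zero_iff_norm_tendsto_zero]
  refine h3.congr fun n => ?_
  rw [Real.sqrt_sq (norm_nonneg _), norm_inner_symm]

theorem weak_pow_tendsto (b : HilbertBasis (FreeGroup (Fin 2)) ℂ H) (s : Fin 2) (x y : H) :
    Tendsto (fun n : ℕ => ⟪y, (Lam b (of s) ^ n) x⟫_ℂ) atTop (𝓝 0) := by
  have hpow : ∀ n : ℕ, Lam b (of s) ^ n = Lam b (of s ^ n) := by
    intro n
    induction n with
    | zero => simp [Lam_one]
    | succ n ih => rw [pow_succ, ih, ← Lam_mul, ← pow_succ]
  simp only [hpow]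
  have hinj : ∀ g : FreeGroup (Fin 2), Function.Injective (fun n : ℕ => of s ^ n * g) := by
    intro g m n hmn
    have h1 : of s ^ m = of s ^ n := mul_right_cancel hmn
    have h2 := congrArg FreeGroup.norm h1
    rwa [norm_of_pow, norm_of_pow] at h2
  let P : Submodule ℂ H :=
    { carrier := {x | Tendsto (fun n : ℕ => ⟪y, Lam b (of s ^ n) x⟫_ℂ) atTop (𝓝 0)}
      add_mem' := by
        intro u v hu hv
        have := hu.add hv
        simp only [add_zero] at this
        refine this.congr fun n => ?_
        rw [map_add, inner_add_right]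
      zero_mem' := by simp
      smul_mem' := by
        intro c u hu
        have := hu.const_mul c
        simp only [mul_zero] at this
        refine this.congr fun n => ?_
        rw [map_smul, inner_smul_right] }
  have hle : Submodule.span ℂ (Set.range b) ≤ P := by
    rw [Submodule.span_le]
    rintro _ ⟨g, rfl⟩
    have := coeff_tendsto b y (fun n : ℕ => of s ^ n * g) (hinj g)
    refine this.congr fun n => ?_
    rw [Lam_apply]
  have hmem : x ∈ closure (P : Set H) := by
    have : x ∈ P.topologicalClosure := by
      have h1 : (⊤ : Submodule ℂ H) ≤ P.topologicalClosure := by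
        rw [← b.dense_span]
        exact Submodule.topologicalClosure_mono hle
      exact h1 trivial
    exact this
  rw [Metric.tendsto_atTop]
  intro ε hε
  obtain ⟨x', hx', hd⟩ := Metric.mem_closure_iff.1 hmem (ε / (2 * (‖y‖ + 1))) (by positivity)
  obtain ⟨n₀, hn₀⟩ := Metric.tendsto_atTop.1 (show Tendsto _ _ _ from hx') (ε / 2)
    (by positivity)
  refine ⟨n₀, fun n hn => ?_⟩
  have h1 := hn₀ n hn
  rw [dist_zero_right] at h1 ⊢
  have h2 : ⟪y, Lam b (of s ^ n) x⟫_ℂ =
      ⟪y, Lam b (of s ^ n) (x - x')⟫_ℂ + ⟪y, Lam b (of s ^ n) x'⟫_ℂ := by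
    rw [map_sub, inner_sub_right]; ring
  rw [h2]
  refine (norm_add_le _ _).trans_lt ?_
  have h3 : ‖⟪y, Lam b (of s ^ n) (x - x')⟫_ℂ‖ ≤ ‖y‖ * (ε / (2 * (‖y‖ + 1))) := by
    refine (norm_inner_le_norm _ _).trans ?_
    rw [Lam_norm, ← dist_eq_norm]
    exact mul_le_mul_of_nonneg_left hd.le (norm_nonneg _)
  have h4 : ‖y‖ * (ε / (2 * (‖y‖ + 1))) ≤ ε / 2 := by
    rw [mul_div_assoc', div_le_div_iff₀ (by positivity) (by positivity)]
    nlinarith [norm_nonneg y]
  linarith

theorem Lam_fix (b : HilbertBasis (FreeGroup (Fin 2)) ℂ H) (s : Fin 2) (x : H)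
    (hx : Lam b (of s) x = x) : x = 0 := by
  have h1 := weak_pow_tendsto b s x x
  have h2 : ∀ n : ℕ, (Lam b (of s) ^ n) x = x := by
    intro n
    induction n with
    | zero => simp
    | succ n ih =>
      rw [pow_succ]
      change (Lam b (of s) ^ n) (Lam b (of s) x) = x
      rw [hx, ih]
  simp only [h2] at h1
  have h3 := tendsto_nhds_unique h1 tendsto_const_nhds
  exact inner_self_eq_zero.1 h3.symm

end weak

section contradiction

variable {H : Type*} [NormedAddCommGroup H] [InnerProductSpace ℂ H] [CompleteSpace H]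

/-- The compression argument for one irreducible summand. -/
theorem summand_contradiction (b : HilbertBasis (FreeGroup (Fin 2)) ℂ H) (T T' U : H →L[ℂ] H)
    (hLam : ∀ X : H →L[ℂ] H, Commute X T → Commute X (star T) → ∀ g, Commute X (Lam b g))
    (hRho : ∀ g, Commute (Rho b g) T)
    (h1 : T' * U = U * T) (h2 : star T' * U = U * star T)
    (V : Submodule ℂ H) [CompleteSpace V]
    (hV : ∀ x ∈ V, T' x ∈ V) (hV' : ∀ x ∈ V, star T' x ∈ V)
    (hirr : IsIrreducible (restr T' V hV)) : V.starProjection * U = 0 := by
  set E := V.starProjection with hE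
  have hEsp : IsStarProjection E := isStarProjection_starProjection
  have hEsa : star E = E := hEsp.isSelfAdjoint
  have hEE : E * E = E := hEsp.isIdempotentElem
  have hEmem : ∀ x, E x ∈ V := fun x => Submodule.starProjection_apply_mem _ _
  have hEid : ∀ x ∈ V, E x = x := fun x hx => Submodule.starProjection_eq_self_iff.2 hx
  -- `E` commutes with `T'`
  have hinv : ∀ S : H →L[ℂ] H, (∀ x ∈ V, S x ∈ V) → (∀ x ∈ V, star S x ∈ V) → E * S = S * E := by
    intro S hS hS'
    have e1 : E * S * E = S * E := by
      ext x
      exact hEid _ (hS _ (hEmem x))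
    have e2 : E * star S * E = star S * E := by
      ext x
      exact hEid _ (hS' _ (hEmem x))
    have e3 := congrArg star e2
    rw [star_mul, star_mul, star_mul, star_star, hEsa] at e3
    calc E * S = E * (S * E) := e3.symm
      _ = E * S * E := by noncomm_ring
      _ = S * E := e1
  have hET : E * T' = T' * E := hinv T' hV hV'
  have hET' : E * star T' = star T' * E := hinv (star T') hV' (by rwa [star_star])
  by_contra hne
  obtain ⟨W, hW⟩ : ∃ W, W = E * U := ⟨_, rfl⟩
  rw [← hW] at hne
  have hEW : E * W = W := by rw [hW, ← mul_assoc, hEE]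
  have hWE : star W * E = star W := by
    have := congrArg star hEW
    rwa [star_mul, hEsa] at this
  have hTW : T' * W = W * T := by
    rw [hW, ← mul_assoc, ← hET, mul_assoc, h1, mul_assoc]
  have hTW' : star T' * W = W * star T := by
    rw [hW, ← mul_assoc, ← hET', mul_assoc, h2, mul_assoc]
  have hWT : star W * T' = T * star W := by
    have := congrArg star hTW'
    rw [star_mul, star_mul, star_star, star_star] at this
    exact this
  have hWT' : star W * star T' = star T * star W := by
    have := congrArg star hTW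
    rw [star_mul, star_mul] at this
    exact this
  have hRho' : ∀ g, Commute (Rho b g) (star T) := by
    intro g
    have := (hRho g⁻¹).star_star
    rw [star_Rho, inv_inv] at this
    exact this
  -- scalars
  have hscal : ∀ g, ∃ c : ℂ, W * Rho b g * star W = c • E := by
    intro g
    set X := W * Rho b g * star W with hX
    have hEX : E * X = X := by rw [hX, ← mul_assoc, ← mul_assoc, hEW]
    have hXE : X * E = X := by rw [hX, mul_assoc, hWE]
    have hXV : ∀ x ∈ V, X x ∈ V := by
      intro x _
      have : X x = E (X x) := (congrArg (fun A : H →L[ℂ] H => A x) hEX).symm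
      rw [this]
      exact hEmem _
    have hXT : X * T' = T' * X := by
      calc X * T' = W * Rho b g * (star W * T') := by rw [hX]; noncomm_ring
        _ = W * (Rho b g * T) * star W := by rw [hWT]; noncomm_ring
        _ = (W * T) * Rho b g * star W := by rw [(hRho g).eq]; noncomm_ring
        _ = T' * X := by rw [← hTW, hX]; noncomm_ring
    have hXT' : X * star T' = star T' * X := by
      calc X * star T' = W * Rho b g * (star W * star T') := by rw [hX]; noncomm_ring
        _ = W * (Rho b g * star T) * star W := by rw [hWT']; noncomm_ring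
        _ = (W * star T) * Rho b g * star W := by rw [(hRho' g).eq]; noncomm_ring
        _ = star T' * X := by rw [← hTW', hX]; noncomm_ring
    have hc1 : Commute (restr X V hXV) (restr T' V hV) := by
      ext x
      exact congrArg (fun A : H →L[ℂ] H => A x) hXT
    have hstar : star (restr T' V hV) = restr (star T') V hV' := by
      apply ContinuousLinearMap.ext
      intro x
      apply ext_inner_right ℂ
      intro y
      change ⟪adjoint (restr T' V hV) x, y⟫_ℂ = _
      rw [ContinuousLinearMap.adjoint_inner_left]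
      change ⟪(x : H), T' y⟫_ℂ = ⟪adjoint T' (x : H), (y : H)⟫_ℂ
      rw [ContinuousLinearMap.adjoint_inner_left]
    have hc2 : Commute (restr X V hXV) (star (restr T' V hV)) := by
      rw [hstar]
      ext x
      exact congrArg (fun A : H →L[ℂ] H => A x) hXT'
    obtain ⟨c, hc⟩ := irreducible_scalar _ hirr _ hc1 hc2
    refine ⟨c, ?_⟩
    ext x
    have e1 : X x = X (E x) := (congrArg (fun A : H →L[ℂ] H => A x) hXE).symm
    have e2 := congrArg (fun A : V →L[ℂ] V => ((A ⟨E x, hEmem x⟩ : V) : H)) hc
    rw [e1]
    exact e2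
  choose c hc using hscal
  have hWW : W * star W = c 1 • E := by
    have := hc 1
    rwa [Rho_one, mul_one] at this
  have hc0 : c 1 ≠ 0 := by
    intro h0
    rw [h0, zero_smul] at hWW
    apply hne
    have : star (star W) * star W = 0 := by rw [star_star]; exact hWW
    have h3 : star W = 0 := by
      rwa [CStarRing.star_mul_self_eq_zero_iff] at this
    have := congrArg star h3
    rwa [star_star, star_zero] at this
  have hE0 : E ≠ 0 := by
    intro h0
    apply hne
    rw [hW, h0, zero_mul]
  have hcr : (starRingEnd ℂ) (c 1) = c 1 := by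
    have := congrArg star hWW
    rw [star_mul, star_star, star_smul, hEsa, hWW] at this
    by_contra hcc
    apply hE0
    have e : (c 1 - star (c 1)) • E = 0 := by rw [sub_smul, ← this, sub_self]
    rcases smul_eq_zero.1 e with h | h
    · exact absurd (sub_eq_zero.1 h).symm hcc
    · exact h
  set p := (c 1)⁻¹ • (star W * W) with hp
  have hstep : ∀ g, (star W * W) * Rho b g * (star W * W) = c g • (star W * W) := by
    intro g
    calc (star W * W) * Rho b g * (star W * W) = star W * (W * Rho b g * star W) * W := by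
          noncomm_ring
      _ = star W * (c g • E) * W := by rw [hc]
      _ = c g • ((star W * E) * W) := by rw [mul_smul_comm, smul_mul_assoc]
      _ = c g • (star W * W) := by rw [hWE]
  have hpp : p * p = p := by
    have := hstep 1
    rw [Rho_one, mul_one] at this
    rw [hp, smul_mul_smul_comm, this, smul_smul]
    congr 1
    field_simp
  have hps : star p = p := by
    rw [hp, star_smul, star_mul, star_star]
    congr 1
    have : star (c 1)⁻¹ = (star (c 1))⁻¹ := star_inv₀ _
    rw [this]
    congr 1
  have hpsp : IsStarProjection p := ⟨hpp, hps⟩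
  have hp0 : p ≠ 0 := by
    intro h0
    rw [hp, smul_eq_zero] at h0
    rcases h0 with h0 | h0
    · exact hc0 (inv_eq_zero.1 h0)
    · exact hne ((CStarRing.star_mul_self_eq_zero_iff W).1 h0)
  have hpT : Commute p T := by
    have e : (star W * W) * T = T * (star W * W) := by
      rw [mul_assoc, ← hTW, ← mul_assoc, hWT, mul_assoc]
    change p * T = T * p
    rw [hp, smul_mul_assoc, e, mul_smul_comm]
  have hpT' : Commute p (star T) := by
    have e : (star W * W) * star T = star T * (star W * W) := by
      rw [mul_assoc, ← hTW', ← mul_assoc, hWT', mul_assoc]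
    change p * star T = star T * p
    rw [hp, smul_mul_assoc, e, mul_smul_comm]
  refine no_min b p hpsp hp0 (hLam p hpT hpT') fun g => ⟨(c 1)⁻¹ * c g, ?_⟩
  rw [hp, smul_mul_assoc, smul_mul_smul_comm, hstep g, smul_smul, smul_smul]
  congr 1
  ring

/-- The final contradiction. -/
theorem not_directSum (b : HilbertBasis (FreeGroup (Fin 2)) ℂ H) (T T' U : H →L[ℂ] H)
    (hLam : ∀ X : H →L[ℂ] H, Commute X T → Commute X (star T) → ∀ g, Commute X (Lam b g))
    (hRho : ∀ g, Commute (Rho b g) T) (hU : U ≠ 0)
    (h1 : T' * U = U * T) (h2 : star T' * U = U * star T) :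
    ¬ IsDirectSumOfIrreducibles T' := by
  rintro ⟨N, -, V, hVc, -, hdense, hV', hV, hirr⟩
  have h3 : ∀ n, (V n).starProjection * U = 0 := fun n =>
    summand_contradiction b T T' U hLam hRho h1 h2 (V n) (hV n) (hV' n) (hirr n)
  apply hU
  ext x
  have h4 : U x ∈ (⨆ n, V n)ᗮ := by
    rw [← Submodule.iInf_orthogonal, Submodule.mem_iInf]
    intro n
    have e1 : (V n).starProjection (U x) = 0 := congrArg (fun A : H →L[ℂ] H => A x) (h3 n)
    rwa [Submodule.starProjection_apply_eq_zero_iff] at e1
  have h5 : (⨆ n, V n)ᗮ = ⊥ := by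
    rw [← Submodule.orthogonal_closure, hdense, Submodule.top_orthogonal_eq_bot]
  rw [h5] at h4
  exact h4

end contradiction

end Pool.Agent.MP_5ec4a4_an
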