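import Pool.Agent.MP_5ec4a4_an.Final

set_option autoImplicit false
set_option linter.unusedSectionVars false

open scoped InnerProductSpace ENNReal InnerProduct Topology
open ContinuousLinearMap (adjoint)
open FreeGroup Filter

namespace Pool.Agent.MP_5ec4a4_an

variable {H : Type*} [NormedAddCommGroup H] [InnerProductSpace ℂ H] [CompleteSpace H]

theorem exists_free_basis [TopologicalSpace.SeparableSpace H] (hH : ¬ FiniteDimensional ℂ H) :
    Nonempty (HilbertBasis (FreeGroup (Fin 2)) ℂ H) := by
  obtain ⟨w, b, hb⟩ := exists_hilbertBasis ℂ H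
  have hcount : Countable w := by
    have hdisj : (Set.univ : Set w).PairwiseDisjoint (fun x => Metric.ball (b x) (1 / 2)) := by
      intro x _ y _ hxy
      apply Metric.ball_disjoint_ball
      have h1 : ‖b x - b y‖ ^ 2 = 2 := by
        rw [norm_sub_sq (𝕜 := ℂ), b.orthonormal.1, b.orthonormal.1, b.orthonormal.2 hxy]
        simp; norm_num
      rw [dist_eq_norm]
      by_contra h2
      push Not at h2
      nlinarith [norm_nonneg (b x - b y)]
    have := hdisj.countable_of_isOpen (fun _ _ => Metric.isOpen_ball)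
      (fun x _ => ⟨b x, Metric.mem_ball_self (by norm_num)⟩)
    exact Set.countable_univ_iff.1 this
  have hinf : Infinite w := by
    by_contra hfin
    rw [not_infinite_iff_finite] at hfin
    apply hH
    have h1 : FiniteDimensional ℂ (Submodule.span ℂ (Set.range b)) :=
      FiniteDimensional.span_of_finite ℂ (Set.finite_range b)
    have h2 : IsClosed (Submodule.span ℂ (Set.range b) : Set H) :=
      Submodule.closed_of_finiteDimensional _
    have h3 : Submodule.span ℂ (Set.range b) = ⊤ := by
      rw [← b.dense_span]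
      exact (IsClosed.submodule_topologicalClosure_eq h2).symm
    have h4 : FiniteDimensional ℂ (⊤ : Submodule ℂ H) := h3 ▸ h1
    exact Module.Finite.of_surjective (⊤ : Submodule ℂ H).subtype
      (fun x => ⟨⟨x, trivial⟩, rfl⟩)
  obtain ⟨e⟩ : Nonempty (FreeGroup (Fin 2) ≃ w) := nonempty_equiv_of_countable
  exact ⟨reindexHB b e⟩

/-- Main theorem, for a Hilbert space with a basis indexed by the free group. -/
theorem main_basis (b : HilbertBasis (FreeGroup (Fin 2)) ℂ H) :
    ∃ T : H →L[ℂ] H, IsTypeIIOneFactor (WStar T) ∧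
      ∃ ε : ℝ, 0 < ε ∧ ∀ K : H →L[ℂ] H, IsNuc K ε → ¬ IsDirectSumOfIrreducibles (T + K) := by
  choose A hAsa hAn hAexp hAcomm hAel using fun s : Fin 2 =>
    exists_log (Lam b (of s)) (Lam_unitary b (of s)) (Lam_fix b s)
  set T : H →L[ℂ] H := A 0 + Complex.I • A 1 with hT
  have hTs : star T = A 0 - Complex.I • A 1 := by
    rw [hT, star_add, star_smul, (hAsa 0).star_eq, (hAsa 1).star_eq]
    simp [sub_eq_add_neg]
  -- the commutant of `{T, T*}`
  have hA0 : A 0 = (1 / 2 : ℂ) • (T + star T) := by
    rw [hTs, hT, add_add_sub_cancel, ← two_smul ℂ, smul_smul]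
    norm_num
  have hA1 : A 1 = (-Complex.I / 2) • (T - star T) := by
    rw [hTs, hT, add_sub_sub_cancel, ← two_smul ℂ, smul_smul, smul_smul]
    have : -Complex.I / 2 * 2 * Complex.I = 1 := by
      have := Complex.I_mul_I
      linear_combination -this
    rw [this, one_smul]
  have hcA : ∀ X : H →L[ℂ] H, Commute X T → Commute X (star T) → ∀ s, Commute X (A s) := by
    intro X h1 h2 s
    fin_cases s
    · change Commute X (A 0)
      rw [hA0]; exact (h1.add_right h2).smul_right _
    · change Commute X (A 1)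
      rw [hA1]; exact (h1.sub_right h2).smul_right _
  have hcL : ∀ X : H →L[ℂ] H, Commute X T → Commute X (star T) → ∀ g, Commute X (Lam b g) := by
    intro X h1 h2 g
    have hgen : ∀ s, Commute X (Lam b (of s)) := by
      intro s
      rw [← hAexp s]
      exact ((hcA X h1 h2 s).smul_right _).exp_right
    have hinv : ∀ g, Commute X (Lam b g) → Commute X (Lam b g⁻¹) := by
      intro g hg
      have e1 : Lam b g⁻¹ * Lam b g = 1 := by rw [← Lam_mul, inv_mul_cancel, Lam_one]
      have e2 : Lam b g * Lam b g⁻¹ = 1 := by rw [← Lam_mul, mul_inv_cancel, Lam_one]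
      change X * Lam b g⁻¹ = Lam b g⁻¹ * X
      calc X * Lam b g⁻¹ = Lam b g⁻¹ * (Lam b g * X) * Lam b g⁻¹ := by
            rw [← mul_assoc, e1, one_mul]
        _ = Lam b g⁻¹ * (X * Lam b g) * Lam b g⁻¹ := by rw [hg.eq]
        _ = Lam b g⁻¹ * X * (Lam b g * Lam b g⁻¹) := by noncomm_ring
        _ = Lam b g⁻¹ * X := by rw [e2, mul_one]
    induction g using FreeGroup.induction_on with
    | C1 => rw [Lam_one]; exact Commute.one_right X
    | of s => exact hgen s
    | inv_of s _ => exact hinv _ (hgen s)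
    | mul x y hx hy => rw [Lam_mul]; exact hx.mul_right hy
  have hcT : ∀ X : H →L[ℂ] H, (∀ g, Commute X (Lam b g)) → Commute X T ∧ Commute X (star T) := by
    intro X hX
    have h1 : ∀ s, Commute X (A s) := fun s => hAcomm s X (hX _) (by
      rw [star_Lam]; exact hX _)
    rw [hTs, hT]
    exact ⟨(h1 0).add_right ((h1 1).smul_right _), (h1 0).sub_right ((h1 1).smul_right _)⟩
  have hM : ∀ X : H →L[ℂ] H, X ∈ (WStar T).commutant ↔ ∀ g, Commute X (Lam b g) := by
    intro X
    have h1 : X ∈ (WStar T).commutant ↔ Commute X T ∧ Commute X (star T) := by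
      have h2 : WStar T = (commStar T).commutant := rfl
      rw [h2, VonNeumannAlgebra.commutant_commutant]
      exact mem_commStar T X
    rw [h1]
    exact ⟨fun h => hcL X h.1 h.2, fun h => hcT X h⟩
  refine ⟨T, isTypeIIOneFactor_of_commutant b _ hM, ?_⟩
  set M : ℝ := 2 * Real.pi + 1 with hMdef
  have hexp : 0 < Real.exp M := Real.exp_pos M
  have hMpos : 0 ≤ M := by positivity
  have hexp1 : 1 ≤ Real.exp M := Real.one_le_exp hMpos
  refine ⟨1 / 100 / Real.exp M, by positivity, fun K hK => ?_⟩
  set ε : ℝ := 1 / 100 / Real.exp M with hε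
  have hε1 : ε ≤ 1 := by
    rw [hε, div_le_one hexp]
    linarith
  have hεM : Real.exp M * ε = 1 / 100 := by
    rw [hε]; field_simp
  -- real and imaginary parts of `K`
  set Kc : Fin 2 → H →L[ℂ] H := fun s => if s = 0 then (1 / 2 : ℂ) • (K + star K)
    else (-Complex.I / 2) • (K - star K) with hKc
  have hKsa : ∀ s, IsSelfAdjoint (Kc s) := by
    intro s
    fin_cases s
    · change IsSelfAdjoint ((1 / 2 : ℂ) • (K + star K))
      rw [IsSelfAdjoint, star_smul, star_add, star_star, add_comm]
      simp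
    · change IsSelfAdjoint ((-Complex.I / 2) • (K - star K))
      rw [IsSelfAdjoint, star_smul, star_sub, star_star]
      rw [← neg_sub K (star K), smul_neg, ← neg_smul]
      congr 1
      simp [neg_div]
  have hKn : ∀ s, IsNuc (Kc s) ε := by
    intro s
    fin_cases s
    · change IsNuc ((1 / 2 : ℂ) • (K + star K)) ε
      refine ((hK.add hK.star).smul (1 / 2)).mono (le_of_eq ?_)
      have e : ‖(1 / 2 : ℂ)‖ = 1 / 2 := by simp
      rw [e]; ring
    · change IsNuc ((-Complex.I / 2) • (K - star K)) ε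
      have h1 : IsNuc (K - star K) (ε + ε) := by
        have h2 := (hK.star).smul (-1)
        have h3 := hK.add h2
        simpa [sub_eq_add_neg] using h3
      refine (h1.smul (-Complex.I / 2)).mono (le_of_eq ?_)
      have e : ‖(-Complex.I / 2 : ℂ)‖ = 1 / 2 := by simp
      rw [e]; ring
  have hKsum : K = Kc 0 + Complex.I • Kc 1 := by
    change K = (1 / 2 : ℂ) • (K + star K) + Complex.I • ((-Complex.I / 2) • (K - star K))
    rw [smul_smul]
    have : Complex.I * (-Complex.I / 2) = 1 / 2 := by
      have := Complex.I_mul_I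
      linear_combination (-1 / 2 : ℂ) * this
    rw [this, ← smul_add, add_add_sub_cancel, ← two_smul ℂ, smul_smul]
    norm_num
  have hAM : ∀ s, ‖A s‖ ≤ M := fun s => (hAn s).trans (by rw [hMdef]; linarith)
  have hAKM : ∀ s, ‖A s + Kc s‖ ≤ M := by
    intro s
    refine (norm_add_le _ _).trans ?_
    have := (hKn s).norm_le
    have := hAn s
    rw [hMdef]; linarith
  -- the perturbed unitaries
  set u' : Fin 2 → H →L[ℂ] H := fun s => NormedSpace.exp (Complex.I • (A s + Kc s)) with hu'
  have hu'u : ∀ s, u' s ∈ unitary (H →L[ℂ] H) := fun s => exp_unitary ((hAsa s).add (hKsa s))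
  have hdiff : ∀ s, IsNuc (u' s - Lam b (of s)) (1 / 100) := by
    intro s
    have := isNuc_exp_sub (A s) (Kc s) M (hAM s) (hAKM s) ε (hKn s)
    rw [hεM, hAexp s] at this
    exact this
  set V : Fin 2 → H →L[ℂ] H := fun s => star (Lam b (of s)) * u' s with hVdef
  have hVu : ∀ s, V s ∈ unitary (H →L[ℂ] H) := fun s =>
    mul_mem (Unitary.star_mem (Lam_unitary b (of s))) (hu'u s)
  have hLV : ∀ s, Lam b (of s) * V s = u' s := by
    intro s
    rw [hVdef]
    simp only
    rw [← mul_assoc, Unitary.mul_star_self_of_mem (Lam_unitary b (of s)), one_mul]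
  have hVn : ∀ s, IsNuc (V s - 1) (1 / 100) := by
    intro s
    have e1 : V s - 1 = star (Lam b (of s)) * (u' s - Lam b (of s)) * 1 := by
      rw [mul_one, mul_sub, Unitary.star_mul_self_of_mem (Lam_unitary b (of s))]
    rw [e1]
    refine ((hdiff s).mul_mul _ _).mono ?_
    have e2 : ‖star (Lam b (of s))‖ ≤ 1 := by
      rw [norm_star]
      exact ContinuousLinearMap.opNorm_le_bound _ zero_le_one fun x => by
        rw [one_mul, Lam_norm]
    have e3 := norm_one_le (H := H)
    calc ‖star (Lam b (of s))‖ * (1 / 100) * ‖(1 : H →L[ℂ] H)‖ ≤ 1 * (1 / 100) * 1 := by gcongr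
      _ = 1 / 100 := by norm_num
  obtain ⟨U, hU0, hU⟩ := exists_intertwiner b V hVu hVn (by norm_num) (by
    rw [Fintype.card_fin]; norm_num)
  have hedge : ∀ s, (A s + Kc s) * U = U * A s := by
    intro s
    refine edges (hAsa s) (hKsa s) (hKn s) (hAM s) (hAKM s) ?_ ?_ ?_
    · rw [hAexp s]; exact hAel s
    · rw [hAexp s]; exact weak_pow_tendsto b s
    · rw [hAexp s, hU s, hLV s]
  have hTK : T + K = (A 0 + Kc 0) + Complex.I • (A 1 + Kc 1) := by
    rw [hT]
    nth_rewrite 1 [hKsum]
    rw [smul_add]; abel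
  have hTKs : star (T + K) = (A 0 + Kc 0) - Complex.I • (A 1 + Kc 1) := by
    rw [hTK, star_add, star_smul, ((hAsa 0).add (hKsa 0)).star_eq,
      ((hAsa 1).add (hKsa 1)).star_eq, sub_eq_add_neg, ← neg_smul]
    congr 2
    simp
  refine not_directSum b T (T + K) U hcL (fun g => (hcT (Rho b g) fun h =>
    (Lam_commute_Rho b h g).symm).1) hU0 ?_ ?_
  · rw [hTK, add_mul, smul_mul_assoc, hedge 0, hedge 1, hT, mul_add, mul_smul_comm]
  · rw [hTKs, sub_mul, smul_mul_assoc, hedge 0, hedge 1, hTs, mul_sub, mul_smul_comm]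

end Pool.Agent.MP_5ec4a4_an
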