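import Pool.Agent.MP_5ec4a4_an.Defs

set_option autoImplicit false
set_option linter.unusedSectionVars false

open scoped InnerProductSpace ENNReal

namespace Pool.Agent.MP_5ec4a4_an

section

variable {X Y Z : Type*} {H K L : Type*}
  [NormedAddCommGroup H] [InnerProductSpace ℂ H] [CompleteSpace H]
  [NormedAddCommGroup K] [InnerProductSpace ℂ K] [CompleteSpace K]
  [NormedAddCommGroup L] [InnerProductSpace ℂ L] [CompleteSpace L]

theorem hb_ext (b : HilbertBasis X ℂ H) {A B : H →L[ℂ] K} (h : ∀ x, A (b x) = B (b x)) :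
    A = B := by
  apply ContinuousLinearMap.ext_on (s := Set.range b)
  · have := b.dense_span
    rw [Submodule.dense_iff_topologicalClosure_eq_top]
    exact this
  · rintro _ ⟨x, rfl⟩
    exact h x

theorem hb_ext_inner (b : HilbertBasis X ℂ H) {u v : H} (h : ∀ x, ⟪b x, u⟫_ℂ = ⟪b x, v⟫_ℂ) :
    u = v := by
  apply b.repr.injective
  ext x
  rw [b.repr_apply_apply, b.repr_apply_apply, h]

/-- The isometry sending a Hilbert basis to an orthonormal family. -/
noncomputable def onbMap (b : HilbertBasis X ℂ H) (v : X → K) (hv : Orthonormal ℂ v) :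
    H →L[ℂ] K :=
  (hv.orthogonalFamily.linearIsometry.comp b.repr.toLinearIsometry).toContinuousLinearMap

theorem onbMap_norm (b : HilbertBasis X ℂ H) (v : X → K) (hv : Orthonormal ℂ v) (x : H) :
    ‖onbMap b v hv x‖ = ‖x‖ := by
  simp [onbMap]

theorem onbMap_apply (b : HilbertBasis X ℂ H) (v : X → K) (hv : Orthonormal ℂ v) (x : X) :
    onbMap b v hv (b x) = v x := by
  classical
  change hv.orthogonalFamily.linearIsometry (b.repr (b x)) = v x
  rw [b.repr_self, OrthogonalFamily.linearIsometry_apply_single]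
  simp

/-- The isometry induced by an injection of the index sets of two Hilbert bases. -/
noncomputable def shift (b : HilbertBasis X ℂ H) (c : HilbertBasis Y ℂ K) (φ : X → Y)
    (hφ : Function.Injective φ) : H →L[ℂ] K :=
  onbMap b (c ∘ φ) (c.orthonormal.comp φ hφ)

theorem shift_norm (b : HilbertBasis X ℂ H) (c : HilbertBasis Y ℂ K) (φ : X → Y)
    (hφ : Function.Injective φ) (x : H) : ‖shift b c φ hφ x‖ = ‖x‖ :=
  onbMap_norm _ _ _ _

@[simp] theorem shift_apply (b : HilbertBasis X ℂ H) (c : HilbertBasis Y ℂ K) (φ : X → Y)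
    (hφ : Function.Injective φ) (x : X) : shift b c φ hφ (b x) = c (φ x) :=
  onbMap_apply _ _ _ _

theorem shift_comp (b : HilbertBasis X ℂ H) (c : HilbertBasis Y ℂ K) (d : HilbertBasis Z ℂ L)
    (φ : X → Y) (hφ : Function.Injective φ) (ψ : Y → Z) (hψ : Function.Injective ψ) :
    (shift c d ψ hψ).comp (shift b c φ hφ) = shift b d (ψ ∘ φ) (hψ.comp hφ) := by
  apply hb_ext b
  intro x
  simp

theorem shift_congr (b : HilbertBasis X ℂ H) (c : HilbertBasis Y ℂ K) (φ ψ : X → Y)
    (hφ : Function.Injective φ) (h : φ = ψ) :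
    shift b c φ hφ = shift b c ψ (h ▸ hφ) := by
  subst h; rfl

theorem shift_id (b : HilbertBasis X ℂ H) (φ : X → X) (hφ : Function.Injective φ)
    (h : ∀ x, φ x = x) : shift b b φ hφ = 1 := by
  apply hb_ext b
  intro x
  simp [h]

theorem adjoint_shift_comp (b : HilbertBasis X ℂ H) (c : HilbertBasis Y ℂ K) (φ : X → Y)
    (hφ : Function.Injective φ) :
    (ContinuousLinearMap.adjoint (shift b c φ hφ)).comp (shift b c φ hφ) = 1 := by
  have h := (ContinuousLinearMap.norm_map_iff_adjoint_comp_self (shift b c φ hφ)).1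
    (shift_norm b c φ hφ)
  exact h

theorem adjoint_shift_apply (b : HilbertBasis X ℂ H) (c : HilbertBasis Y ℂ K) (φ : X → Y)
    (hφ : Function.Injective φ) (x : X) :
    ContinuousLinearMap.adjoint (shift b c φ hφ) (c (φ x)) = b x := by
  have h := congrArg (fun A : H →L[ℂ] H => A (b x)) (adjoint_shift_comp b c φ hφ)
  simpa using h

theorem adjoint_shift_apply_of_notMem (b : HilbertBasis X ℂ H) (c : HilbertBasis Y ℂ K)
    (φ : X → Y) (hφ : Function.Injective φ) (y : Y) (hy : ∀ x, φ x ≠ y) :
    ContinuousLinearMap.adjoint (shift b c φ hφ) (c y) = 0 := by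
  apply hb_ext_inner b
  intro x
  rw [ContinuousLinearMap.adjoint_inner_right, shift_apply, inner_zero_right]
  exact c.orthonormal.2 (hy x)

theorem star_shift_equiv (b : HilbertBasis X ℂ H) (φ ψ : X → X)
    (hφ : Function.Injective φ) (hψ : Function.Injective ψ) (h : ∀ x, φ (ψ x) = x) :
    star (shift b b φ hφ) = shift b b ψ hψ := by
  apply hb_ext b
  intro x
  rw [shift_apply]
  conv_lhs => rw [← h x]
  exact adjoint_shift_apply b b φ hφ (ψ x)

/-- Reindexing of a Hilbert basis. -/
noncomputable def reindexHB (b : HilbertBasis X ℂ H) (e : Y ≃ X) : HilbertBasis Y ℂ H :=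
  HilbertBasis.mk (v := b ∘ e) (b.orthonormal.comp e e.injective) (by
    rw [e.surjective.range_comp, b.dense_span])

@[simp] theorem reindexHB_apply (b : HilbertBasis X ℂ H) (e : Y ≃ X) (y : Y) :
    reindexHB b e y = b (e y) := by
  simp [reindexHB]

end

end Pool.Agent.MP_5ec4a4_an
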