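import Pool.Agent.MP_5ec4a4_an.Ops

set_option autoImplicit false
set_option linter.unusedSectionVars false

open scoped InnerProductSpace ENNReal

namespace Pool.Agent.MP_5ec4a4_an

section

variable {G : Type*} [Group G] {H : Type*}
  [NormedAddCommGroup H] [InnerProductSpace ℂ H] [CompleteSpace H]

/-- Left translations: `Lam b g (b x) = b (g * x)`. -/
noncomputable def Lam (b : HilbertBasis G ℂ H) (g : G) : H →L[ℂ] H :=
  shift b b (fun x => g * x) (mul_right_injective g)

/-- Right translations: `Rho b g (b x) = b (x * g⁻¹)`. -/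
noncomputable def Rho (b : HilbertBasis G ℂ H) (g : G) : H →L[ℂ] H :=
  shift b b (fun x => x * g⁻¹) (mul_left_injective g⁻¹)

variable (b : HilbertBasis G ℂ H)

@[simp] theorem Lam_apply (g x : G) : Lam b g (b x) = b (g * x) := shift_apply _ _ _ _ _

@[simp] theorem Rho_apply (g x : G) : Rho b g (b x) = b (x * g⁻¹) := shift_apply _ _ _ _ _

theorem Lam_norm (g : G) (x : H) : ‖Lam b g x‖ = ‖x‖ := shift_norm _ _ _ _ _

theorem Rho_norm (g : G) (x : H) : ‖Rho b g x‖ = ‖x‖ := shift_norm _ _ _ _ _

theorem Lam_one : Lam b 1 = 1 := by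
  apply hb_ext b; intro x; simp

theorem Rho_one : Rho b 1 = 1 := by
  apply hb_ext b; intro x; simp

theorem Lam_mul (g h : G) : Lam b (g * h) = Lam b g * Lam b h := by
  apply hb_ext b; intro x; simp [mul_assoc]

theorem Rho_mul (g h : G) : Rho b (g * h) = Rho b g * Rho b h := by
  apply hb_ext b; intro x; simp [mul_assoc]

theorem star_Lam (g : G) : star (Lam b g) = Lam b g⁻¹ := by
  apply star_shift_equiv; intro x; simp

theorem star_Rho (g : G) : star (Rho b g) = Rho b g⁻¹ := by
  apply star_shift_equiv; intro x; simp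

theorem Lam_unitary (g : G) : Lam b g ∈ unitary (H →L[ℂ] H) := by
  rw [Unitary.mem_iff, star_Lam, ← Lam_mul, ← Lam_mul]
  simp [Lam_one]

theorem Rho_unitary (g : G) : Rho b g ∈ unitary (H →L[ℂ] H) := by
  rw [Unitary.mem_iff, star_Rho, ← Rho_mul, ← Rho_mul]
  simp [Rho_one]

theorem Lam_commute_Rho (g h : G) : Commute (Lam b g) (Rho b h) := by
  apply hb_ext b; intro x; simp [mul_assoc]

end

end Pool.Agent.MP_5ec4a4_an
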