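import Pool.Agent.MP_5ec4a4_an.Reps

set_option autoImplicit false
set_option linter.unusedSectionVars false

open scoped InnerProductSpace ENNReal InnerProduct
open ContinuousLinearMap (adjoint)

namespace Pool.Agent.MP_5ec4a4_an

section

variable {G : Type*} [Group G] {ι κ : Type*} {H₁ H₂ : Type*}
  [NormedAddCommGroup H₁] [InnerProductSpace ℂ H₁] [CompleteSpace H₁]
  [NormedAddCommGroup H₂] [InnerProductSpace ℂ H₂] [CompleteSpace H₂]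

/-- Left translations on `ℓ²(G × ι)`. -/
noncomputable def LamP (b : HilbertBasis (G × ι) ℂ H₁) (g : G) : H₁ →L[ℂ] H₁ :=
  shift b b (fun p => (g * p.1, p.2)) (fun p q h => by
    simp only [Prod.mk.injEq, mul_right_inj] at h
    exact Prod.ext h.1 h.2)

variable (b₁ : HilbertBasis (G × ι) ℂ H₁) (b₂ : HilbertBasis (G × κ) ℂ H₂)

@[simp] theorem LamP_apply (g : G) (p : G × ι) : LamP b₁ g (b₁ p) = b₁ (g * p.1, p.2) :=
  shift_apply _ _ _ _ _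

theorem LamP_norm (g : G) (x : H₁) : ‖LamP b₁ g x‖ = ‖x‖ := shift_norm _ _ _ _ _

theorem LamP_one : LamP b₁ 1 = 1 := by
  apply hb_ext b₁; intro x; simp

theorem LamP_mul (g h : G) : LamP b₁ (g * h) = LamP b₁ g * LamP b₁ h := by
  apply hb_ext b₁; intro x; simp [mul_assoc]

theorem star_LamP (g : G) : star (LamP b₁ g) = LamP b₁ g⁻¹ := by
  apply star_shift_equiv; intro x; simp

theorem adjoint_LamP (g : G) : adjoint (LamP b₁ g) = LamP b₁ g⁻¹ := star_LamP b₁ g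

/-- The (finite) trace on the commutant of the left translations of `ℓ²(G × ι)`. -/
noncomputable def Tr [Fintype ι] (X : H₁ →L[ℂ] H₁) : ℂ := ∑ i, ⟪b₁ (1, i), X (b₁ (1, i))⟫_ℂ

/-- `X` intertwines the left translations. -/
def Intw (X : H₁ →L[ℂ] H₂) : Prop := ∀ g, X.comp (LamP b₁ g) = (LamP b₂ g).comp X

variable {b₁ b₂}

theorem Intw.apply {X : H₁ →L[ℂ] H₂} (h : Intw b₁ b₂ X) (g : G) (x : H₁) :
    X (LamP b₁ g x) = LamP b₂ g (X x) :=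
  congrArg (fun T : H₁ →L[ℂ] H₂ => T x) (h g)

theorem Intw.adj {X : H₁ →L[ℂ] H₂} (h : Intw b₁ b₂ X) :
    Intw b₂ b₁ (ContinuousLinearMap.adjoint X) := by
  intro g
  have h1 := congrArg ContinuousLinearMap.adjoint (h g⁻¹)
  rw [ContinuousLinearMap.adjoint_comp, ContinuousLinearMap.adjoint_comp, adjoint_LamP,
    adjoint_LamP, inv_inv] at h1
  exact h1.symm

theorem Intw.inner_eq {X : H₁ →L[ℂ] H₂} (h : Intw b₁ b₂ X) (g : G) (i : ι) (k : κ) :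
    ⟪b₂ (1, k), X (b₁ (g, i))⟫_ℂ = ⟪b₂ (g⁻¹, k), X (b₁ (1, i))⟫_ℂ := by
  have h1 : b₁ (g, i) = LamP b₁ g (b₁ (1, i)) := by simp
  have h2 : b₂ (g⁻¹, k) = ContinuousLinearMap.adjoint (LamP b₂ g) (b₂ (1, k)) := by
    rw [adjoint_LamP]; simp
  rw [h1, h.apply, h2, ContinuousLinearMap.adjoint_inner_left]

theorem Intw.inner_eq' {X : H₁ →L[ℂ] H₂} (h : Intw b₁ b₂ X) (g : G) (i : ι) (k : κ) :
    ⟪b₂ (g, k), X (b₁ (1, i))⟫_ℂ = ⟪b₂ (1, k), X (b₁ (g⁻¹, i))⟫_ℂ := by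
  rw [h.inner_eq, inv_inv]

theorem hasSum_trace [Fintype ι] [Fintype κ] {X : H₁ →L[ℂ] H₂} {Z : H₂ →L[ℂ] H₁} :
    HasSum (fun g : G => ∑ k, ∑ i, ⟪b₂ (1, k), X (b₁ (g, i))⟫_ℂ * ⟪b₁ (g, i), Z (b₂ (1, k))⟫_ℂ)
      (Tr b₂ (X.comp Z)) := by
  unfold Tr
  refine hasSum_sum fun k _ => ?_
  have h1 := b₁.hasSum_inner_mul_inner (ContinuousLinearMap.adjoint X (b₂ (1, k)))
    (Z (b₂ (1, k)))
  have h2 : ⟪ContinuousLinearMap.adjoint X (b₂ (1, k)), Z (b₂ (1, k))⟫_ℂ =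
      ⟪b₂ (1, k), (X.comp Z) (b₂ (1, k))⟫_ℂ := by
    rw [ContinuousLinearMap.adjoint_inner_left]; rfl
  rw [h2] at h1
  have h3 := h1.prod_fiberwise (fun g => hasSum_fintype _)
  have h4 : (fun g : G => ∑ i, ⟪b₂ (1, k), X (b₁ (g, i))⟫_ℂ * ⟪b₁ (g, i), Z (b₂ (1, k))⟫_ℂ) =
      fun g : G => ∑ i, ⟪ContinuousLinearMap.adjoint X (b₂ (1, k)), b₁ (g, i)⟫_ℂ *
        ⟪b₁ (g, i), Z (b₂ (1, k))⟫_ℂ := by
    funext g
    refine Finset.sum_congr rfl fun i _ => ?_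
    rw [ContinuousLinearMap.adjoint_inner_left]
  rw [h4]
  exact h3

theorem trace_comm [Fintype ι] [Fintype κ] {X : H₁ →L[ℂ] H₂} {Z : H₂ →L[ℂ] H₁}
    (hX : Intw b₁ b₂ X) (hZ : Intw b₂ b₁ Z) :
    Tr b₂ (X.comp Z) = Tr b₁ (Z.comp X) := by
  have h1 : HasSum (fun g : G => ∑ k, ∑ i,
      ⟪b₂ (1, k), X (b₁ (g, i))⟫_ℂ * ⟪b₁ (g, i), Z (b₂ (1, k))⟫_ℂ) (Tr b₂ (X.comp Z)) :=
    hasSum_trace
  have h2 : HasSum (fun g : G => ∑ i, ∑ k,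
      ⟪b₁ (1, i), Z (b₂ (g, k))⟫_ℂ * ⟪b₂ (g, k), X (b₁ (1, i))⟫_ℂ) (Tr b₁ (Z.comp X)) :=
    hasSum_trace
  have h3 := (Equiv.inv G).hasSum_iff.2 h2
  refine h1.unique ?_
  refine (congrArg (fun f => HasSum f (Tr b₁ (Z.comp X))) ?_).mpr h3
  funext g
  simp only [Function.comp, Equiv.inv_apply]
  rw [Finset.sum_comm]
  refine Finset.sum_congr rfl fun i _ => Finset.sum_congr rfl fun k _ => ?_
  rw [hX.inner_eq, hZ.inner_eq' g k i, mul_comm]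

end

end Pool.Agent.MP_5ec4a4_an
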