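import Pool.Agent.MP_5ec4a4_an.Dim

set_option autoImplicit false
set_option linter.unusedSectionVars false

open scoped InnerProductSpace ENNReal InnerProduct
open ContinuousLinearMap (adjoint)
open FreeGroup

namespace Pool.Agent.MP_5ec4a4_an

section

variable {S : Type} [Fintype S] [DecidableEq S]

/-- The ball of radius `n`. -/
abbrev Ball (S : Type) [Fintype S] [DecidableEq S] (n : ℕ) : Type :=
  {x : FreeGroup S // x.norm ≤ n}

/-- Edges in the ball. -/
abbrev Edge (S : Type) [Fintype S] [DecidableEq S] (n : ℕ) : Type :=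
  {p : FreeGroup S × S // p.1.norm ≤ n ∧ (of p.2 * p.1).norm ≤ n}

noncomputable instance (n : ℕ) : Fintype (Ball S n) := (ball_finite n).fintype

noncomputable instance (n : ℕ) : Fintype (Edge S n) := by
  have : Finite (Edge S n) := by
    apply Finite.of_injective (β := Ball S n × S) (fun e => (⟨e.1.1, e.2.1⟩, e.1.2))
    rintro ⟨⟨x, s⟩, hx⟩ ⟨⟨y, t⟩, hy⟩ h
    simp only [Prod.mk.injEq, Subtype.mk.injEq] at h
    obtain ⟨h1, h2⟩ := h
    subst h1; subst h2; rfl
  exact Fintype.ofFinite _

/-- `{x : |x| ≤ n, |s x| ≤ n}`. -/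
noncomputable def Yset (n : ℕ) (s : S) : Finset (FreeGroup S) :=
  (ball_finite n).toFinset.filter (fun x => (of s * x).norm ≤ n)

theorem mem_Yset {n : ℕ} {s : S} {x : FreeGroup S} :
    x ∈ Yset n s ↔ x.norm ≤ n ∧ (of s * x).norm ≤ n := by
  simp [Yset]

variable {H : Type*} [NormedAddCommGroup H] [InnerProductSpace ℂ H] [CompleteSpace H]

/-- A finitely supported perturbation of the left translations by generators. -/
structure FinPert (b : HilbertBasis (FreeGroup S) ℂ H) (n : ℕ) (V : S → H →L[ℂ] H) : Prop where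
  unit : ∀ s, V s ∈ unitary (H →L[ℂ] H)
  fix : ∀ s x, x ∉ Yset n s → V s (b x) = b x

/-- The perturbed unitaries. -/
noncomputable def pert (b : HilbertBasis (FreeGroup S) ℂ H) (V : S → H →L[ℂ] H) (s : S) :
    H →L[ℂ] H := Lam b (of s) * V s

variable {b : HilbertBasis (FreeGroup S) ℂ H} {n : ℕ} {V : S → H →L[ℂ] H}

theorem unitary_inner {U : H →L[ℂ] H} (hU : U ∈ unitary (H →L[ℂ] H)) (x y : H) :
    ⟪U x, U y⟫_ℂ = ⟪x, y⟫_ℂ := by
  rw [← ContinuousLinearMap.adjoint_inner_right]
  have := congrArg (fun T : H →L[ℂ] H => T y) (Unitary.star_mul_self_of_mem hU)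
  have h2 : adjoint U (U y) = y := this
  rw [h2]

theorem unitary_norm {U : H →L[ℂ] H} (hU : U ∈ unitary (H →L[ℂ] H)) (x : H) :
    ‖U x‖ = ‖x‖ := by
  have h := unitary_inner hU x x
  rw [inner_self_eq_norm_sq_to_K, inner_self_eq_norm_sq_to_K] at h
  have h2 : ‖U x‖ ^ 2 = ‖x‖ ^ 2 := by exact_mod_cast h
  exact (pow_left_inj₀ (norm_nonneg _) (norm_nonneg _) two_ne_zero).1 h2

theorem unitary_star_apply {U : H →L[ℂ] H} (hU : U ∈ unitary (H →L[ℂ] H)) (x : H) :
    star U (U x) = x :=
  congrArg (fun T : H →L[ℂ] H => T x) (Unitary.star_mul_self_of_mem hU)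

theorem unitary_apply_star {U : H →L[ℂ] H} (hU : U ∈ unitary (H →L[ℂ] H)) (x : H) :
    U (star U x) = x :=
  congrArg (fun T : H →L[ℂ] H => T x) (Unitary.mul_star_self_of_mem hU)

theorem pert_unitary (h : FinPert b n V) (s : S) : pert b V s ∈ unitary (H →L[ℂ] H) :=
  mul_mem (Lam_unitary b (of s)) (h.unit s)

/-- `V s (b y)` is supported in `Yset n s` for `y ∈ Yset n s`. -/
theorem FinPert.expand (h : FinPert b n V) {s : S} {y : FreeGroup S} (hy : y ∈ Yset n s) :
    V s (b y) = ∑ x ∈ Yset n s, ⟪b x, V s (b y)⟫_ℂ • b x := by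
  apply hb_ext_inner b
  intro x
  rw [inner_sum]
  simp only [inner_smul_right]
  by_cases hx : x ∈ Yset n s
  · rw [Finset.sum_eq_single x]
    · rw [inner_self_eq_norm_sq_to_K, b.orthonormal.1]; simp
    · intro z _ hz
      rw [b.orthonormal.2 (Ne.symm hz), mul_zero]
    · intro hx'; exact absurd hx hx'
  · rw [Finset.sum_eq_zero]
    · have h1 := h.fix s x hx
      conv_lhs => rw [← h1]
      rw [unitary_inner (h.unit s)]
      exact b.orthonormal.2 (fun hxy => hx (hxy ▸ hy))
    · intro z hz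
      rw [b.orthonormal.2 (fun hxz : x = z => hx (by rw [hxz]; exact hz)), mul_zero]

/-- The standard model `ℓ²(X)`. -/
abbrev EllTwo (X : Type) : Type := lp (fun _ : X => ℂ) 2

noncomputable def stdB (X : Type) : HilbertBasis X ℂ (EllTwo X) := default

/-- The inclusion of the `i`-th coordinate. -/
noncomputable def incl (b : HilbertBasis (FreeGroup S) ℂ H) {ι : Type} (i : ι) :
    H →L[ℂ] EllTwo (FreeGroup S × ι) :=
  shift b (stdB _) (fun x => (x, i)) (fun x y h => by simpa using h)

@[simp] theorem incl_apply {ι : Type} (i : ι) (x : FreeGroup S) :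
    incl b i (b x) = stdB (FreeGroup S × ι) (x, i) := shift_apply _ _ _ _ _

theorem adjoint_incl_self {ι : Type} (i : ι) (x : FreeGroup S) :
    adjoint (incl b i) (stdB (FreeGroup S × ι) (x, i)) = b x :=
  adjoint_shift_apply b (stdB (FreeGroup S × ι)) (fun x => (x, i)) _ x

theorem adjoint_incl_ne {ι : Type} (i j : ι) (hij : i ≠ j) (x : FreeGroup S) :
    adjoint (incl b i) (stdB (FreeGroup S × ι) (x, j)) = 0 := by
  apply adjoint_shift_apply_of_notMem
  intro y hy
  simp only [Prod.mk.injEq] at hy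
  exact hij hy.2

/-- One relation, as an operator on the rank one free module. -/
noncomputable def relOp (b : HilbertBasis (FreeGroup S) ℂ H) (V : S → H →L[ℂ] H) (n : ℕ)
    (e : Edge S n) : H →L[ℂ] EllTwo (FreeGroup S × Ball S n) :=
  (incl b (⟨e.1.1, e.2.1⟩ : Ball S n)).comp (Rho b (of e.1.2)⁻¹) -
    ∑ x : Yset n e.1.2, ⟪b x, V e.1.2 (b e.1.1)⟫_ℂ •
      incl b (⟨of e.1.2 * x, (mem_Yset.1 x.2).2⟩ : Ball S n)

/-- The relation operator. -/
noncomputable def relAll (b : HilbertBasis (FreeGroup S) ℂ H) (V : S → H →L[ℂ] H) (n : ℕ) :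
    EllTwo (FreeGroup S × Edge S n) →L[ℂ] EllTwo (FreeGroup S × Ball S n) :=
  ∑ e : Edge S n, (relOp b V n e).comp (adjoint (incl b e))

theorem relAll_apply (e : Edge S n) (g : FreeGroup S) :
    relAll b V n (stdB _ (g, e)) = relOp b V n e (b g) := by
  unfold relAll
  rw [sum_apply, Finset.sum_eq_single e]
  · rw [ContinuousLinearMap.comp_apply, adjoint_incl_self]
  · intro f _ hf
    rw [ContinuousLinearMap.comp_apply, adjoint_incl_ne f e hf, map_zero]
  · intro h; exact absurd (Finset.mem_univ e) h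

theorem relOp_apply (e : Edge S n) (g : FreeGroup S) :
    relOp b V n e (b g) = stdB (FreeGroup S × Ball S n) (g * of e.1.2, ⟨e.1.1, e.2.1⟩) -
      ∑ x : Yset n e.1.2, ⟪b x, V e.1.2 (b e.1.1)⟫_ℂ •
        stdB (FreeGroup S × Ball S n) (g, ⟨of e.1.2 * x, (mem_Yset.1 x.2).2⟩) := by
  unfold relOp
  rw [sub_apply, ContinuousLinearMap.comp_apply, Rho_apply, inv_inv,
    incl_apply, sum_apply]
  congr 1
  refine Finset.sum_congr rfl fun x _ => ?_
  rw [smul_apply, incl_apply]

theorem relAll_intw : Intw (stdB (FreeGroup S × Edge S n)) (stdB (FreeGroup S × Ball S n))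
    (relAll b V n) := by
  intro g
  apply hb_ext (stdB _)
  rintro ⟨h, e⟩
  rw [ContinuousLinearMap.comp_apply, ContinuousLinearMap.comp_apply, LamP_apply, relAll_apply,
    relAll_apply, relOp_apply, relOp_apply, map_sub, map_sum, LamP_apply]
  simp only [mul_assoc]
  congr 1
  refine Finset.sum_congr rfl fun x _ => ?_
  rw [map_smul, LamP_apply]

/-- `Φ : b x ↦ (x π(x)⁻¹, π(x))`. -/
noncomputable def phi (b : HilbertBasis (FreeGroup S) ℂ H) (n : ℕ) :
    H →L[ℂ] EllTwo (FreeGroup S × Ball S n) :=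
  shift b (stdB _) (fun x => (x * (ballProj n x)⁻¹, ⟨ballProj n x, ballProj_norm_le n x⟩))
    (fun x y h => by
      simp only [Prod.mk.injEq, Subtype.mk.injEq] at h
      obtain ⟨h1, h2⟩ := h
      rw [h2] at h1
      exact mul_right_cancel h1)

@[simp] theorem phi_apply (x : FreeGroup S) :
    phi b n (b x) = stdB (FreeGroup S × Ball S n)
      (x * (ballProj n x)⁻¹, ⟨ballProj n x, ballProj_norm_le n x⟩) := shift_apply _ _ _ _ _

theorem phi_apply_ball {x : FreeGroup S} (hx : x.norm ≤ n) :
    phi b n (b x) = stdB (FreeGroup S × Ball S n) (1, ⟨x, hx⟩) := by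
  rw [phi_apply]
  congr 1
  have h1 := ballProj_eq_self hx
  ext
  · simp [h1]
  · simp [h1]

/-- The wave operator `Θ = P Φ`. -/
noncomputable def theta (b : HilbertBasis (FreeGroup S) ℂ H) (V : S → H →L[ℂ] H) (n : ℕ) :
    H →L[ℂ] EllTwo (FreeGroup S × Ball S n) :=
  phi b n - (ranProj (relAll b V n)).comp (phi b n)

theorem theta_apply (x : H) :
    theta b V n x = phi b n x - ranProj (relAll b V n) (phi b n x) := rfl

theorem ranProj_of_mem {K₁ K₂ : Type*}
    [NormedAddCommGroup K₁] [InnerProductSpace ℂ K₁] [CompleteSpace K₁]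
    [NormedAddCommGroup K₂] [InnerProductSpace ℂ K₂] [CompleteSpace K₂]
    (R : K₁ →L[ℂ] K₂) {v : K₂} (hv : v ∈ cran R) : ranProj R v = v :=
  Submodule.starProjection_eq_self_iff.2 hv

theorem theta_intw (h : FinPert b n V) (s : S) :
    (theta b V n).comp (pert b V s) = (LamP (stdB _) (of s)).comp (theta b V n) := by
  apply hb_ext b
  intro x
  rw [ContinuousLinearMap.comp_apply, ContinuousLinearMap.comp_apply, theta_apply, theta_apply,
    map_sub, ← (relAll_intw (b := b) (V := V) (n := n)).ranProj_apply]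
  suffices hs : LamP (stdB _) (of s) (phi b n (b x)) - phi b n (pert b V s (b x)) ∈
      cran (relAll b V n) by
    have h1 := ranProj_of_mem _ hs
    rw [map_sub] at h1
    have h2 : phi b n (pert b V s (b x)) - ranProj (relAll b V n) (phi b n (pert b V s (b x))) =
      LamP (stdB _) (of s) (phi b n (b x)) -
        (ranProj (relAll b V n) (LamP (stdB _) (of s) (phi b n (b x)))) := by
      rw [sub_eq_sub_iff_add_eq_add]
      rw [sub_eq_sub_iff_add_eq_add] at h1
      rw [add_comm, ← h1, add_comm]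
    exact h2
  by_cases hx : x ∈ Yset n s
  · have hx' := mem_Yset.1 hx
    have h1 : phi b n (pert b V s (b x)) = ∑ y : Yset n s, ⟪b y, V s (b x)⟫_ℂ •
        stdB (FreeGroup S × Ball S n) (1, ⟨of s * y, (mem_Yset.1 y.2).2⟩) := by
      have e1 : pert b V s (b x) = Lam b (of s) (V s (b x)) := rfl
      rw [e1, h.expand hx, map_sum, map_sum, ← Finset.sum_coe_sort]
      refine Finset.sum_congr rfl fun y _ => ?_
      rw [map_smul, map_smul, Lam_apply, phi_apply_ball (mem_Yset.1 y.2).2, ← h.expand hx]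
    have h2 : LamP (stdB _) (of s) (phi b n (b x)) - phi b n (pert b V s (b x)) =
        relAll b V n (stdB _ (1, (⟨(x, s), hx'⟩ : Edge S n))) := by
      rw [h1, relAll_apply, relOp_apply, phi_apply_ball hx'.1, LamP_apply]
      simp
    rw [h2]
    exact Submodule.le_topologicalClosure _ ⟨_, rfl⟩
  · have h1 : pert b V s (b x) = b (of s * x) := by
      change Lam b (of s) (V s (b x)) = _
      rw [h.fix s x hx, Lam_apply]
    have h2 : ballProj n (of s * x) = ballProj n x :=
      ballProj_of_mul s (fun hc => hx (mem_Yset.2 hc))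
    rw [h1, phi_apply, phi_apply, LamP_apply]
    simp only [h2, mul_assoc, sub_self]
    exact Submodule.zero_mem _

theorem theta_range_invariant (h : FinPert b n V) (g : FreeGroup S) :
    ∀ x : H, ∃ x' : H, LamP (stdB _) g (theta b V n x) = theta b V n x' := by
  refine left_induction
    (P := fun g => ∀ x : H, ∃ x' : H, LamP (stdB _) g (theta b V n x) = theta b V n x') ?_ ?_ g
  · intro x
    exact ⟨x, by rw [LamP_one]; rfl⟩
  · intro s g
    constructor
    · intro hg x
      obtain ⟨x', hx'⟩ := hg x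
      refine ⟨star (pert b V s) x', ?_⟩
      have h1 : theta b V n x' = LamP (stdB _) (of s) (theta b V n (star (pert b V s) x')) := by
        have := congrArg (fun T : H →L[ℂ] _ => T (star (pert b V s) x')) (theta_intw h s)
        simp only [ContinuousLinearMap.comp_apply] at this
        rw [unitary_apply_star (pert_unitary h s)] at this
        exact this
      rw [LamP_mul, h1] at hx'
      have h2 : LamP (stdB (FreeGroup S × Ball S n)) (of s)
          (LamP (stdB _) g (theta b V n x)) =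
          LamP (stdB _) (of s) (theta b V n (star (pert b V s) x')) := hx'
      have h3 := congrArg (LamP (stdB (FreeGroup S × Ball S n)) (of s)⁻¹) h2
      have h4 : ∀ v, LamP (stdB (FreeGroup S × Ball S n)) (of s)⁻¹
          (LamP (stdB _) (of s) v) = v := by
        intro v
        have := congrArg (fun T : EllTwo (FreeGroup S × Ball S n) →L[ℂ] _ => T v)
          (LamP_mul (stdB (FreeGroup S × Ball S n)) (of s)⁻¹ (of s))
        rw [inv_mul_cancel, LamP_one] at this
        exact this.symm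
      rw [h4, h4] at h3
      exact h3
    · intro hg x
      obtain ⟨x', hx'⟩ := hg x
      refine ⟨pert b V s x', ?_⟩
      rw [LamP_mul]
      change LamP (stdB _) (of s) (LamP (stdB _) g (theta b V n x)) = _
      rw [hx']
      exact (congrArg (fun T : H →L[ℂ] _ => T x') (theta_intw h s)).symm

theorem orthogonal_cran_theta (h : FinPert b n V) :
    (cran (theta b V n))ᗮ ≤ cran (relAll b V n) := by
  intro w hw
  rw [← Submodule.starProjection_eq_self_iff]
  change ranProj (relAll b V n) w = w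
  symm
  rw [← sub_eq_zero]
  apply hb_ext_inner (stdB _)
  rintro ⟨g, y⟩
  rw [inner_zero_right, inner_sub_right]
  have h1 : ⟪stdB (FreeGroup S × Ball S n) (g, y), ranProj (relAll b V n) w⟫_ℂ =
      ⟪ranProj (relAll b V n) (stdB (FreeGroup S × Ball S n) (g, y)), w⟫_ℂ :=
    (Submodule.inner_starProjection_left_eq_right _ _ _).symm
  rw [h1, ← inner_sub_left]
  have h2 : stdB (FreeGroup S × Ball S n) (g, y) -
      ranProj (relAll b V n) (stdB (FreeGroup S × Ball S n) (g, y)) =
      LamP (stdB _) g (theta b V n (b y)) := by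
    rw [theta_apply, map_sub, ← (relAll_intw (b := b) (V := V) (n := n)).ranProj_apply,
      phi_apply_ball y.2, LamP_apply]
    simp
  obtain ⟨x', hx'⟩ := theta_range_invariant h g (b y)
  rw [h2, hx']
  exact hw _ (Submodule.le_topologicalClosure _ ⟨x', rfl⟩)

/-- The dimension of the closure of the range of `Θ` is at least `1`. -/
theorem one_le_dim_theta (h : FinPert b n V) :
    1 ≤ ∑ k, ‖ranProj (theta b V n) (stdB (FreeGroup S × Ball S n) (1, k))‖ ^ 2 := by
  have h1 := sum_ranProj_le (relAll_intw (b := b) (V := V) (n := n))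
  have h2 : ∀ k : Ball S n, 1 - ‖ranProj (relAll b V n) (stdB _ (1, k))‖ ^ 2 ≤
      ‖ranProj (theta b V n) (stdB (FreeGroup S × Ball S n) (1, k))‖ ^ 2 := by
    intro k
    set v := stdB (FreeGroup S × Ball S n) (1, k) with hv
    set u := v - ranProj (theta b V n) v with hu
    have hnv : ‖v‖ = 1 := (stdB _).orthonormal.1 _
    have hu1 : u ∈ (cran (theta b V n))ᗮ := Submodule.sub_starProjection_mem_orthogonal _
    have hu2 : ranProj (relAll b V n) u = u := ranProj_of_mem _ (orthogonal_cran_theta h hu1)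
    have hu3 : ⟪ranProj (theta b V n) v, u⟫_ℂ = 0 :=
      hu1 _ (Submodule.starProjection_apply_mem _ _)
    have h3 : ‖u‖ ^ 2 = RCLike.re ⟪v, u⟫_ℂ := by
      have e1 : v = u + ranProj (theta b V n) v := by rw [hu]; abel
      conv_rhs => rw [e1, inner_add_left, hu3, add_zero, inner_self_eq_norm_sq]
    have h4 : ‖u‖ ^ 2 ≤ ‖ranProj (relAll b V n) v‖ * ‖u‖ := by
      rw [h3]
      conv_lhs => rw [← hu2]
      have e1 : ⟪v, ranProj (relAll b V n) u⟫_ℂ = ⟪ranProj (relAll b V n) v, u⟫_ℂ :=
        (Submodule.inner_starProjection_left_eq_right _ _ _).symm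
      rw [e1]
      exact (RCLike.re_le_norm _).trans (norm_inner_le_norm _ _)
    have h5 : ‖u‖ ≤ ‖ranProj (relAll b V n) v‖ := by
      by_contra hc
      push Not at hc
      have : 0 ≤ ‖ranProj (relAll b V n) v‖ := norm_nonneg _
      nlinarith
    have h6 : ‖v‖ ^ 2 = ‖u‖ ^ 2 + ‖ranProj (theta b V n) v‖ ^ 2 := by
      have e1 : v = u + ranProj (theta b V n) v := by rw [hu]; abel
      conv_lhs => rw [e1, norm_add_sq (𝕜 := ℂ)]
      have e2 : ⟪u, ranProj (theta b V n) v⟫_ℂ = 0 := by
        rw [← inner_conj_symm, hu3, map_zero]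
      rw [e2]; simp
    rw [hnv] at h6
    have h7 : ‖u‖ ^ 2 ≤ ‖ranProj (relAll b V n) v‖ ^ 2 :=
      pow_le_pow_left₀ (norm_nonneg _) h5 2
    linarith
  have h3 : (Fintype.card (Edge S n) : ℝ) + 1 ≤ Fintype.card (Ball S n) := by
    have := card_edges (S := S) n
    rw [Nat.card_eq_fintype_card, Nat.card_eq_fintype_card] at this
    exact_mod_cast this
  have h4 := Finset.sum_le_sum (fun k (_ : k ∈ Finset.univ) => h2 k)
  rw [Finset.sum_sub_distrib] at h4
  simp only [Finset.sum_const, Finset.card_univ, nsmul_eq_mul, mul_one] at h4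
  linarith

/-- Adjoint form of an intertwining relation between unitaries. -/
theorem adjoint_intw_of_unitary {K : Type*} [NormedAddCommGroup K] [InnerProductSpace ℂ K]
    [CompleteSpace K] {U : H →L[ℂ] H} {L : K →L[ℂ] K} (hU : U ∈ unitary (H →L[ℂ] H))
    (hL : L ∈ unitary (K →L[ℂ] K)) {W : K →L[ℂ] H} (h : W.comp L = U.comp W) :
    (adjoint W).comp U = L.comp (adjoint W) := by
  have h1 := congrArg adjoint h
  rw [ContinuousLinearMap.adjoint_comp, ContinuousLinearMap.adjoint_comp] at h1
  ext x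
  have h2 : ∀ z, adjoint L (adjoint W z) = adjoint W (adjoint U z) := fun z =>
    congrArg (fun T : H →L[ℂ] K => T z) h1
  have h3 := h2 (U x)
  have h4 : adjoint U (U x) = x := unitary_star_apply hU x
  rw [h4] at h3
  change adjoint W (U x) = L (adjoint W x)
  rw [← h3]
  exact (unitary_apply_star hL _).symm

theorem LamP_unitary {G : Type*} [Group G] {ι : Type*} (b₁ : HilbertBasis (G × ι) ℂ H) (g : G) :
    LamP b₁ g ∈ unitary (H →L[ℂ] H) := by
  rw [Unitary.mem_iff, star_LamP, ← LamP_mul, ← LamP_mul]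
  simp [LamP_one]

theorem exists_W (h : FinPert b n V) {δ : ℝ} (hδ : 0 < δ) :
    ∃ W : EllTwo (FreeGroup S × Ball S n) →L[ℂ] H, (∀ x, ‖W x‖ ≤ ‖x‖) ∧
      (∀ s, W.comp (LamP (stdB _) (of s)) = (pert b V s).comp W) ∧
      1 - δ ≤ ∑ k, ‖W (stdB _ (1, k))‖ ^ 2 := by
  set κ := Ball S n
  have hcard : (0 : ℝ) < Fintype.card κ + 1 := by positivity
  choose ε₀ hε₀ hε using fun k : κ => cut_tendsto (theta b V n) (stdB _ (1, k))
    (δ := δ / (Fintype.card κ + 1)) (by positivity)
  obtain ⟨ε, hε1, hε2⟩ : ∃ ε : ℝ, 0 < ε ∧ ∀ k, ε ≤ ε₀ k := by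
    rcases isEmpty_or_nonempty κ with hκ | hκ
    · exact ⟨1, one_pos, fun k => (hκ.false k).elim⟩
    · refine ⟨Finset.univ.inf' Finset.univ_nonempty ε₀, ?_, fun k =>
        Finset.inf'_le _ (Finset.mem_univ k)⟩
      rw [Finset.lt_inf'_iff]
      exact fun k _ => hε₀ k
  obtain ⟨T, hTsa, hG, hTc⟩ := exists_res (theta b V n) ε hε1
  have hTadj : adjoint T = T := hTsa
  set W : EllTwo (FreeGroup S × Ball S n) →L[ℂ] H := T.comp (adjoint (theta b V n)) with hW
  have hnorm : ∀ v, ‖W v‖ ^ 2 = RCLike.re ⟪v, cut (theta b V n) (T * T) v⟫_ℂ := by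
    intro v
    rw [cut_apply, ← ContinuousLinearMap.adjoint_inner_left]
    change _ = RCLike.re ⟪adjoint (theta b V n) v, T (T (adjoint (theta b V n) v))⟫_ℂ
    rw [← ContinuousLinearMap.adjoint_inner_left, hTadj, inner_self_eq_norm_sq]
    rfl
  refine ⟨W, ?_, ?_, ?_⟩
  · intro v
    have h1 : ‖W v‖ ^ 2 ≤ ‖v‖ ^ 2 := by
      rw [hnorm]
      refine ((RCLike.re_le_norm _).trans (norm_inner_le_norm _ _)).trans ?_
      rw [pow_two]
      exact mul_le_mul_of_nonneg_left (hG.norm_cut_le v) (norm_nonneg _)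
    exact (pow_le_pow_iff_left₀ (norm_nonneg _) (norm_nonneg _) two_ne_zero).1 h1
  · intro s
    have h1 : (adjoint (theta b V n)).comp (LamP (stdB _) (of s)) =
        (pert b V s).comp (adjoint (theta b V n)) :=
      adjoint_intw_of_unitary (LamP_unitary _ _) (pert_unitary h s) (theta_intw h s)
    have h2 : Commute (pert b V s) (absSq (theta b V n)) := by
      ext x
      have e1 := congrArg (fun T : H →L[ℂ] _ => T x) (theta_intw h s)
      have e2 := congrArg (fun T : _ →L[ℂ] H => T (theta b V n x)) h1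
      simp only [ContinuousLinearMap.comp_apply] at e1 e2
      change pert b V s (adjoint (theta b V n) (theta b V n x)) =
        adjoint (theta b V n) (theta b V n (pert b V s x))
      rw [e1, e2]
    have h3 := hTc _ h2
    rw [hW, ContinuousLinearMap.comp_assoc, h1, ← ContinuousLinearMap.comp_assoc,
      ← ContinuousLinearMap.comp_assoc]
    congr 1
    exact h3.eq.symm
  · have h1 := one_le_dim_theta h
    have h2 : ∀ k : κ, ‖ranProj (theta b V n) (stdB _ (1, k))‖ ^ 2 - δ / (Fintype.card κ + 1) ≤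
        ‖W (stdB _ (1, k))‖ ^ 2 := by
      intro k
      rw [hnorm]
      have e1 := hε k ε (hε2 k) (T * T) hG
      have e2 : ‖ranProj (theta b V n) (stdB _ (1, k))‖ ^ 2 =
          RCLike.re ⟪stdB _ (1, k), ranProj (theta b V n) (stdB _ (1, k))⟫_ℂ := by
        have := Submodule.re_inner_starProjection_eq_normSq (K := cran (theta b V n))
          (stdB _ (1, k))
        rw [← inner_conj_symm, RCLike.conj_re] at this
        exact this.symm
      rw [e2]
      have e3 : cut (theta b V n) (T * T) (stdB _ (1, k)) =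
        (cut (theta b V n) (T * T) (stdB _ (1, k)) - ranProj (theta b V n) (stdB _ (1, k))) +
          ranProj (theta b V n) (stdB _ (1, k)) := by abel
      rw [e3, inner_add_right, map_add]
      have e5 := (RCLike.abs_re_le_norm _).trans (norm_inner_le_norm (𝕜 := ℂ) (stdB _ (1, k))
        (cut (theta b V n) (T * T) (stdB _ (1, k)) - ranProj (theta b V n) (stdB _ (1, k))))
      rw [(stdB (FreeGroup S × Ball S n)).orthonormal.1, one_mul] at e5
      have e6 := (abs_le.1 (e5.trans e1)).1
      linarith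
    have h3 := Finset.sum_le_sum (fun k (_ : k ∈ (Finset.univ : Finset κ)) => h2 k)
    rw [Finset.sum_sub_distrib] at h3
    simp only [Finset.sum_const, Finset.card_univ, nsmul_eq_mul] at h3
    have h4 : (Fintype.card κ : ℝ) * (δ / (Fintype.card κ + 1)) ≤ δ := by
      rw [mul_div_assoc', div_le_iff₀ hcard]
      nlinarith
    linarith

end

end Pool.Agent.MP_5ec4a4_an
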